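import Pool.Agent.K4H76.LR.Gnp

/-!
# Local sparsity, degrees and maximum degree of the random graph
-/

set_option autoImplicit false
set_option linter.unusedSectionVars false

namespace Pool.Agent.K4H76.LR

open Finset Pool.Agent.H162R2.Sparse

/-! ### local sparsity -/

theorem choose_le_exp (m k : ℕ) (hk : 0 < k) :
    ((m.choose k : ℕ) : ℝ) ≤ (Real.exp 1 * m / k) ^ k := by
  have h1 := Nat.choose_le_pow_div (α := ℝ) k m
  have hk' : (0 : ℝ) < k := by exact_mod_cast hk
  have h2 := Real.pow_div_factorial_le_exp (x := (k : ℝ)) hk'.le k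
  have h3 : (0 : ℝ) < (k.factorial : ℝ) := by exact_mod_cast k.factorial_pos
  refine h1.trans ?_
  have h4 : Real.exp k = (Real.exp 1) ^ k := by
    rw [← Real.exp_nat_mul, mul_one]
  rw [h4] at h2
  rw [div_pow, mul_pow, div_le_div_iff₀ h3 (by positivity)]
  rw [div_le_iff₀ h3] at h2
  calc (m : ℝ) ^ k * (k : ℝ) ^ k ≤ (m : ℝ) ^ k * (Real.exp 1 ^ k * k.factorial) := by gcongr
    _ = Real.exp 1 ^ k * (m : ℝ) ^ k * k.factorial := by ring

theorem geom_le (r : ℝ) (h0 : 0 ≤ r) (h1 : r ≤ 1 / 2) (N : ℕ) :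
    ∑ s ∈ Finset.Icc 1 N, r ^ s ≤ 2 * r := by
  have h : ∀ N : ℕ, ∑ s ∈ Finset.Icc 1 N, r ^ s ≤ 2 * r - 2 * r ^ (N + 1) := by
    intro N
    induction N with
    | zero => simp
    | succ N ih =>
        rw [Finset.sum_Icc_succ_top (by omega)]
        have h2 : 0 ≤ r ^ (N + 1) := by positivity
        have h3 : r ^ (N + 1 + 1) = r ^ (N + 1) * r := pow_succ _ _
        rw [h3]
        nlinarith
  have := h N
  have h2 : 0 ≤ r ^ (N + 1) := by positivity
  linarith

theorem local_sparse (n b N : ℕ) (hb : 0 < b) (p r : ℝ) (h0 : 0 ≤ p) (h1 : p ≤ 1)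
    (hr0 : 0 ≤ r) (hr : r ≤ 1 / 2)
    (h : ∀ s : ℕ, 1 ≤ s → s ≤ N → Real.exp 1 * n / s * (Real.exp 1 * s * p / (2 * b)) ^ b ≤ r) :
    Pr (wB (Ed n) p) (fun ω => ∃ S : Finset (Fin n), 1 ≤ S.card ∧ S.card ≤ N ∧
      b * S.card ≤ cn (ins S) ω) ≤ 2 * r := by
  classical
  have hw := wB_wt (ι := Ed n) p h0 h1
  have h2 : Pr (wB (Ed n) p) (fun ω => ∃ S : Finset (Fin n), 1 ≤ S.card ∧ S.card ≤ N ∧
      b * S.card ≤ cn (ins S) ω) ≤ Pr (wB (Ed n) p) (fun ω => ∃ s ∈ Finset.Icc 1 N,
      ∃ S ∈ (univ : Finset (Fin n)).powersetCard s, b * s ≤ cn (ins S) ω) := by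
    apply Pr_mono hw
    rintro ω ⟨S, hS1, hS2, hS3⟩
    exact ⟨S.card, mem_Icc.2 ⟨hS1, hS2⟩, S, mem_powersetCard.2 ⟨subset_univ _, rfl⟩, hS3⟩
  refine h2.trans ((Pr_exists _ hw (fun s ω => ∃ S ∈ (univ : Finset (Fin n)).powersetCard s,
    b * s ≤ cn (ins S) ω)).trans ?_)
  refine le_trans (Finset.sum_le_sum ?_) (geom_le r hr0 hr N)
  intro s hs
  rw [mem_Icc] at hs
  refine (Pr_exists _ hw (fun S ω => b * s ≤ cn (ins S) ω)).trans ?_
  have hs0 : (0 : ℝ) < s := by
    have : 0 < s := by omega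
    exact_mod_cast this
  have hb0 : (0 : ℝ) < b := by exact_mod_cast hb
  have h3 : ∀ S ∈ (univ : Finset (Fin n)).powersetCard s,
      Pr (wB (Ed n) p) (fun ω => b * s ≤ cn (ins S) ω) ≤
        ((Real.exp 1 * s * p / (2 * b)) ^ b) ^ s := by
    intro S hS
    have hSc := (mem_powersetCard.1 hS).2
    refine (cn_le_choose p h0 h1 (ins S) (b * s)).trans ?_
    have h4 : ((ins S).card.choose (b * s) : ℝ) ≤ ((s.choose 2).choose (b * s) : ℝ) := by
      have := card_ins S
      rw [hSc] at this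
      exact_mod_cast Nat.choose_le_choose _ this
    have h5 := choose_le_exp (s.choose 2) (b * s) (Nat.mul_pos hb (by omega))
    have h6 : ((s.choose 2 : ℕ) : ℝ) ≤ s ^ 2 / 2 := by
      have := Nat.choose_le_pow_div (α := ℝ) 2 s
      simpa using this
    have h7 : Real.exp 1 * ((s.choose 2 : ℕ) : ℝ) / ((b * s : ℕ) : ℝ) ≤
        Real.exp 1 * s / (2 * b) := by
      push_cast
      rw [div_le_div_iff₀ (by positivity) (by positivity)]
      have : Real.exp 1 * ((s.choose 2 : ℕ) : ℝ) ≤ Real.exp 1 * (s ^ 2 / 2) := by gcongr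
      nlinarith
    calc ((ins S).card.choose (b * s) : ℝ) * p ^ (b * s) ≤
          (Real.exp 1 * ((s.choose 2 : ℕ) : ℝ) / ((b * s : ℕ) : ℝ)) ^ (b * s) * p ^ (b * s) := by
          gcongr
          exact h4.trans h5
      _ ≤ (Real.exp 1 * s / (2 * b)) ^ (b * s) * p ^ (b * s) := by gcongr
      _ = ((Real.exp 1 * s * p / (2 * b)) ^ b) ^ s := by
          rw [← mul_pow, pow_mul]
          congr 2
          ring
  refine (Finset.sum_le_sum h3).trans ?_
  rw [Finset.sum_const, card_powersetCard, nsmul_eq_mul, card_univ, Fintype.card_fin]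
  have h8 := choose_le_exp n s (by omega)
  calc ((n.choose s : ℕ) : ℝ) * ((Real.exp 1 * s * p / (2 * b)) ^ b) ^ s ≤
        (Real.exp 1 * n / s) ^ s * ((Real.exp 1 * s * p / (2 * b)) ^ b) ^ s := by gcongr
    _ = (Real.exp 1 * n / s * (Real.exp 1 * s * p / (2 * b)) ^ b) ^ s := by rw [← mul_pow]
    _ ≤ r ^ s := by
        apply pow_le_pow_left₀ (by positivity)
        exact h s hs.1 hs.2

/-! ### degrees -/

theorem deg_upper (n : ℕ) (p M a : ℝ) (h0 : 0 ≤ p) (h1 : p ≤ 1) (hM : 0 < M) (ha : 0 ≤ a)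
    (haM : a ≤ 2 * M) (hnp : n * p ≤ M) (v : Fin n) :
    Pr (wB (Ed n) p) (fun ω => M + a ≤ dg (Gr ω) v) ≤ Real.exp (-(a ^ 2) / (4 * M)) := by
  have hw := wB_wt (ι := Ed n) p h0 h1
  have h2 := upper hw (st v (univ.erase v)) (fun _ b => b = true) M a hM ha haM (by
    rw [Finset.sum_congr rfl (fun i _ => P1_wB p i), Finset.sum_const, nsmul_eq_mul]
    refine le_trans ?_ hnp
    gcongr
    exact_mod_cast (card_st_le v (univ.erase v)).trans ((card_le_card (erase_subset _ _)).trans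
      (by rw [card_univ, Fintype.card_fin])))
  refine le_trans (Pr_mono hw ?_) h2
  intro ω h
  refine h.trans ?_
  rw [← cn_eq]
  exact_mod_cast dg_le_cn v ω

theorem deg_upper' (n : ℕ) (p : ℝ) (h0 : 0 ≤ p) (h1 : p ≤ 1) (k : ℕ) (v : Fin n) :
    Pr (wB (Ed n) p) (fun ω => k ≤ dg (Gr ω) v) ≤ (n * p) ^ k / k.factorial := by
  have hw := wB_wt (ι := Ed n) p h0 h1
  refine le_trans (Pr_mono hw (Q := fun ω => k ≤ cn (st v (univ.erase v)) ω)
    (fun ω h => le_trans h (dg_le_cn v ω))) ?_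
  refine (cn_le_choose p h0 h1 _ k).trans ?_
  have h2 : ((st v (univ.erase v)).card.choose k : ℝ) ≤ (n.choose k : ℝ) := by
    have := (card_st_le v (univ.erase v)).trans ((card_le_card (erase_subset _ _)).trans
      (by rw [card_univ, Fintype.card_fin]))
    exact_mod_cast Nat.choose_le_choose _ this
  have h3 := Nat.choose_le_pow_div (α := ℝ) k n
  calc ((st v (univ.erase v)).card.choose k : ℝ) * p ^ k ≤ ((n : ℝ) ^ k / k.factorial) * p ^ k := by
        gcongr
        exact h2.trans h3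
    _ = (n * p) ^ k / k.factorial := by rw [mul_pow]; ring

/-- few vertices of large degree -/
theorem few_large (n : ℕ) (p : ℝ) (h0 : 0 ≤ p) (h1 : p ≤ 1) (x ρ c : ℝ) (hc : 0 < c)
    (h : ∀ v : Fin n, Pr (wB (Ed n) p) (fun ω => x ≤ dg (Gr ω) v) ≤ ρ) :
    Pr (wB (Ed n) p) (fun ω => c ≤ ((univ.filter (fun v : Fin n => x ≤ dg (Gr ω) v)).card : ℝ)) ≤
      n * ρ / c := by
  classical
  have hw := wB_wt (ι := Ed n) p h0 h1
  refine (markov hw _ (fun ω => ((univ.filter (fun v : Fin n => x ≤ dg (Gr ω) v)).card : ℝ)) c hc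
    (fun ω => Nat.cast_nonneg _) (fun ω h => h)).trans ?_
  gcongr
  have h3 : (fun ω : Ed n → Bool => ((univ.filter (fun v : Fin n => x ≤ dg (Gr ω) v)).card : ℝ)) =
      fun ω => ∑ v : Fin n, if x ≤ dg (Gr ω) v then (1 : ℝ) else 0 := by
    funext ω
    rw [Finset.sum_boole]
  rw [h3, Ex_sum univ _ (fun v ω => if x ≤ dg (Gr ω) v then (1 : ℝ) else 0)]
  calc ∑ v : Fin n, Ex (wB (Ed n) p) (fun ω => if x ≤ dg (Gr ω) v then (1 : ℝ) else 0) ≤
        ∑ _v : Fin n, ρ := by
        apply Finset.sum_le_sum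
        intro v _
        refine le_trans (le_of_eq ?_) (h v)
        unfold Pr
        congr!
    _ = n * ρ := by rw [Finset.sum_const, card_univ, nsmul_eq_mul, Fintype.card_fin]

/-! ### maximum degree -/

theorem max_deg (n m k : ℕ) (p x : ℝ) (h0 : 0 ≤ p) (h1 : p ≤ 1) (hm : m ≤ n)
    (hx : x ≤ ((n - m).choose k : ℝ) * (p ^ k * (1 - p) ^ (n - m))) :
    Pr (wB (Ed n) p) (fun ω => ∀ v : Fin n, dg (Gr ω) v < k) ≤ Real.exp (-(m * x)) := by
  classical
  have hw := wB_wt (ι := Ed n) p h0 h1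
  set A : Finset (Fin n) := univ.filter (fun v => v.val < m) with hA
  set B : Finset (Fin n) := univ.filter (fun v => ¬ v.val < m) with hB
  have hAc : A.card = m := by
    rw [hA, Fin.card_filter_val_lt]
    omega
  have hBc : B.card = n - m := by
    have h2 := card_filter_add_card_filter_not (s := (univ : Finset (Fin n)))
      (fun v => v.val < m)
    rw [card_univ, Fintype.card_fin] at h2
    rw [← hA, ← hB] at h2
    omega
  have h2 : Pr (wB (Ed n) p) (fun ω => ∀ v : Fin n, dg (Gr ω) v < k) ≤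
      Pr (wB (Ed n) p) (fun ω => ∀ v ∈ A, cn (st v B) ω < k) := by
    apply Pr_mono hw
    intro ω h v _
    exact lt_of_le_of_lt (cn_st_le v B ω) (h v)
  refine h2.trans ?_
  rw [Pr_forall_indep hw (fun v => st v B) (fun v ω => cn (st v B) ω < k)]
  · have h3 : ∀ v ∈ A, Pr (wB (Ed n) p) (fun ω => cn (st v B) ω < k) ≤ Real.exp (-x) := by
      intro v hv
      have h4 : Pr (wB (Ed n) p) (fun ω => cn (st v B) ω < k) =
          1 - Pr (wB (Ed n) p) (fun ω => k ≤ cn (st v B) ω) := by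
        rw [← Pr_not hw]
        congr 1
        funext ω
        rw [not_le]
      rw [h4]
      have h5 := choose_le_cn p h0 h1 (st v B) k
      have hvB : v ∉ B := by
        rw [hA, mem_filter] at hv
        rw [hB, mem_filter]
        exact fun h => h.2 hv.2
      rw [card_st v B hvB, hBc] at h5
      have h6 := Real.add_one_le_exp (-x)
      linarith
    calc ∏ v ∈ A, Pr (wB (Ed n) p) (fun ω => cn (st v B) ω < k) ≤ ∏ _v ∈ A, Real.exp (-x) := by
          apply Finset.prod_le_prod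
          · intro v _
            exact Pr_nonneg hw _
          · exact h3
      _ = Real.exp (-(m * x)) := by
          rw [Finset.prod_const, hAc, ← Real.exp_nat_mul]
          congr 1
          ring
  · intro v ω ω' h
    unfold cn
    have : (st v B).filter (fun i => ω i = true) = (st v B).filter (fun i => ω' i = true) := by
      apply Finset.filter_congr
      intro i hi
      rw [h i hi]
    rw [this]
  · intro v hv w hw hvw
    rw [disjoint_left]
    intro e he he'
    unfold st at he he'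
    rw [mem_filter] at he he'
    obtain ⟨_, a, ha, h3⟩ := he
    obtain ⟨_, b, hb, h4⟩ := he'
    rw [h3, Sym2.eq_iff] at h4
    rcases h4 with h4 | h4
    · exact hvw h4.1
    · rw [h4.1] at hv
      rw [hA, mem_filter] at hv
      rw [hB, mem_filter] at hb
      exact hb.2 hv.2

end Pool.Agent.K4H76.LR
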