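import Pool.Agent.K4H76.LR.Core

/-!
# The simple version without levels, and forests
-/

set_option autoImplicit false
set_option linter.unusedSectionVars false

namespace Pool.Agent.K4H76.LR

open Finset Pool.Agent.H162R2.Sparse Pool.Agent.H162R2.AG Pool.Agent.H892.LEC

section
variable {V : Type} [Fintype V] [DecidableEq V]

theorem simple (G : SimpleGraph V) (D d B N : ℕ) (T0 : Finset V)
    (ha : 34 * (2 * B) * (1 + Real.log D) ≤ D) (hdeg : ∀ v, dg G v ≤ D)
    (hT0 : ∀ v, v ∉ T0 → dg G v ≤ d) (hdD : 2 * d + 2 * B ≤ D)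
    (hloc : ∀ X : Finset V, X.card ≤ N → ep G X ≤ B * X.card) (hN : 2 * T0.card ≤ N)
    (L : V → V → Finset ℕ) (hsym : ∀ x y, L x y = L y x)
    (hL : ∀ x y, G.Adj x y → D ≤ (L x y).card) : LC G L := by
  classical
  obtain ⟨T, hT1, hT2, hT3⟩ := closure G T0 B N hloc hN
  refine core G D B 0 T ha hdeg ?_ hT3 L hsym hL (fun _ i => i.elim0) (fun _ => 0)
    (fun _ => d) ?_ ?_ ?_
  · intro X hX
    have h1 := hloc X ((card_le_card hX).trans hT2)
    refine h1.trans ?_
    gcongr
    omega
  · intro v hv j _
    refine le_trans ?_ (hT0 v (fun h => hv (hT1 h)))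
    unfold dgL dg
    exact card_le_card (filter_subset _ _)
  · intro v _ w _ j hj
    omega
  · intro v _ w hvw
    have h1 := hL v w hvw
    unfold cl
    rw [filter_true_of_mem (fun _ _ => rfl)]
    omega

theorem forest_aux (D : ℕ) (L : V → V → Finset ℕ) (hsym : ∀ a b, L a b = L b a) :
    ∀ (n : ℕ) (G : SimpleGraph V), (pr G).card = n → (∀ v, dg G v ≤ D) →
      (∀ X : Finset V, X.Nonempty → ep G X < 2 * X.card) →
      (∀ u v, G.Adj u v → D ≤ (L u v).card) → LC G L := by
  classical
  intro n
  induction n using Nat.strong_induction_on with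
  | _ n ih =>
  intro G hn hdeg hloc hL
  by_cases hE : ∃ x y, G.Adj x y
  · obtain ⟨x0, y0, hxy0⟩ := hE
    -- a leaf
    obtain ⟨u, hu⟩ : ∃ u, dg G u = 1 := by
      by_contra hcon
      push Not at hcon
      set X : Finset V := univ.filter (fun v => 0 < dg G v) with hX
      have hx0 : x0 ∈ X := by
        rw [hX, mem_filter]
        refine ⟨mem_univ _, ?_⟩
        unfold dg
        exact card_pos.2 ⟨y0, (mem_nb _ _ _).2 hxy0⟩
      have h1 := hloc X ⟨x0, hx0⟩
      have h2 : ep G X = ∑ u ∈ X, dg G u := by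
        rw [← card_ES]
        unfold ep
        congr 1
        ext e
        rw [mem_filter, mem_pr, mem_ES]
        constructor
        · rintro ⟨h, h', _⟩
          exact ⟨h, h'⟩
        · rintro ⟨h, h'⟩
          refine ⟨h, h', ?_⟩
          rw [hX, mem_filter]
          refine ⟨mem_univ _, ?_⟩
          unfold dg
          exact card_pos.2 ⟨e.1, (mem_nb _ _ _).2 h.symm⟩
      have h3 : 2 * X.card ≤ ∑ u ∈ X, dg G u := by
        rw [mul_comm, ← smul_eq_mul, ← Finset.sum_const]
        apply Finset.sum_le_sum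
        intro u hu
        rw [hX, mem_filter] at hu
        have := hcon u
        omega
      omega
    obtain ⟨v, hv⟩ : ∃ v, G.Adj u v := by
      unfold dg at hu
      obtain ⟨v, hv⟩ := card_pos.1 (by omega : 0 < (nb G u).card)
      exact ⟨v, (mem_nb _ _ _).1 hv⟩
    have hmono : ∀ a b, (cutE G u v).Adj a b → G.Adj a b := fun a b h =>
      ((cutE_adj G u v a b).1 h).1
    apply ext_edge G u v hv L hsym
    · have h1 := hdeg v
      have h2 := hL u v hv
      omega
    · apply ih (pr (cutE G u v)).card _ (cutE G u v) rfl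
      · intro w
        exact (dg_mono hmono w).trans (hdeg w)
      · intro X hX
        refine lt_of_le_of_lt ?_ (hloc X hX)
        unfold ep
        exact card_le_card (filter_subset_filter _ (pr_mono hmono))
      · intro a b hab
        exact hL a b (hmono a b hab)
      · rw [← hn]
        apply pr_card_lt hmono u v hv
        rw [cutE_adj]
        tauto
  · push Not at hE
    exact ⟨fun _ _ => 0, fun x y h => absurd h (hE x y), fun x y h => absurd h (hE x y),
      fun x y z h => absurd h (hE x y)⟩

theorem forest (G : SimpleGraph V) (D : ℕ) (hdeg : ∀ v, dg G v ≤ D)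
    (hloc : ∀ X : Finset V, X.Nonempty → ep G X < 2 * X.card)
    (L : V → V → Finset ℕ) (hsym : ∀ x y, L x y = L y x)
    (hL : ∀ x y, G.Adj x y → D ≤ (L x y).card) : LC G L :=
  forest_aux D L hsym _ G rfl hdeg hloc hL

end

end Pool.Agent.K4H76.LR
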