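import Pool.Agent.K4H76.LR.Transfer
import Pool.Agent.K4H76.LR.Gnp2
import Pool.Agent.K4H76.LR.Simple

/-!
# Numerical lemmas
-/

set_option autoImplicit false
set_option linter.unusedSectionVars false

namespace Pool.Agent.K4H76.LR

open Finset Pool.Agent.H162R2.Sparse

theorem main_cond (D : ℕ) (hD : 2500 ≤ D) : 34 * (2 * (4 : ℕ)) * (1 + Real.log D) ≤ (D : ℝ) := by
  have h0 : (0 : ℝ) < D := by
    have : 0 < D := by omega
    exact_mod_cast this
  have hD' : (2500 : ℝ) ≤ D := by exact_mod_cast hD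
  have h1 : Real.log (D / 4096) ≤ D / 4096 - 1 := Real.log_le_sub_one_of_pos (by positivity)
  have h2 : Real.log (D / 4096) = Real.log D - Real.log 4096 :=
    Real.log_div h0.ne' (by norm_num)
  have h3 : Real.log 4096 = 12 * Real.log 2 := by
    have : (4096 : ℝ) = 2 ^ 12 := by norm_num
    rw [this, Real.log_pow]
    norm_num
  have h4 := Real.log_two_lt_d9
  push_cast
  linarith

theorem one_sub_pow (p : ℝ) (h0 : 0 ≤ p) (h : p ≤ 1 / 2) (n : ℕ) :
    Real.exp (-(2 * (n * p))) ≤ (1 - p) ^ n := by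
  have h1 : Real.exp (-(2 * p)) ≤ 1 - p := by
    rw [Real.exp_neg]
    have h2 : 1 + 2 * p ≤ Real.exp (2 * p) := by
      have := Real.add_one_le_exp (2 * p)
      linarith
    have h3 : (Real.exp (2 * p))⁻¹ ≤ (1 + 2 * p)⁻¹ := inv_anti₀ (by linarith) h2
    refine h3.trans ?_
    rw [inv_le_iff_one_le_mul₀ (by linarith)]
    nlinarith
  calc Real.exp (-(2 * (n * p))) = (Real.exp (-(2 * p))) ^ n := by
        rw [← Real.exp_nat_mul]
        congr 1
        ring
    _ ≤ (1 - p) ^ n := pow_le_pow_left₀ (Real.exp_pos _).le h1 n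

theorem pow_div_fact (l : ℝ) (hl : 0 ≤ l) (j : ℕ) (hj : 0 < j) :
    l ^ j / j.factorial ≤ (Real.exp 1 * l / j) ^ j := by
  have hj' : (0 : ℝ) < j := by exact_mod_cast hj
  have h2 := Real.pow_div_factorial_le_exp (x := (j : ℝ)) hj'.le j
  have h3 : (0 : ℝ) < (j.factorial : ℝ) := by exact_mod_cast j.factorial_pos
  have h4 : Real.exp j = (Real.exp 1) ^ j := by
    rw [← Real.exp_nat_mul, mul_one]
  rw [h4] at h2
  rw [div_pow, mul_pow, div_le_div_iff₀ h3 (by positivity)]
  rw [div_le_iff₀ h3] at h2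
  calc l ^ j * (j : ℝ) ^ j ≤ l ^ j * (Real.exp 1 ^ j * j.factorial) := by gcongr
    _ = Real.exp 1 ^ j * l ^ j * j.factorial := by ring

theorem exp_seven : 45 * Real.exp 7 / 100000 ≤ 1 := by
  have h1 : Real.exp 7 = (Real.exp 1) ^ 7 := by
    rw [← Real.exp_nat_mul]
    norm_num
  have h2 := Real.exp_one_lt_d9
  have h3 : (Real.exp 1) ^ 7 ≤ 2.7182818286 ^ 7 := pow_le_pow_left₀ (Real.exp_pos 1).le h2.le 7
  rw [h1]
  have h4 : (2.7182818286 : ℝ) ^ 7 ≤ 1100 := by norm_num
  linarith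

theorem exists_d (J : ℕ) (x l δ : ℝ) (hx : 0 < x) (hδ : 0 < δ) (hδJ : δ * J ≤ 1 / 16)
    (hF : (J.factorial : ℝ) < Real.exp (x / 16)) (hl1 : Real.exp (-(δ * x)) ≤ l)
    (hl2 : l ≤ x / 100000) :
    ∃ d : ℕ, J ≤ d ∧ (d : ℝ) ≤ x / 45 ∧
      l ^ (d + 1) / (d + 1).factorial ≤ Real.exp (-(x / 8)) ∧
      Real.exp (-(x / 8)) < l ^ d / d.factorial := by
  classical
  have hlpos : 0 < l := lt_of_lt_of_le (Real.exp_pos _) hl1
  have hex : l ^ (⌊x / 45⌋₊ + 1) / (⌊x / 45⌋₊ + 1).factorial ≤ Real.exp (-(x / 8)) := by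
    set d := ⌊x / 45⌋₊ with hd
    have h1 : x / 45 < d + 1 := Nat.lt_floor_add_one _
    refine (pow_div_fact l hlpos.le (d + 1) (by omega)).trans ?_
    have h2 : Real.exp 1 * l / ((d + 1 : ℕ) : ℝ) ≤ Real.exp (-6) := by
      push_cast
      rw [div_le_iff₀ (by positivity)]
      have h3 := exp_seven
      have h4 : Real.exp 7 = Real.exp 1 * Real.exp 6 := by rw [← Real.exp_add]; norm_num
      have h5 : Real.exp 6 * Real.exp (-6) = 1 := by rw [← Real.exp_add]; norm_num
      have h6 : 0 < Real.exp (-6) := Real.exp_pos _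
      rw [h4] at h3
      have h7 := mul_le_mul_of_nonneg_right h3 h6.le
      have h8 : 45 * (Real.exp 1 * Real.exp 6) / 100000 * Real.exp (-6) =
          45 * Real.exp 1 / 100000 := by
        calc 45 * (Real.exp 1 * Real.exp 6) / 100000 * Real.exp (-6) =
            45 * Real.exp 1 / 100000 * (Real.exp 6 * Real.exp (-6)) := by ring
          _ = _ := by rw [h5, mul_one]
      rw [h8, one_mul] at h7
      calc Real.exp 1 * l ≤ Real.exp 1 * (x / 100000) := by gcongr
        _ = (45 * Real.exp 1 / 100000) * (x / 45) := by ring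
        _ ≤ Real.exp (-6) * (x / 45) := by gcongr
        _ ≤ Real.exp (-6) * (d + 1) := by gcongr
    refine (pow_le_pow_left₀ (by positivity) h2 _).trans ?_
    rw [← Real.exp_nat_mul]
    apply Real.exp_le_exp.2
    push_cast
    linarith
  have hex' : ∃ d : ℕ, l ^ (d + 1) / (d + 1).factorial ≤ Real.exp (-(x / 8)) := ⟨_, hex⟩
  have hJ : J ≤ Nat.find hex' := by
    by_contra hcon
    push Not at hcon
    have h1 := Nat.find_spec hex'
    set d := Nat.find hex' with hd
    have h2 : Real.exp (-(x / 16)) ≤ l ^ (d + 1) := by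
      have h3 : Real.exp (-(δ * x)) ^ (d + 1) ≤ l ^ (d + 1) :=
        pow_le_pow_left₀ (Real.exp_pos _).le hl1 _
      refine le_trans ?_ h3
      rw [← Real.exp_nat_mul]
      apply Real.exp_le_exp.2
      have h4 : ((d + 1 : ℕ) : ℝ) ≤ J := by exact_mod_cast hcon
      have h5 : ((d + 1 : ℕ) : ℝ) * (δ * x) ≤ J * (δ * x) := by gcongr
      have h6 : (J : ℝ) * (δ * x) ≤ x / 16 := by
        have := mul_le_mul_of_nonneg_right hδJ hx.le
        linarith
      linarith
    have h3 : ((d + 1).factorial : ℝ) ≤ J.factorial := by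
      exact_mod_cast Nat.factorial_le hcon
    have h4 : (0 : ℝ) < ((d + 1).factorial : ℝ) := by exact_mod_cast (d + 1).factorial_pos
    rw [div_le_iff₀ h4] at h1
    have h5 : Real.exp (-(x / 8)) * Real.exp (x / 16) = Real.exp (-(x / 16)) := by
      rw [← Real.exp_add]
      congr 1
      ring
    have h6 : Real.exp (-(x / 8)) * (d + 1).factorial < Real.exp (-(x / 8)) * Real.exp (x / 16) := by
      apply mul_lt_mul_of_pos_left _ (Real.exp_pos _)
      linarith
    linarith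
  refine ⟨Nat.find hex', hJ, ?_, Nat.find_spec hex', ?_⟩
  · have h1 := Nat.find_min' hex' hex
    have h2 := Nat.floor_le (a := x / 45) (by positivity)
    have h3 : ((Nat.find hex' : ℕ) : ℝ) ≤ ⌊x / 45⌋₊ := by exact_mod_cast h1
    linarith
  · by_cases h0 : Nat.find hex' = 0
    · rw [h0]
      simp only [pow_zero, Nat.factorial_zero, Nat.cast_one, div_one]
      rw [Real.exp_lt_one_iff]
      linarith
    · obtain ⟨c, hc⟩ := Nat.exists_eq_succ_of_ne_zero h0
      have h1 := Nat.find_min hex' (m := c) (by omega)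
      push Not at h1
      rw [hc]
      exact h1

theorem fact_bound (l : ℝ) (hl : 0 ≤ l) (d : ℕ) :
    (l / (4 * (2 * d + 8))) ^ 8 * ((l ^ d / d.factorial) ^ 2 / 64 ^ d) ≤
      (l / 4) ^ (2 * d + 8) / (2 * d + 8).factorial := by
  have h1 : (2 * d + 8).factorial ≤ 4 ^ d * d.factorial * d.factorial * (2 * d + 8) ^ 8 := by
    rw [← Nat.factorial_mul_ascFactorial (2 * d) 8]
    apply Nat.mul_le_mul
    · have h2 := Nat.choose_mul_factorial_mul_factorial (n := 2 * d) (k := d) (by omega)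
      rw [← h2]
      have h3 : 2 * d - d = d := by omega
      rw [h3]
      have h4 := Nat.choose_le_two_pow (2 * d) d
      rw [pow_mul] at h4
      norm_num at h4
      gcongr
    · exact Nat.ascFactorial_le_pow_add _ _
  have h2 : ((2 * d + 8).factorial : ℝ) ≤
      4 ^ d * d.factorial * d.factorial * (2 * d + 8) ^ 8 := by exact_mod_cast h1
  have hf : (0 : ℝ) < (d.factorial : ℝ) := by exact_mod_cast d.factorial_pos
  have hf2 : (0 : ℝ) < ((2 * d + 8).factorial : ℝ) := by exact_mod_cast (2 * d + 8).factorial_pos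
  have h3 : (l / 4) ^ (2 * d + 8) / (4 ^ d * d.factorial * d.factorial * (2 * d + 8) ^ 8) ≤
      (l / 4) ^ (2 * d + 8) / (2 * d + 8).factorial :=
    div_le_div_of_nonneg_left (by positivity) hf2 h2
  refine le_trans (le_of_eq ?_) h3
  have e1 : (64 : ℝ) ^ d = 4 ^ d * 16 ^ d := by rw [← mul_pow]; norm_num
  have e2 : (l / 4) ^ (2 * d + 8) = l ^ (2 * d) / 16 ^ d * (l / 4) ^ 8 := by
    have e3 : (l / 4) ^ 2 = l ^ 2 / 16 := by ring
    rw [pow_add, pow_mul (l / 4), e3, div_pow, ← pow_mul]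
  rw [e1, e2, pow_mul' l 2 d, div_pow, div_pow, div_pow, mul_pow]
  field_simp

theorem choose_low (n m k : ℕ) (p y : ℝ) (h0 : 0 ≤ p) (h1 : p ≤ 1) (hm : m ≤ n) (hy : 0 ≤ y)
    (hk : y + m + k ≤ n) :
    (y * p) ^ k / k.factorial * (1 - p) ^ n ≤
      ((n - m).choose k : ℝ) * (p ^ k * (1 - p) ^ (n - m)) := by
  have h2 := Nat.pow_le_choose (α := ℝ) k (n - m)
  have hf : (0 : ℝ) < (k.factorial : ℝ) := by exact_mod_cast k.factorial_pos
  have hmk : m + k ≤ n := by
    have : ((m + k : ℕ) : ℝ) ≤ n := by push_cast; linarith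
    exact_mod_cast this
  have h3 : y ≤ ((n - m + 1 - k : ℕ) : ℝ) := by
    have : ((n - m + 1 - k : ℕ) : ℝ) = n - m + 1 - k := by
      rw [Nat.cast_sub (by omega), Nat.cast_add, Nat.cast_sub hm]
      norm_num
    rw [this]
    linarith
  have h4 : y ^ k / k.factorial ≤ ((n - m).choose k : ℝ) := by
    refine le_trans ?_ h2
    gcongr
  have h5 : (1 - p) ^ n ≤ (1 - p) ^ (n - m) :=
    pow_le_pow_of_le_one (by linarith) (by linarith) (by omega)
  have h6 : 0 ≤ (1 - p) ^ n := pow_nonneg (by linarith) _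
  calc (y * p) ^ k / k.factorial * (1 - p) ^ n = (y ^ k / k.factorial) * (p ^ k * (1 - p) ^ n) := by
        rw [mul_pow]; ring
    _ ≤ ((n - m).choose k : ℝ) * (p ^ k * (1 - p) ^ (n - m)) := by
        gcongr

end Pool.Agent.K4H76.LR
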