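import Pool.Agent.K4H76.LR.Gnp
import Pool.Agent.H162R2.LEC.Circ

/-!
# Sums over graphs, and the conclusion
-/

set_option autoImplicit false
set_option linter.unusedSectionVars false

namespace Pool.Agent.K4H76.LR

open Finset Pool.Agent.H162R2.Sparse

/-- graphs and outcomes -/
noncomputable def eqv (n : ℕ) : SimpleGraph (Fin n) ≃ (Ed n → Bool) := by
  classical exact
  { toFun := fun G e => decide (e.1 ∈ G.edgeSet)
    invFun := Gr
    left_inv := by
      intro G
      ext a b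
      constructor
      · rintro ⟨_, h⟩
        simpa using h
      · intro h
        refine ⟨?_, ?_⟩
        · rw [Sym2.mk_isDiag_iff]
          exact h.ne
        · simpa using h
    right_inv := by
      intro ω
      funext e
      obtain ⟨e, he⟩ := e
      induction e using Sym2.inductionOn with
      | _ a b =>
      have h : (s(a, b) ∈ (Gr ω).edgeSet) ↔ ω ⟨s(a, b), he⟩ = true := by
        rw [SimpleGraph.mem_edgeSet]
        exact ⟨fun ⟨_, h⟩ => h, fun h => ⟨he, h⟩⟩
      simp only [h]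
      cases ω ⟨s(a, b), he⟩ <;> simp }

open Classical in
theorem prob_eq (n : ℕ) (p : ℝ) (P : SimpleGraph (Fin n) → Prop) :
    (∑ G : SimpleGraph (Fin n), if P G then
      (∏ e : {e : Sym2 (Fin n) // ¬ e.IsDiag}, if e.1 ∈ G.edgeSet then p else 1 - p) else 0) =
    Pr (wB (Ed n) p) (fun ω => P (Gr ω)) := by
  unfold Pr Ex
  rw [← Equiv.sum_comp (eqv n)]
  apply Finset.sum_congr rfl
  intro G _
  have h1 : Gr (eqv n G) = G := (eqv n).left_inv G
  show _ = _ * (if P (Gr (eqv n G)) then (1 : ℝ) else 0)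
  rw [h1]
  by_cases h : P G
  · rw [if_pos h, if_pos h, mul_one]
    apply Finset.prod_congr rfl
    intro e _
    unfold wB eqv
    by_cases he : e.1 ∈ G.edgeSet
    · simp [he]
    · simp [he]
  · rw [if_neg h, if_neg h, mul_zero]

/-- lists of `Δ(G)` colours suffice -/
def Good {n : ℕ} (G : SimpleGraph (Fin n)) : Prop :=
  ∀ D : ℕ, (∀ v, dg G v ≤ D) → (∃ v, dg G v = D) → ∀ L : Fin n → Fin n → Finset ℕ,
    (∀ x y, L x y = L y x) → (∀ x y, G.Adj x y → D ≤ (L x y).card) → LC G L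

theorem concl {n : ℕ} (hn : 0 < n) (G : SimpleGraph (Fin n)) (h : Good G) :
    (∀ k : ℕ, G.lineGraph.Colorable k ↔
      ∀ L : G.edgeSet → Finset ℕ, (∀ e, k ≤ (L e).card) →
        ∃ f : G.edgeSet → ℕ, (∀ e, f e ∈ L e) ∧
          ∀ e e', G.lineGraph.Adj e e' → f e ≠ f e') ∧
    ∀ D : ℕ, (∀ v, (G.neighborSet v).ncard ≤ D) →
      ∀ L : G.edgeSet → Finset ℕ, (∀ e, D ≤ (L e).card) →
        ∃ f : G.edgeSet → ℕ, (∀ e, f e ∈ L e) ∧
          ∀ e e', G.lineGraph.Adj e e' → f e ≠ f e' := by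
  classical
  have : Nonempty (Fin n) := ⟨⟨0, hn⟩⟩
  obtain ⟨v, hv⟩ := Finite.exists_max (fun v : Fin n => dg G v)
  have hch : Pool.Agent.H921R2.LEC.Choosable G (dg G v) :=
    choosable_of_LC G (dg G v) (fun L hsym hL => h (dg G v) hv ⟨v, rfl⟩ L hsym hL)
  refine ⟨fun k => ?_, ?_⟩
  · exact Pool.Agent.H162R2.LEC.listEdge_of_embed G (dg G v) hch G id Function.injective_id
      (fun _ _ h => h) v (by rw [dg_eq_ncard]) k
  · intro D hD L hL
    apply hch L
    intro e
    refine le_trans ?_ (hL e)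
    rw [dg_eq_ncard]
    exact hD v

/-! ### large values -/

theorem ev_exp (c : ℝ) (hc : 0 < c) (C : ℝ) (k : ℕ) :
    ∃ x₀ : ℝ, ∀ x : ℝ, x₀ ≤ x → C * x ^ k ≤ Real.exp (c * x) := by
  have h1 := Real.tendsto_exp_div_pow_atTop k
  have h2 : Filter.Tendsto (fun x : ℝ => c * x) Filter.atTop Filter.atTop :=
    Filter.tendsto_id.const_mul_atTop hc
  have h3 := (h1.comp h2).eventually_ge_atTop (C / c ^ k)
  obtain ⟨x₀, h4⟩ := Filter.eventually_atTop.1 h3
  refine ⟨max x₀ 1, ?_⟩
  intro x hx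
  have hx1 : x₀ ≤ x := (le_max_left _ _).trans hx
  have hx2 : (0 : ℝ) < x := lt_of_lt_of_le one_pos ((le_max_right _ _).trans hx)
  have h5 := h4 x hx1
  simp only [Function.comp] at h5
  rw [div_le_div_iff₀ (by positivity) (by positivity), mul_pow] at h5
  have h6 : 0 < c ^ k := by positivity
  have h7 : (C * x ^ k) * c ^ k ≤ Real.exp (c * x) * c ^ k := by linarith
  exact le_of_mul_le_mul_right h7 h6

end Pool.Agent.K4H76.LR
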