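import Pool.Agent.K4H76.LR.Exist
import Pool.Agent.H892.LEC.Few

/-!
# Combination: few bad vertices, local sparsity, levels
-/

set_option autoImplicit false
set_option linter.unusedSectionVars false

namespace Pool.Agent.K4H76.LR

open Finset Pool.Agent.H162R2.Sparse Pool.Agent.H162R2.AG Pool.Agent.H892.LEC

/-- truncation of a list -/
noncomputable def tr (D : ℕ) (S : Finset ℕ) : Finset ℕ := by
  classical exact if h : D ≤ S.card then (exists_subset_card_eq h).choose else ∅

theorem tr_sub (D : ℕ) (S : Finset ℕ) : tr D S ⊆ S := by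
  unfold tr
  split_ifs with h
  · exact (exists_subset_card_eq h).choose_spec.1
  · exact empty_subset _

theorem tr_card (D : ℕ) (S : Finset ℕ) (h : D ≤ S.card) : (tr D S).card = D := by
  unfold tr
  rw [dif_pos h]
  exact (exists_subset_card_eq h).choose_spec.2

section
variable {V : Type} [Fintype V] [DecidableEq V]

/-- the number of the ordered adjacent pairs in `X` -/
noncomputable def ep (G : SimpleGraph V) (X : Finset V) : ℕ :=
  ((pr G).filter (fun e => e.1 ∈ X ∧ e.2 ∈ X)).card

theorem ep_insert (G : SimpleGraph V) (X : Finset V) (v : V) (hv : v ∉ X) :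
    ep G X + 2 * ((nb G v).filter (fun w => w ∈ X)).card ≤ ep G (insert v X) := by
  classical
  unfold ep
  set A := (pr G).filter (fun e => e.1 ∈ X ∧ e.2 ∈ X) with hA
  set N := (nb G v).filter (fun w => w ∈ X) with hN
  have hB : (N.image (fun w => (v, w))).card = N.card :=
    card_image_of_injective _ (fun a b h => (Prod.ext_iff.1 h).2)
  have hC : (N.image (fun w => (w, v))).card = N.card :=
    card_image_of_injective _ (fun a b h => (Prod.ext_iff.1 h).1)
  have hd1 : Disjoint A (N.image (fun w => (v, w)) ∪ N.image (fun w => (w, v))) := by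
    rw [disjoint_left]
    rintro ⟨x, y⟩ h1 h2
    rw [hA, mem_filter] at h1
    rw [mem_union, mem_image, mem_image] at h2
    rcases h2 with ⟨w, _, h2⟩ | ⟨w, _, h2⟩
    · have h3 := (Prod.ext_iff.1 h2).1
      simp only at h3
      exact hv (h3 ▸ h1.2.1)
    · have h3 := (Prod.ext_iff.1 h2).2
      simp only at h3
      exact hv (h3 ▸ h1.2.2)
  have hd2 : Disjoint (N.image (fun w => (v, w))) (N.image (fun w => (w, v))) := by
    rw [disjoint_left]
    rintro ⟨x, y⟩ h1 h2
    rw [mem_image] at h1 h2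
    obtain ⟨w, hw, h1⟩ := h1
    obtain ⟨w', hw', h2⟩ := h2
    have h3 : w' = v := by
      have e1 := (Prod.ext_iff.1 h1).1
      have e2 := (Prod.ext_iff.1 h2).1
      simp only at e1 e2
      rw [e2, ← e1]
    rw [hN, mem_filter] at hw'
    exact hv (h3 ▸ hw'.2)
  have hsub : A ∪ (N.image (fun w => (v, w)) ∪ N.image (fun w => (w, v))) ⊆
      (pr G).filter (fun e => e.1 ∈ insert v X ∧ e.2 ∈ insert v X) := by
    intro e he
    rw [mem_union, mem_union, mem_image, mem_image] at he
    rw [mem_filter, mem_pr]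
    rcases he with he | ⟨w, hw, rfl⟩ | ⟨w, hw, rfl⟩
    · rw [hA, mem_filter, mem_pr] at he
      exact ⟨he.1, mem_insert_of_mem he.2.1, mem_insert_of_mem he.2.2⟩
    · rw [hN, mem_filter, mem_nb] at hw
      exact ⟨hw.1, mem_insert_self _ _, mem_insert_of_mem hw.2⟩
    · rw [hN, mem_filter, mem_nb] at hw
      exact ⟨hw.1.symm, mem_insert_of_mem hw.2, mem_insert_self _ _⟩
  have h := card_le_card hsub
  rw [card_union_of_disjoint hd1, card_union_of_disjoint hd2, hB, hC] at h
  omega

theorem closure (G : SimpleGraph V) (T : Finset V) (B N : ℕ)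
    (hloc : ∀ X : Finset V, X.card ≤ N → ep G X ≤ B * X.card) (hT : 2 * T.card ≤ N) :
    ∃ T' : Finset V, T ⊆ T' ∧ T'.card ≤ N ∧
      ∀ v, v ∉ T' → ((nb G v).filter (fun w => w ∈ T')).card ≤ B := by
  classical
  set F : Finset (Finset V) := univ.filter (fun X => T ⊆ X ∧ X.card ≤ 2 * T.card ∧
    2 * (B + 1) * (X.card - T.card) ≤ ep G X) with hF
  have hTF : T ∈ F := by
    rw [hF, mem_filter]
    refine ⟨mem_univ _, Subset.refl _, by omega, ?_⟩
    simp
  obtain ⟨X, hX, hmax⟩ := exists_max_image F (fun X => X.card) ⟨T, hTF⟩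
  rw [hF, mem_filter] at hX
  obtain ⟨_, hTX, hX2, hX3⟩ := hX
  refine ⟨X, hTX, hX2.trans hT, ?_⟩
  intro v hv
  by_contra hcon
  push Not at hcon
  have hcT := card_le_card hTX
  have hpos : 0 < X.card := by
    have : 0 < ((nb G v).filter (fun w => w ∈ X)).card := by omega
    obtain ⟨w, hw⟩ := card_pos.1 this
    exact card_pos.2 ⟨w, (mem_filter.1 hw).2⟩
  by_cases hc : X.card + 1 ≤ 2 * T.card
  · have h1 : insert v X ∈ F := by
      rw [hF, mem_filter]
      refine ⟨mem_univ _, hTX.trans (subset_insert _ _), ?_, ?_⟩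
      · rw [card_insert_of_notMem hv]
        exact hc
      · rw [card_insert_of_notMem hv]
        have h2 := ep_insert G X v hv
        have h3 : 2 * (B + 1) * (X.card + 1 - T.card) =
            2 * (B + 1) * (X.card - T.card) + 2 * (B + 1) := by
          have : X.card + 1 - T.card = (X.card - T.card) + 1 := by omega
          rw [this]
          ring
        rw [h3]
        omega
    have h2 := hmax _ h1
    rw [card_insert_of_notMem hv] at h2
    omega
  · have h1 : X.card = 2 * T.card := by omega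
    have h2 := hloc X (hX2.trans hT)
    have h3 : X.card - T.card = T.card := by omega
    rw [h3] at hX3
    have h4 : 2 * (B + 1) * T.card = (B + 1) * X.card := by
      rw [h1]
      ring
    rw [h4] at hX3
    have h5 : (B + 1) * X.card ≤ B * X.card := hX3.trans h2
    have h6 := Nat.le_of_mul_le_mul_right h5 hpos
    omega

/-- the combination -/
theorem core (G : SimpleGraph V) (D B ℓ : ℕ) (T : Finset V)
    (ha : 34 * (2 * B) * (1 + Real.log D) ≤ D) (hdeg : ∀ v, dg G v ≤ D)
    (h1 : ∀ X : Finset V, X ⊆ T → ep G X ≤ 2 * B * X.card)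
    (h2 : ∀ v, v ∉ T → ((nb G v).filter (fun w => w ∈ T)).card ≤ B)
    (L : V → V → Finset ℕ) (hsym : ∀ x y, L x y = L y x)
    (hL : ∀ x y, G.Adj x y → D ≤ (L x y).card)
    (σ : V → Fin ℓ → Bool) (τ : ℕ → ℕ) (m : ℕ → ℕ)
    (hσ : ∀ v, v ∉ T → ∀ j ≤ ℓ, dgL G σ j v ≤ m j)
    (hτ : ∀ v, v ∉ T → ∀ w, G.Adj v w → ∀ j < ℓ, m j + 2 * B ≤ cl (L v w) τ j)
    (hτ' : ∀ v, v ∉ T → ∀ w, G.Adj v w → 2 * m ℓ + 2 * B ≤ cl (L v w) τ ℓ) : LC G L := by
  classical
  have hd : Dens (A_meetX G T) (2 * B) := by
    apply dens_meet G T (2 * B)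
    · intro X hX
      have := h1 X hX
      unfold ep at this
      exact_mod_cast this
    · intro v hv
      have := h2 v hv
      have h3 : (((nb G v).filter (fun w => w ∈ T)).card : ℝ) ≤ B := by exact_mod_cast this
      linarith
  obtain ⟨f₁, k1, k2, k3⟩ := main_edge D (2 * B) ha L hsym (pr (A_meetX G T)).card
    (A_meetX G T) rfl
    (fun v => (dg_mono (G := G) (H := A_meetX G T)
      (fun x y hxy => ((A_meetX_adj G T x y).1 hxy).1) v).trans (hdeg v)) hd
    (fun u v huv => hL u v huv.1)
  refine A_comb G T L f₁ k1 k2 k3 ?_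
  have key : ∀ v, v ∉ T → ∀ w, w ∉ T → G.Adj v w → ∀ j c, c + 2 * B ≤ cl (L v w) τ j →
      c ≤ ((L v w \ (((nb G v).filter (fun w => w ∈ T)).image (f₁ v) ∪
        ((nb G w).filter (fun w => w ∈ T)).image (f₁ w))).filter (fun c => τ c = j)).card := by
    intro v hv w hw hvw j c hc
    have e1 := le_card_sdiff (((nb G v).filter (fun w => w ∈ T)).image (f₁ v) ∪
      ((nb G w).filter (fun w => w ∈ T)).image (f₁ w)) ((L v w).filter (fun c => τ c = j))
    have e2 := card_union_le (((nb G v).filter (fun w => w ∈ T)).image (f₁ v))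
      (((nb G w).filter (fun w => w ∈ T)).image (f₁ w))
    have e3 := card_image_le (s := (nb G v).filter (fun w => w ∈ T)) (f := f₁ v)
    have e4 := card_image_le (s := (nb G w).filter (fun w => w ∈ T)) (f := f₁ w)
    have e5 := h2 v hv
    have e6 := h2 w hw
    have e7 : ((L v w).filter (fun c => τ c = j) \ (((nb G v).filter (fun w => w ∈ T)).image (f₁ v) ∪
        ((nb G w).filter (fun w => w ∈ T)).image (f₁ w))) =
        (L v w \ (((nb G v).filter (fun w => w ∈ T)).image (f₁ v) ∪
        ((nb G w).filter (fun w => w ∈ T)).image (f₁ w))).filter (fun c => τ c = j) := by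
      ext c
      simp only [mem_sdiff, mem_filter]
      tauto
    rw [e7] at e1
    unfold cl at hc
    omega
  apply levels (cutX G T) σ τ _ ?_ m
  · intro j hj v
    by_cases hv : v ∈ T
    · have : (nb (cutX G T) v).filter (fun w => At (σ v) (σ w) j) = ∅ := by
        rw [filter_eq_empty_iff]
        intro w hw
        rw [mem_nb, cutX_adj] at hw
        exact absurd hv hw.2.1
      rw [this, card_empty]
      exact Nat.zero_le _
    · refine le_trans ?_ (hσ v hv j hj)
      unfold dgL
      apply card_le_card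
      intro w hw
      rw [mem_filter, mem_nb, cutX_adj] at hw
      rw [mem_filter, mem_nb]
      exact ⟨hw.1.1, hw.2⟩
  · intro j hj v w hvw
    rw [cutX_adj] at hvw
    exact key v hvw.2.1 w hvw.2.2 hvw.1 j (m j) (hτ v hvw.2.1 w hvw.1 j hj)
  · intro v w hvw
    rw [cutX_adj] at hvw
    exact key v hvw.2.1 w hvw.2.2 hvw.1 ℓ (2 * m ℓ) (hτ' v hvw.2.1 w hvw.1)
  · intro x y
    rw [hsym x y, union_comm]

end

end Pool.Agent.K4H76.LR
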