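import Pool.Agent.K4H76.LR.Core

/-!
# Choice of the parameters
-/

set_option autoImplicit false
set_option linter.unusedSectionVars false

namespace Pool.Agent.K4H76.LR

open Finset Pool.Agent.H162R2.Sparse Pool.Agent.H162R2.AG Pool.Agent.H892.LEC

theorem sum_half (x : ℝ) (ℓ : ℕ) : ∑ i ∈ range ℓ, x / 2 ^ (i + 1) = x - x / 2 ^ ℓ := by
  induction ℓ with
  | zero => simp
  | succ ℓ ih =>
      rw [Finset.sum_range_succ, ih, pow_succ]
      field_simp
      ring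

theorem sum_threequarter (ℓ : ℕ) : ∑ i ∈ range ℓ, (3 / 4 : ℝ) ^ i = 4 - 4 * (3 / 4) ^ ℓ := by
  induction ℓ with
  | zero => simp
  | succ ℓ ih =>
      rw [Finset.sum_range_succ, ih, pow_succ]
      ring

theorem exists_ell (D Y : ℝ) (hY : 0 < Y) (hD : Y < D) :
    ∃ ℓ : ℕ, D / 2 ^ ℓ ≤ Y ∧ Y * 2 ^ ℓ < 2 * D := by
  classical
  have hex : ∃ ℓ : ℕ, D / 2 ^ ℓ ≤ Y := by
    obtain ⟨k, hk⟩ := pow_unbounded_of_one_lt (D / Y) (by norm_num : (1 : ℝ) < 2)
    refine ⟨k, ?_⟩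
    rw [div_le_iff₀ (by positivity)]
    rw [div_lt_iff₀ hY] at hk
    linarith
  refine ⟨Nat.find hex, Nat.find_spec hex, ?_⟩
  have h0 : Nat.find hex ≠ 0 := by
    intro h
    have := Nat.find_spec hex
    rw [h] at this
    simp at this
    linarith
  obtain ⟨k, hk⟩ := Nat.exists_eq_succ_of_ne_zero h0
  have h1 := Nat.find_min hex (m := k) (by omega)
  rw [not_le, lt_div_iff₀ (by positivity)] at h1
  rw [hk, Nat.succ_eq_add_one, pow_succ]
  linarith

theorem half_le (j : ℕ) : 1 / (2 : ℝ) ^ j ≤ ((3 / 4 : ℝ) ^ j) ^ 2 := by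
  rw [← pow_mul, mul_comm, pow_mul, ← one_div_pow]
  exact pow_le_pow_left₀ (by norm_num) (by norm_num) j

theorem dev_sq (η Λ D lg : ℝ) (h : Λ ^ 2 = D * lg) (hp : 0 ≤ D * lg) (j : ℕ) :
    η ^ 2 * (D * lg) / 2 ^ j ≤ (η * Λ * (3 / 4) ^ j) ^ 2 := by
  have h1 := half_le j
  rw [mul_pow, mul_pow, h, div_eq_mul_one_div]
  exact mul_le_mul_of_nonneg_left h1 (by positivity)

theorem dev_low (ε η Λ D lg : ℝ) (hε : 0 < ε) (hη : 0 < η) (hΛ : 0 < Λ) (hD : 0 < D)
    (hlg : 0 < lg) (h : Λ ^ 2 = D * lg) (h1 : ε * lg ≤ Λ) (ℓ : ℕ)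
    (h2 : ε / 8 * Λ * 2 ^ ℓ < 2 * D) (j : ℕ) (hj : j ≤ ℓ) :
    η * ε / 4 * lg ≤ η * Λ * (3 / 4) ^ j := by
  have h3 : (3 / 4 : ℝ) ^ ℓ ≤ (3 / 4) ^ j :=
    pow_le_pow_of_le_one (by norm_num) (by norm_num) hj
  have h4 : ε / 4 * lg ≤ Λ * (3 / 4) ^ ℓ := by
    rw [← pow_le_pow_iff_left₀ (by positivity) (by positivity) (by norm_num : 2 ≠ 0)]
    have h5 := half_le ℓ
    have h6 : ε * Λ / (16 * D) ≤ 1 / 2 ^ ℓ := by
      rw [div_le_div_iff₀ (by positivity) (by positivity)]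
      linarith
    calc (ε / 4 * lg) ^ 2 = (ε * lg) * (ε * lg) / 16 := by ring
      _ ≤ (ε * Λ) * lg / 16 := by
          have : (ε * lg) * (ε * lg) ≤ (ε * lg) * Λ := mul_le_mul_of_nonneg_left h1 (by positivity)
          linarith
      _ = Λ ^ 2 * (ε * Λ / (16 * D)) := by
          rw [h]
          field_simp
      _ ≤ Λ ^ 2 * ((3 / 4) ^ ℓ) ^ 2 := mul_le_mul_of_nonneg_left (h6.trans h5) (by positivity)
      _ = (Λ * (3 / 4) ^ ℓ) ^ 2 := by ring
  calc η * ε / 4 * lg = η * (ε / 4 * lg) := by ring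
    _ ≤ η * (Λ * (3 / 4) ^ ℓ) := mul_le_mul_of_nonneg_left h4 hη.le
    _ ≤ η * (Λ * (3 / 4) ^ j) := by gcongr
    _ = η * Λ * (3 / 4) ^ j := by ring

/-- the bound for the exponents -/
theorem exp_bound (a M γ lg : ℝ) (hM : 0 < M) (h : 4 * γ * lg * M ≤ a ^ 2) :
    Real.exp (-(a ^ 2) / (4 * M)) ≤ Real.exp (-(γ * lg)) := by
  apply Real.exp_le_exp.2
  rw [div_le_iff₀ (by positivity)]
  linarith

section
variable {V : Type} [Fintype V] [DecidableEq V]

theorem theoremM (G : SimpleGraph V) (ε : ℝ) (hε : 0 < ε) (hε1 : ε ≤ 1) (D d B N : ℕ)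
    (T0 : Finset V) (lg : ℝ) (hlg : 1 ≤ lg) (hlgB : 2 * (B : ℝ) ≤ ε ^ 2 / 128 * lg)
    (ha : 34 * (2 * B) * (1 + Real.log D) ≤ D) (hdeg : ∀ v, dg G v ≤ D)
    (hT0 : ∀ v, v ∉ T0 → dg G v ≤ d) (hdD : d + ε * Real.sqrt (D * lg) ≤ D)
    (hD0 : 0 < D)
    (hloc : ∀ X : Finset V, X.card ≤ N → ep G X ≤ B * X.card)
    (hN : 2 * ((T0.card : ℝ) + 32 / ε ^ 2 * Fintype.card V * D ^ 2 *
      Real.exp (-(ε ^ 2 / 8192 * lg))) ≤ N)
    (L : V → V → Finset ℕ) (hsym : ∀ x y, L x y = L y x)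
    (hL : ∀ x y, G.Adj x y → D ≤ (L x y).card) : LC G L := by
  classical
  have hDpos : (0 : ℝ) < D := by exact_mod_cast hD0
  have hD1 : (1 : ℝ) ≤ D := by exact_mod_cast hD0
  have hd0 : (0 : ℝ) ≤ d := Nat.cast_nonneg _
  have hlg0 : 0 < lg := by linarith
  obtain ⟨Λ, hΛ⟩ : ∃ Λ : ℝ, Λ = Real.sqrt (D * lg) := ⟨_, rfl⟩
  rw [← hΛ] at hdD
  have hΛ2 : Λ ^ 2 = D * lg := by rw [hΛ]; exact Real.sq_sqrt (by positivity)
  have hΛpos : 0 < Λ := by rw [hΛ]; exact Real.sqrt_pos.2 (by positivity)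
  have hεΛ : ε * Λ ≤ D := by linarith
  have hΛlg : ε * lg ≤ Λ := by
    have h1 : ε * Λ * Λ ≤ D * Λ := mul_le_mul_of_nonneg_right hεΛ hΛpos.le
    have h2 : ε * (D * lg) ≤ D * Λ := by
      rw [← hΛ2]
      linarith [h1, sq Λ]
    have h3 : D * (ε * lg) ≤ D * Λ := by linarith
    exact le_of_mul_le_mul_left h3 hDpos
  obtain ⟨η, hη⟩ : ∃ η : ℝ, η = ε / 32 := ⟨_, rfl⟩
  have hηpos : 0 < η := by rw [hη]; positivity
  obtain ⟨ℓ, hℓ1, hℓ2⟩ := exists_ell D (ε / 8 * Λ) (by positivity) (by nlinarith)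
  -- the deviations
  obtain ⟨a, ha'⟩ : ∃ a : ℕ → ℝ, a = fun j => η * Λ * (3 / 4) ^ j := ⟨_, rfl⟩
  have hapos : ∀ j, 0 < a j := fun j => by rw [ha']; positivity
  have hA2 : ∀ j, η ^ 2 * (D * lg) / 2 ^ j ≤ a j ^ 2 := by
    intro j
    rw [ha']
    exact dev_sq η Λ D lg hΛ2 (by positivity) j
  have hA1 : ∀ j ≤ ℓ, η * ε / 4 * lg ≤ a j := by
    intro j hj
    rw [ha']
    exact dev_low ε η Λ D lg hε hηpos hΛpos hDpos hlg0 hΛ2 hΛlg ℓ hℓ2 j hj
  obtain ⟨γ, hγ⟩ : ∃ γ : ℝ, γ = ε ^ 2 / 8192 := ⟨_, rfl⟩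
  rw [← hγ] at hN
  have hγpos : 0 < γ := by rw [hγ]; positivity
  have hγ1 : γ = η ^ 2 / 8 := by rw [hγ, hη]; ring
  have hγ2 : 32 * γ ≤ η * ε / 4 := by
    rw [hγ, hη]
    nlinarith [sq_nonneg ε]
  -- bounds for the exponents
  have hE : ∀ j ≤ ℓ, ∀ M : ℝ, 0 < M → M ≤ D / 2 ^ j + 4 * a j →
      Real.exp (-(a j ^ 2) / (4 * M)) ≤ Real.exp (-(γ * lg)) := by
    intro j hj M hM0 hM
    apply exp_bound _ _ _ _ hM0
    have h1 := hA2 j
    have h2 := hA1 j hj
    have h3 : 4 * γ * lg * (D / 2 ^ j) ≤ a j ^ 2 / 2 := by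
      have h4 : 4 * γ * lg * (D / 2 ^ j) = (η ^ 2 * (D * lg) / 2 ^ j) / 2 := by
        rw [hγ1]
        ring
      rw [h4]
      linarith
    have h5 : 4 * γ * lg * (4 * a j) ≤ a j ^ 2 / 2 := by
      have h6 : 32 * γ * lg ≤ a j :=
        le_trans (mul_le_mul_of_nonneg_right hγ2 hlg0.le) h2
      have h7 := mul_le_mul_of_nonneg_right h6 (hapos j).le
      nlinarith [h7]
    calc 4 * γ * lg * M ≤ 4 * γ * lg * (D / 2 ^ j + 4 * a j) :=
          mul_le_mul_of_nonneg_left hM (by positivity)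
      _ = 4 * γ * lg * (D / 2 ^ j) + 4 * γ * lg * (4 * a j) := by ring
      _ ≤ a j ^ 2 := by linarith
  have hdD' : (d : ℝ) ≤ D := by nlinarith
  have hdj : ∀ j : ℕ, (d : ℝ) / 2 ^ j ≤ D / 2 ^ j := fun j =>
    div_le_div_of_nonneg_right hdD' (by positivity)
  have hdj1 : ∀ j : ℕ, (d : ℝ) / 2 ^ (j + 1) ≤ D / 2 ^ j := by
    intro j
    refine le_trans ?_ (hdj j)
    rw [pow_succ]
    apply div_le_div_of_nonneg_left hd0 (by positivity)
    have : (0 : ℝ) < 2 ^ j := by positivity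
    linarith
  -- strings
  obtain ⟨σ, T1, hT1, hσ⟩ := exists_sigma G ℓ d
    (fun j => (if j < ℓ then (d : ℝ) / 2 ^ (j + 1) else d / 2 ^ ℓ) + a j) a
    (Real.exp (-(γ * lg)))
    (fun j _ => by
      have := hapos j
      have h1 : (0 : ℝ) ≤ d / 2 ^ (j + 1) := by positivity
      have h2 : (0 : ℝ) ≤ d / 2 ^ ℓ := by positivity
      split_ifs <;> linarith)
    (fun j _ => (hapos j).le)
    (fun j _ => by
      have := hapos j
      have h1 : (0 : ℝ) ≤ d / 2 ^ (j + 1) := by positivity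
      have h2 : (0 : ℝ) ≤ d / 2 ^ ℓ := by positivity
      split_ifs <;> linarith)
    (fun j hj => by
      have := hapos j
      simp only [hj, if_true]
      linarith)
    (by
      have := hapos ℓ
      simp only [lt_irrefl, if_false]
      linarith)
    (fun j hj => by
      apply hE j hj
      · have := hapos j
        have h1 : (0 : ℝ) ≤ d / 2 ^ (j + 1) := by positivity
        have h2 : (0 : ℝ) ≤ d / 2 ^ ℓ := by positivity
        split_ifs <;> linarith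
      · have := hapos j
        have h1 := hdj1 j
        split_ifs with h
        · linarith
        · have h3 : j = ℓ := by omega
          rw [h3]
          have h4 := hdj ℓ
          have h5 := hapos ℓ
          linarith)
  -- levels of the colours
  obtain ⟨S, hS⟩ : ∃ S : ℝ, S = ∑ i ∈ range ℓ, ((d : ℝ) / 2 ^ (i + 1) + 4 * a i) := ⟨_, rfl⟩
  have hS1 : S = d - d / 2 ^ ℓ + 4 * (η * Λ * (4 - 4 * (3 / 4) ^ ℓ)) := by
    rw [hS, Finset.sum_add_distrib, sum_half, ← Finset.mul_sum, ← sum_threequarter, ha',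
      ← Finset.mul_sum]
  have hSlow : 0 ≤ S := by
    rw [hS]
    apply Finset.sum_nonneg
    intro i _
    have := hapos i
    positivity
  have hbig : 2 * ((d : ℝ) / 2 ^ ℓ + 2 * a ℓ) + 2 * B + η * Λ ≤ D - S := by
    have h1 : a ℓ = η * Λ * (3 / 4) ^ ℓ := by rw [ha']
    have h2 : (0 : ℝ) < (3 / 4) ^ ℓ := by positivity
    have h3 : (d : ℝ) / 2 ^ ℓ ≤ ε / 8 * Λ := (hdj ℓ).trans hℓ1
    have h4 : 2 * (B : ℝ) ≤ ε / 128 * Λ := by
      refine hlgB.trans ?_
      calc ε ^ 2 / 128 * lg = ε / 128 * (ε * lg) := by ring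
        _ ≤ ε / 128 * Λ := mul_le_mul_of_nonneg_left hΛlg (by positivity)
    have h5 : η * Λ = ε / 32 * Λ := by rw [hη]
    have h6 : 0 < ε * Λ := by positivity
    have h7 : 0 < η * Λ * (3 / 4) ^ ℓ := by positivity
    rw [hS1, h1]
    nlinarith [h3, h4, h5, h6, h7, hdD]
  obtain ⟨τ, T2, hT2, hτ⟩ := exists_tau G ℓ D D hdeg (fun x y => tr D (L x y))
    (fun x y hxy => tr_card D _ (hL x y hxy))
    (fun j => if j < ℓ then ((d : ℝ) / 2 ^ (j + 1) + 4 * a j) / D else (D - S) / D)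
    (fun j => if j < ℓ then (d : ℝ) / 2 ^ (j + 1) + 4 * a j else D)
    (fun j => if j < ℓ then a j else η * Λ)
    (fun j => if j < ℓ then (d : ℝ) / 2 ^ (j + 1) + 3 * a j else D - S - η * Λ)
    (Real.exp (-(γ * lg)))
    (fun j _ => by
      have := hapos j
      have h1 := hapos ℓ
      split_ifs
      · positivity
      · apply div_nonneg _ hDpos.le
        have : (0 : ℝ) ≤ d / 2 ^ ℓ := by positivity
        have h3 : 0 < η * Λ := by positivity
        have h4 : (0 : ℝ) ≤ B := Nat.cast_nonneg _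
        linarith)
    (by
      rw [Finset.sum_range_succ]
      simp only [lt_irrefl, if_false]
      have h1 : ∑ x ∈ range ℓ, (if x < ℓ then ((d : ℝ) / 2 ^ (x + 1) + 4 * a x) / D
          else (D - S) / D) = S / D := by
        rw [hS, Finset.sum_div]
        apply Finset.sum_congr rfl
        intro x hx
        rw [if_pos (mem_range.1 hx)]
      rw [h1, ← add_div]
      rw [div_eq_one_iff_eq hDpos.ne']
      ring)
    (fun j _ => by
      have := hapos j
      split_ifs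
      · positivity
      · exact hDpos)
    (fun j _ => by
      have := hapos j
      split_ifs
      · positivity
      · positivity)
    (fun j _ => by
      have := hapos j
      have h1 : (0 : ℝ) ≤ d / 2 ^ (j + 1) := by positivity
      split_ifs
      · linarith
      · rw [hη]
        nlinarith)
    (fun j _ => by
      split_ifs
      · rw [div_mul_cancel₀ _ hDpos.ne']
      · rw [div_mul_cancel₀ _ hDpos.ne']
        linarith)
    (fun j _ => by
      split_ifs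
      · rw [div_mul_cancel₀ _ hDpos.ne']
        linarith
      · rw [div_mul_cancel₀ _ hDpos.ne']
        linarith)
    (fun j hj => by
      split_ifs
      · apply hE j hj
        · have := hapos j
          positivity
        · have h1 := hdj1 j
          linarith
      · apply exp_bound _ _ _ _ hDpos
        rw [mul_pow, hΛ2, hγ1]
        have : 0 < η ^ 2 * (D * lg) := by positivity
        nlinarith)
  -- the exceptional set
  have hcard : ((T0 ∪ (T1 ∪ T2)).card : ℝ) ≤ (T0.card : ℝ) + 32 / ε ^ 2 * Fintype.card V * D ^ 2 *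
      Real.exp (-(γ * lg)) := by
    have h1 := card_union_le T0 (T1 ∪ T2)
    have h2 := card_union_le T1 T2
    have h3 : ((T0 ∪ (T1 ∪ T2)).card : ℝ) ≤ T0.card + (T1.card + T2.card) := by
      exact_mod_cast h1.trans (Nat.add_le_add_left h2 _)
    have h4 : ((ℓ : ℝ) + 1) ≤ 16 / ε ^ 2 * D := by
      have h5 : (ℓ : ℝ) + 1 ≤ 2 ^ ℓ := by
        have := Nat.lt_two_pow_self (n := ℓ)
        exact_mod_cast this
      have h6 : (2 : ℝ) ^ ℓ ≤ 16 / ε ^ 2 * D := by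
        rw [div_mul_eq_mul_div, le_div_iff₀ (by positivity)]
        have h7 : ε ≤ Λ := le_trans (by nlinarith) hΛlg
        have h8 : ε / 8 * ε * 2 ^ ℓ ≤ ε / 8 * Λ * 2 ^ ℓ := by gcongr
        nlinarith
      linarith
    have h9 : (T1.card : ℝ) + T2.card ≤ Fintype.card V * ((ℓ + 1) * Real.exp (-(γ * lg))) * (1 + D) := by
      linarith
    have h10 : (Fintype.card V : ℝ) * ((ℓ + 1) * Real.exp (-(γ * lg))) * (1 + D) ≤
        Fintype.card V * ((16 / ε ^ 2 * D) * Real.exp (-(γ * lg))) * (2 * D) := by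
      gcongr
      linarith
    have h11 : (Fintype.card V : ℝ) * ((16 / ε ^ 2 * D) * Real.exp (-(γ * lg))) * (2 * D) =
        32 / ε ^ 2 * Fintype.card V * D ^ 2 * Real.exp (-(γ * lg)) := by ring
    linarith
  obtain ⟨T, hT1', hT2', hT3⟩ := closure G (T0 ∪ (T1 ∪ T2)) B N hloc (by
    have h1 : 2 * ((T0 ∪ (T1 ∪ T2)).card : ℝ) ≤ N := by linarith
    exact_mod_cast h1)
  have hout : ∀ v, v ∉ T → v ∉ T0 ∧ v ∉ T1 ∧ v ∉ T2 := by
    intro v hv
    refine ⟨fun h => hv (hT1' (mem_union_left _ h)), fun h => hv (hT1' (mem_union_right _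
      (mem_union_left _ h))), fun h => hv (hT1' (mem_union_right _ (mem_union_right _ h)))⟩
  have hfin : LC G (fun x y => tr D (L x y)) := by
    refine core G D B ℓ T ha hdeg ?_ hT3 _ ?_ ?_ σ τ
      (fun j => ⌊(if j < ℓ then (d : ℝ) / 2 ^ (j + 1) else d / 2 ^ ℓ) + 2 * a j⌋₊) ?_ ?_ ?_
    · intro X hX
      have h1 := hloc X ((card_le_card hX).trans hT2')
      refine h1.trans ?_
      gcongr
      omega
    · intro x y
      simp only [hsym x y]
    · intro x y hxy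
      rw [tr_card D _ (hL x y hxy)]
    · intro v hv j hj
      obtain ⟨k0, k1, k2⟩ := hout v hv
      have h1 := hσ v k1 (hT0 v k0) j hj
      apply Nat.le_floor
      linarith
    · intro v hv w hvw j hj
      obtain ⟨k0, k1, k2⟩ := hout v hv
      have h1 := hτ v k2 w hvw j hj.le
      simp only [hj, if_true] at h1 ⊢
      have h2 := Nat.floor_le (a := (d : ℝ) / 2 ^ (j + 1) + 2 * a j) (by
        have := hapos j
        positivity)
      have h3 := hA1 j hj.le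
      have h4 : 2 * (B : ℝ) ≤ a j := by
        refine hlgB.trans (le_trans (le_of_eq ?_) h3)
        rw [hη]
        ring
      have h5 : ((⌊(d : ℝ) / 2 ^ (j + 1) + 2 * a j⌋₊ : ℝ)) + 2 * B ≤ cl (tr D (L v w)) τ j := by
        linarith
      exact_mod_cast h5
    · intro v hv w hvw
      obtain ⟨k0, k1, k2⟩ := hout v hv
      have h1 := hτ v k2 w hvw ℓ le_rfl
      simp only [lt_irrefl, if_false] at h1 ⊢
      have h2 := Nat.floor_le (a := (d : ℝ) / 2 ^ ℓ + 2 * a ℓ) (by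
        have := hapos ℓ
        positivity)
      have h5 : 2 * ((⌊(d : ℝ) / 2 ^ ℓ + 2 * a ℓ⌋₊ : ℝ)) + 2 * B ≤ cl (tr D (L v w)) τ ℓ := by
        linarith
      exact_mod_cast h5
  obtain ⟨f, f1, f2, f3⟩ := hfin
  exact ⟨f, f1, fun x y hxy => tr_sub D _ (f2 x y hxy), f3⟩

end

end Pool.Agent.K4H76.LR
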