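import Pool.Agent.K4H76.LR.Num

/-!
# Sparse random graphs whose average degree is smaller than `c log n`
-/

set_option autoImplicit false
set_option linter.unusedSectionVars false

namespace Pool.Agent.K4H76.LR

open Finset Pool.Agent.H162R2.Sparse

theorem exp_neg_le_inv (y : ℝ) (hy : 0 < y) : Real.exp (-y) ≤ 1 / y := by
  rw [Real.exp_neg, ← one_div]
  apply one_div_le_one_div_of_le hy
  have := Real.add_one_le_exp y
  linarith

theorem pow64 (d : ℕ) (x : ℝ) (hd : (d : ℝ) ≤ x / 45) : (64 : ℝ) ^ d ≤ Real.exp (x / 10) := by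
  have h1 : (64 : ℝ) ≤ Real.exp (9 / 2) := by
    have h2 : Real.exp (9 / 2) = (Real.exp 1) ^ 4 * Real.exp (1 / 2) := by
      rw [← Real.exp_nat_mul, ← Real.exp_add]
      norm_num
    have h3 := Real.exp_one_gt_d9
    have h4 : (2.7182818283 : ℝ) ^ 4 ≤ (Real.exp 1) ^ 4 := pow_le_pow_left₀ (by norm_num) h3.le 4
    have h5 := Real.add_one_le_exp (1 / 2 : ℝ)
    have h6 : (54 : ℝ) ≤ (Real.exp 1) ^ 4 := by
      refine le_trans ?_ h4
      norm_num
    rw [h2]
    nlinarith
  calc (64 : ℝ) ^ d ≤ (Real.exp (9 / 2)) ^ d := pow_le_pow_left₀ (by norm_num) h1 d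
    _ = Real.exp (d * (9 / 2)) := by rw [← Real.exp_nat_mul]
    _ ≤ Real.exp (x / 10) := by
        apply Real.exp_le_exp.2
        linarith

theorem regime2 (η : ℝ) (hη : 0 < η) : ∃ x₀ : ℝ, ∀ n : ℕ,
    x₀ ≤ Real.log n → ∀ p : ℝ, 0 ≤ p → p ≤ 1 →
    Real.exp (-(1 / 20000 * Real.log n)) ≤ n * p → n * p ≤ Real.log n / 100000 →
    1 - η ≤ Pr (wB (Ed n) p) (fun ω => Good (Gr ω)) := by
  obtain ⟨J, hJ⟩ : ∃ J : ℕ, J = 1250 := ⟨_, rfl⟩
  obtain ⟨x1, hx1⟩ := ev_exp (1 / 16) (by norm_num) (J.factorial + 1) 0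
  obtain ⟨x2, hx2⟩ := ev_exp (1 / 20000) (by norm_num) 33 1
  obtain ⟨x3, hx3⟩ := ev_exp (1 / 32) (by norm_num) (Real.exp 3) 2
  obtain ⟨x4, hx4⟩ := ev_exp (1 / 32) (by norm_num) (max 2 (16 / η)) 0
  obtain ⟨x5, hx5⟩ := ev_exp 1 (by norm_num) 36 1
  refine ⟨max 1 (max x1 (max x2 (max x3 (max x4 x5)))), ?_⟩
  intro n hn p h0 h1 hl1 hl2
  have hw := wB_wt (ι := Ed n) p h0 h1
  obtain ⟨x, hx⟩ : ∃ x : ℝ, x = Real.log n := ⟨_, rfl⟩
  rw [← hx] at hn hl1 hl2
  simp only [max_le_iff] at hn
  obtain ⟨k0, k1, k2, k3, k4, k5⟩ := hn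
  have g1 := hx1 x k1
  have g2 := hx2 x k2
  have g3 := hx3 x k3
  have g4 := hx4 x k4
  have g5 := hx5 x k5
  rw [pow_zero, mul_one] at g1 g4
  rw [pow_one] at g2 g5
  rw [one_mul] at g5
  have hx0 : 0 < x := by linarith
  have hn0 : 0 < n := by
    rcases Nat.eq_zero_or_pos n with h | h
    · rw [h] at hx
      simp at hx
      linarith
    · exact h
  have hn0' : (0 : ℝ) < n := by exact_mod_cast hn0
  have hnx : (n : ℝ) = Real.exp x := by rw [hx, Real.exp_log hn0']
  obtain ⟨l, hl⟩ : ∃ l : ℝ, l = n * p := ⟨_, rfl⟩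
  rw [← hl] at hl1 hl2
  have hlpos : 0 < l := lt_of_lt_of_le (Real.exp_pos _) hl1
  -- the threshold
  obtain ⟨d, d1, d2, d3, d4⟩ := exists_d J x l (1 / 20000) hx0 (by norm_num)
    (by rw [hJ]; norm_num) (by
      have : x / 16 = 1 / 16 * x := by ring
      rw [this]
      linarith) hl1 hl2
  have g4a : (2 : ℝ) ≤ Real.exp (1 / 32 * x) := (le_max_left _ _).trans g4
  have g4b : 16 / η ≤ Real.exp (1 / 32 * x) := (le_max_right _ _).trans g4
  have hexp : ∀ a b : ℝ, a ≤ b → Real.exp a ≤ Real.exp b := fun a b h => Real.exp_le_exp.2 h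
  -- number of vertices
  obtain ⟨m, hm⟩ : ∃ m : ℕ, m = n / 2 := ⟨_, rfl⟩
  have hmn : m ≤ n := by omega
  have hm1 : (m : ℝ) ≤ n / 2 := by
    rw [hm]
    exact Nat.cast_div_le
  have hm2 : (n : ℝ) / 3 ≤ m := by
    have h2 : n ≤ 2 * m + 1 := by omega
    have h3 : (n : ℝ) ≤ 2 * m + 1 := by exact_mod_cast h2
    have h4 : (36 : ℝ) ≤ n := by rw [hnx]; linarith
    linarith
  have hk : ((2 * d + 8 : ℕ) : ℝ) ≤ n / 4 := by
    push_cast
    rw [hnx]
    linarith
  -- maximum degree
  have hX := choose_low n m (2 * d + 8) p (n / 4) h0 h1 hmn (by positivity) (by linarith)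
  have hp2 : p ≤ 1 / 2 := by
    by_contra hcon
    push Not at hcon
    have h2 : (n : ℝ) * (1 / 2) < n * p := mul_lt_mul_of_pos_left hcon hn0'
    rw [← hl] at h2
    have h4 : 36 * x ≤ n := by rw [hnx]; exact g5
    linarith
  have hXlow : Real.exp (-(x / 2)) ≤ (n / 4 * p) ^ (2 * d + 8) / (2 * d + 8).factorial * (1 - p) ^ n := by
    have e1 := fact_bound l hlpos.le d
    have e2 : (n : ℝ) / 4 * p = l / 4 := by rw [hl]; ring
    rw [e2]
    have e3 := one_sub_pow p h0 hp2 n
    rw [← hl] at e3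
    have e4 : Real.exp (-(1 / 10000 * x)) ≤ l / (4 * (2 * d + 8)) := by
      rw [le_div_iff₀ (by positivity)]
      have e5 : 4 * (2 * (d : ℝ) + 8) ≤ Real.exp (1 / 20000 * x) := by
        refine le_trans ?_ g2
        linarith
      calc Real.exp (-(1 / 10000 * x)) * (4 * (2 * d + 8)) ≤
            Real.exp (-(1 / 10000 * x)) * Real.exp (1 / 20000 * x) := by gcongr
        _ = Real.exp (-(1 / 20000 * x)) := by
            rw [← Real.exp_add]
            congr 1
            ring
        _ ≤ l := hl1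
    have e6 : Real.exp (-(8 / 10000 * x)) ≤ (l / (4 * (2 * d + 8))) ^ 8 := by
      refine le_trans (le_of_eq ?_) (pow_le_pow_left₀ (Real.exp_pos _).le e4 8)
      rw [← Real.exp_nat_mul]
      congr 1
      push_cast
      ring
    have e7 : Real.exp (-(x / 4)) ≤ (l ^ d / d.factorial) ^ 2 := by
      refine le_trans (le_of_eq ?_) (pow_le_pow_left₀ (Real.exp_pos _).le d4.le 2)
      rw [← Real.exp_nat_mul]
      congr 1
      push_cast
      ring
    have e8 : Real.exp (-(x / 4 + x / 10)) ≤ (l ^ d / d.factorial) ^ 2 / 64 ^ d := by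
      rw [le_div_iff₀ (by positivity)]
      calc Real.exp (-(x / 4 + x / 10)) * 64 ^ d ≤
            Real.exp (-(x / 4 + x / 10)) * Real.exp (x / 10) := by
            gcongr
            exact pow64 d x d2
        _ = Real.exp (-(x / 4)) := by
            rw [← Real.exp_add]
            congr 1
            ring
        _ ≤ _ := e7
    have e9 : Real.exp (-(8 / 10000 * x)) * Real.exp (-(x / 4 + x / 10)) ≤
        (l / 4) ^ (2 * d + 8) / (2 * d + 8).factorial := by
      refine le_trans ?_ e1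
      gcongr
    have e10 : Real.exp (-(x / 100)) ≤ (1 - p) ^ n := by
      refine le_trans ?_ e3
      apply hexp
      linarith
    calc Real.exp (-(x / 2)) ≤ (Real.exp (-(8 / 10000 * x)) * Real.exp (-(x / 4 + x / 10))) *
          Real.exp (-(x / 100)) := by
          rw [← Real.exp_add, ← Real.exp_add]
          apply hexp
          linarith
      _ ≤ _ := by gcongr
  have A1 := max_deg n m (2 * d + 8) p (Real.exp (-(x / 2))) h0 h1 hmn (hXlow.trans hX)
  have A1' : Real.exp (-(m * Real.exp (-(x / 2)))) ≤ η / 4 := by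
    have h2 : Real.exp (x / 2) / 3 ≤ m * Real.exp (-(x / 2)) := by
      calc Real.exp (x / 2) / 3 = (n / 3) * Real.exp (-(x / 2)) := by
            rw [hnx, div_mul_eq_mul_div, ← Real.exp_add]
            congr 2
            ring
        _ ≤ m * Real.exp (-(x / 2)) := by gcongr
    have h3 : 4 * 12 / η / 3 ≤ Real.exp (x / 2) / 3 := by
      have h4 : Real.exp (1 / 32 * x) * Real.exp (1 / 32 * x) ≤ Real.exp (x / 2) := by
        rw [← Real.exp_add]
        apply hexp
        linarith
      have h5 : 2 * 2 * (16 / η) ≤ Real.exp (x / 2) := by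
        have h6 : 2 * (16 / η) ≤ Real.exp (1 / 32 * x) * Real.exp (1 / 32 * x) := by gcongr
        have h7 : Real.exp (1 / 32 * x) * (Real.exp (1 / 32 * x) * Real.exp (1 / 32 * x)) ≤
            Real.exp (x / 2) := by
          rw [← Real.exp_add, ← Real.exp_add]
          apply hexp
          linarith
        refine le_trans ?_ h7
        calc 2 * 2 * (16 / η) = 2 * (2 * (16 / η)) := by ring
          _ ≤ _ := by gcongr
      have h8 : 4 * 12 / η ≤ 2 * 2 * (16 / η) := by
        have : 0 < 1 / η := by positivity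
        calc 4 * 12 / η = 48 * (1 / η) := by ring
          _ ≤ 64 * (1 / η) := by linarith
          _ = _ := by ring
      linarith
    have h9 : 0 < Real.exp (x / 2) / 3 := by positivity
    refine (exp_neg_le_inv _ (lt_of_lt_of_le h9 h2)).trans ?_
    have h10 : 4 * 12 / η / 3 ≤ m * Real.exp (-(x / 2)) := h3.trans h2
    rw [div_le_iff₀ (lt_of_lt_of_le h9 h2)]
    calc (1 : ℝ) ≤ η / 4 * (4 * 12 / η / 3) := by
          field_simp
          norm_num
      _ ≤ η / 4 * (m * Real.exp (-(x / 2))) := by gcongr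
  -- vertices of large degree
  have A2 := few_large n p h0 h1 ((d + 1 : ℕ) : ℝ) (Real.exp (-(x / 8))) (Real.exp (15 / 16 * x) / 4)
    (by positivity) (by
      intro v
      refine le_trans ?_ d3
      have h2 := deg_upper' n p h0 h1 (d + 1) v
      rw [← hl] at h2
      refine le_trans (le_of_eq ?_) h2
      congr 1
      funext ω
      rw [Nat.cast_le])
  have A2' : (n : ℝ) * Real.exp (-(x / 8)) / (Real.exp (15 / 16 * x) / 4) ≤ η / 4 := by
    have h2 : (n : ℝ) * Real.exp (-(x / 8)) / (Real.exp (15 / 16 * x) / 4) =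
        4 * Real.exp (-(1 / 16 * x)) := by
      rw [div_eq_iff (by positivity), hnx, ← Real.exp_add]
      rw [show (4 : ℝ) * Real.exp (-(1 / 16 * x)) * (Real.exp (15 / 16 * x) / 4) =
        Real.exp (-(1 / 16 * x)) * Real.exp (15 / 16 * x) by ring, ← Real.exp_add]
      congr 1
      ring
    rw [h2]
    have h3 : 16 / η ≤ Real.exp (1 / 16 * x) := g4b.trans (hexp _ _ (by linarith))
    rw [Real.exp_neg]
    have h4 : 0 < Real.exp (1 / 16 * x) := Real.exp_pos _
    rw [← div_eq_mul_inv, div_le_iff₀ h4]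
    calc (4 : ℝ) = η / 4 * (16 / η) := by
          field_simp
          norm_num
      _ ≤ η / 4 * Real.exp (1 / 16 * x) := by gcongr
  -- local sparsity
  obtain ⟨N, hN⟩ : ∃ N : ℕ, N = ⌊Real.exp (15 / 16 * x)⌋₊ := ⟨_, rfl⟩
  have hN1 : (N : ℝ) ≤ Real.exp (15 / 16 * x) := by
    rw [hN]
    exact Nat.floor_le (Real.exp_pos _).le
  have hN2 : Real.exp (15 / 16 * x) / 2 ≤ N := by
    have h2 := Nat.lt_floor_add_one (Real.exp (15 / 16 * x))
    rw [← hN] at h2
    have h3 : 2 ≤ Real.exp (15 / 16 * x) := g4a.trans (hexp _ _ (by linarith))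
    linarith
  have A3 := local_sparse n 2 N (by norm_num) p (Real.exp (-(1 / 32 * x))) h0 h1
    (Real.exp_pos _).le (by
      rw [Real.exp_neg, ← one_div]
      exact one_div_le_one_div_of_le (by norm_num) g4a) (by
      intro s hs1 hs2
      have hs0 : (0 : ℝ) < s := by exact_mod_cast hs1
      have hs3 : (s : ℝ) ≤ Real.exp (15 / 16 * x) := le_trans (by exact_mod_cast hs2) hN1
      have he : Real.exp 3 = Real.exp 1 * Real.exp 1 * Real.exp 1 := by
        rw [← Real.exp_add, ← Real.exp_add]; norm_num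
      have h2 : Real.exp 1 * n / s * (Real.exp 1 * s * p / (2 * (2 : ℕ))) ^ 2 =
          Real.exp 3 * l ^ 2 / 16 * s / n := by
        rw [he, hl]
        push_cast
        field_simp
        ring
      rw [h2]
      have h3 : l ^ 2 ≤ x ^ 2 := pow_le_pow_left₀ hlpos.le (by linarith) 2
      rw [div_le_iff₀ hn0']
      calc Real.exp 3 * l ^ 2 / 16 * s ≤ Real.exp 3 * x ^ 2 * Real.exp (15 / 16 * x) := by
            have : Real.exp 3 * l ^ 2 / 16 ≤ Real.exp 3 * x ^ 2 := by
              have h4 : 0 ≤ Real.exp 3 * l ^ 2 := by positivity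
              have h5 : Real.exp 3 * l ^ 2 ≤ Real.exp 3 * x ^ 2 := by gcongr
              linarith
            gcongr
        _ ≤ Real.exp (1 / 32 * x) * Real.exp (15 / 16 * x) := by gcongr
        _ = Real.exp (-(1 / 32 * x)) * n := by
            rw [hnx, ← Real.exp_add, ← Real.exp_add]
            congr 1
            ring)
  have A3' : 2 * Real.exp (-(1 / 32 * x)) ≤ η / 4 := by
    rw [Real.exp_neg, ← div_eq_mul_inv, div_le_iff₀ (Real.exp_pos _)]
    calc (2 : ℝ) ≤ η / 4 * (16 / η) := by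
          field_simp
          norm_num
      _ ≤ η / 4 * Real.exp (1 / 32 * x) := by gcongr
  -- the conclusion
  have hfin : Pr (wB (Ed n) p) (fun ω => ¬ Good (Gr ω)) ≤ η := by
    have h2 : Pr (wB (Ed n) p) (fun ω => ¬ Good (Gr ω)) ≤ Pr (wB (Ed n) p) (fun ω =>
        (∀ v : Fin n, dg (Gr ω) v < 2 * d + 8) ∨ ((Real.exp (15 / 16 * x) / 4 ≤
          ((univ.filter (fun v : Fin n => ((d + 1 : ℕ) : ℝ) ≤ dg (Gr ω) v)).card : ℝ)) ∨
        ∃ S : Finset (Fin n), 1 ≤ S.card ∧ S.card ≤ N ∧ 2 * S.card ≤ cn (ins S) ω)) := by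
      apply Pr_mono hw
      intro ω hω
      by_contra hcon
      push Not at hcon
      obtain ⟨⟨v, hv⟩, c2, c3⟩ := hcon
      apply hω
      intro D hD _ L hsym hL
      have hkD : 2 * d + 8 ≤ D := hv.trans (hD v)
      refine simple (Gr ω) D d 4 N
        (univ.filter (fun v : Fin n => ((d + 1 : ℕ) : ℝ) ≤ dg (Gr ω) v))
        (main_cond D (by omega)) hD ?_ (by omega) ?_ ?_ L hsym hL
      · intro v hv
        rw [mem_filter, Nat.cast_le] at hv
        by_contra h
        exact hv ⟨mem_univ _, by omega⟩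
      · intro X hX
        rcases Nat.eq_zero_or_pos X.card with h | h
        · have h4 : ep (Gr ω) X = 0 := by
            rw [card_eq_zero] at h
            rw [h]
            unfold ep
            rw [card_eq_zero, filter_eq_empty_iff]
            intro e _ he
            exact absurd he.1 (notMem_empty _)
          omega
        · have h4 := c3 X h hX
          have h5 := ep_le X ω
          omega
      · have h4 : 2 * ((univ.filter (fun v : Fin n => ((d + 1 : ℕ) : ℝ) ≤ dg (Gr ω) v)).card : ℝ) ≤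
            N := by linarith
        exact_mod_cast h4
    refine h2.trans ((Pr_or hw _ _).trans ?_)
    have h3 := Pr_or hw (fun ω => (Real.exp (15 / 16 * x) / 4 ≤
          ((univ.filter (fun v : Fin n => ((d + 1 : ℕ) : ℝ) ≤ dg (Gr ω) v)).card : ℝ)))
        (fun ω => ∃ S : Finset (Fin n), 1 ≤ S.card ∧ S.card ≤ N ∧ 2 * S.card ≤ cn (ins S) ω)
    linarith
  rw [Pr_not hw] at hfin
  linarith

end Pool.Agent.K4H76.LR
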