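import Pool.Agent.K4H76.LR.Transfer
import Pool.Agent.K4H76.LR.Gnp2
import Pool.Agent.K4H76.LR.Simple

/-!
# Very sparse random graphs are forests
-/

set_option autoImplicit false
set_option linter.unusedSectionVars false

namespace Pool.Agent.K4H76.LR

open Finset Pool.Agent.H162R2.Sparse

theorem regime3 (δ : ℝ) (hδ : 0 < δ) (η : ℝ) (hη : 0 < η) : ∃ x₀ : ℝ, ∀ n : ℕ,
    x₀ ≤ Real.log n → ∀ p : ℝ, 0 ≤ p → p ≤ 1 → n * p ≤ Real.exp (-(δ * Real.log n)) →
    1 - η ≤ Pr (wB (Ed n) p) (fun ω => Good (Gr ω)) := by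
  obtain ⟨x₀, hx₀⟩ := ev_exp δ hδ (max (Real.exp 2) (Real.exp 2 / η)) 0
  refine ⟨x₀, ?_⟩
  intro n hn p h0 h1 hnp
  have hw := wB_wt (ι := Ed n) p h0 h1
  set x := Real.log n with hx
  have h2 := hx₀ x hn
  rw [pow_zero, mul_one] at h2
  have h3 : Real.exp 2 ≤ Real.exp (δ * x) := (le_max_left _ _).trans h2
  have h4 : Real.exp 2 / η ≤ Real.exp (δ * x) := (le_max_right _ _).trans h2
  set r : ℝ := Real.exp 2 / 2 * Real.exp (-(δ * x)) with hr
  have hr0 : 0 ≤ r := by positivity
  have hE : Real.exp (δ * x) * Real.exp (-(δ * x)) = 1 := by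
    rw [← Real.exp_add, add_neg_cancel, Real.exp_zero]
  have hEpos : 0 < Real.exp (-(δ * x)) := Real.exp_pos _
  have hr1 : r ≤ 1 / 2 := by
    have := mul_le_mul_of_nonneg_right h3 hEpos.le
    rw [hE] at this
    rw [hr]
    linarith
  have hr2 : 2 * r ≤ η := by
    have := mul_le_mul_of_nonneg_right h4 hEpos.le
    rw [hE, div_mul_eq_mul_div, div_le_one hη] at this
    rw [hr]
    linarith
  have h5 := local_sparse n 1 n one_pos p r h0 h1 hr0 hr1 (by
    intro s hs1 _
    have hs0 : (0 : ℝ) < s := by exact_mod_cast hs1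
    have he : Real.exp 2 = Real.exp 1 * Real.exp 1 := by rw [← Real.exp_add]; norm_num
    have : Real.exp 1 * n / s * (Real.exp 1 * s * p / (2 * (1 : ℕ))) ^ 1 =
        Real.exp 2 / 2 * (n * p) := by
      rw [he]
      push_cast
      field_simp
    rw [this, hr]
    gcongr)
  have h6 : Pr (wB (Ed n) p) (fun ω => ¬ Good (Gr ω)) ≤ 2 * r := by
    refine le_trans (Pr_mono hw ?_) h5
    intro ω hω
    by_contra hcon
    push Not at hcon
    apply hω
    intro D hD _ L hsym hL
    apply forest (Gr ω) D hD _ L hsym hL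
    intro X hX
    have h7 := hcon X (card_pos.2 hX) (by
      have := card_le_univ X
      rwa [Fintype.card_fin] at this)
    have h8 := ep_le X ω
    omega
  rw [Pr_not hw] at h6
  linarith

end Pool.Agent.K4H76.LR
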