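import Pool.Agent.K4H76.LR.Reg1
import Pool.Agent.K4H76.LR.Reg2
import Pool.Agent.K4H76.LR.Reg3

/-!
# All sparse random graphs
-/

set_option autoImplicit false

namespace Pool.Agent.K4H76.LR

theorem main : ∃ β : ℝ, 0 < β ∧ ∀ η : ℝ, 0 < η → ∃ N : ℕ, ∀ n : ℕ, N ≤ n → ∀ p : ℝ,
    0 ≤ p → p ≤ 1 → n * p ≤ (n : ℝ) ^ β →
    1 - η ≤ Pr (wB (Ed n) p) (fun ω => Good (Gr ω)) := by
  refine ⟨1 / 29491200 / 16, by norm_num, ?_⟩
  intro η hη
  obtain ⟨x1, h1⟩ := regime1 η hη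
  obtain ⟨x2, h2⟩ := regime2 η hη
  obtain ⟨x3, h3⟩ := regime3 (1 / 20000) (by norm_num) η hη
  obtain ⟨N, hN⟩ := exists_nat_ge (Real.exp (max x1 (max x2 x3)))
  refine ⟨max 1 N, ?_⟩
  intro n hn p hp0 hp1 hnp
  have hn1 : 1 ≤ n := (le_max_left _ _).trans hn
  have hn0 : (0 : ℝ) < n := by exact_mod_cast hn1
  have hnN : (N : ℝ) ≤ n := by exact_mod_cast (le_max_right _ _).trans hn
  have hx : max x1 (max x2 x3) ≤ Real.log n := by
    rw [Real.le_log_iff_exp_le hn0]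
    exact hN.trans hnN
  simp only [max_le_iff] at hx
  obtain ⟨k1, k2, k3⟩ := hx
  by_cases c1 : Real.log n / 100000 ≤ n * p
  · apply h1 n k1 p hp0 hp1 c1
    rw [Real.rpow_def_of_pos hn0, mul_comm (Real.log (n : ℝ))] at hnp
    exact hnp
  · push Not at c1
    by_cases c2 : Real.exp (-(1 / 20000 * Real.log n)) ≤ n * p
    · exact h2 n k2 p hp0 hp1 c2 c1.le
    · push Not at c2
      exact h3 n k3 p hp0 hp1 c2.le

end Pool.Agent.K4H76.LR
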