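import Pool.Agent.H162R2.AG.K1
import Pool.Agent.H162R2.AG.K2
import Pool.Agent.H162R2.AG.GR

/-!
# Colouring from a splitting of the vertices and of the colours into levels
-/

set_option autoImplicit false

namespace Pool.Agent.K4H76.LR

open Finset Pool.Agent.H162R2.Sparse Pool.Agent.H162R2.AG

section
variable {V : Type} [Fintype V] [DecidableEq V]

/-- Galvin's theorem -/
theorem galvin (G : SimpleGraph V) (side : V → Bool) (hs : ∀ a b, G.Adj a b → side a ≠ side b)
    (D : ℕ) (hD : ∀ v, dg G v ≤ D) (L : V → V → Finset ℕ) (hsym : ∀ a b, L a b = L b a)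
    (hL : ∀ a b, G.Adj a b → D ≤ (L a b).card) : LC G L := by
  classical
  set E : Finset (V × V) := (pr G).filter (fun e => side e.1 = false) with hE
  have hmem : ∀ e, e ∈ E ↔ G.Adj e.1 e.2 ∧ side e.1 = false := by
    intro e
    rw [hE, mem_filter, mem_pr]
  have hside : ∀ e ∈ E, side e.2 = true := by
    intro e he
    have h1 := (hmem e).1 he
    have h2 := hs _ _ h1.1
    rw [h1.2] at h2
    cases h3 : side e.2
    · rw [h3] at h2
      exact absurd rfl h2
    · rfl
  have hd1 : ∀ u, (E.filter (fun e => e.1 = u)).card ≤ D := by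
    intro u
    refine le_trans ?_ (hD u)
    unfold dg
    apply card_le_card_of_injOn (fun e => e.2)
    · intro e he
      rw [mem_coe, mem_filter, hmem] at he
      rw [mem_coe, mem_nb, ← he.2]
      exact he.1.1
    · intro e he f hf h
      rw [mem_coe, mem_filter] at he hf
      exact Prod.ext (he.2.trans hf.2.symm) h
  have hd2 : ∀ u, (E.filter (fun e => e.2 = u)).card ≤ D := by
    intro u
    refine le_trans ?_ (hD u)
    unfold dg
    apply card_le_card_of_injOn (fun e => e.1)
    · intro e he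
      rw [mem_coe, mem_filter, hmem] at he
      rw [mem_coe, mem_nb, ← he.2]
      exact he.1.1.symm
    · intro e he f hf h
      rw [mem_coe, mem_filter] at he hf
      exact Prod.ext h (he.2.trans hf.2.symm)
  obtain ⟨c, hc1, hc2⟩ := K1 V E D hd1 hd2
  obtain ⟨col, k1, k2⟩ := K2 V E D 0 0 c (fun i => i) (fun _ => False) (fun e => L e.1 e.2) hc1 hc2
    (fun i _ => Nat.zero_le _) (fun u i => by simp) (fun u i => by simp)
    (fun e he _ => by
      have := hL e.1 e.2 ((hmem e).1 he).1
      simpa using this) (fun e _ h => h.elim)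
  refine ⟨fun a b => if side a = false then col (a, b) else col (b, a), ?_, ?_, ?_⟩
  · intro a b hab
    have h := hs a b hab
    cases ha : side a <;> cases hb : side b <;> simp_all
  · intro a b hab
    have h := hs a b hab
    by_cases ha : side a = false
    · simp only [ha, if_true]
      exact k1 (a, b) ((hmem _).2 ⟨hab, ha⟩)
    · simp only [ha, if_false]
      have hb : side b = false := by
        cases hb : side b
        · rfl
        · cases ha' : side a
          · exact absurd ha' ha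
          · rw [ha', hb] at h
            exact absurd rfl h
      rw [hsym a b]
      exact k1 (b, a) ((hmem _).2 ⟨hab.symm, hb⟩)
  · intro a b b' hab hab' hbb
    by_cases ha : side a = false
    · simp only [ha, if_true]
      exact k2 (a, b) ((hmem _).2 ⟨hab, ha⟩) (a, b') ((hmem _).2 ⟨hab', ha⟩)
        (fun h => hbb (congrArg Prod.snd h)) (Or.inl rfl)
    · simp only [ha, if_false]
      have hb : ∀ b, G.Adj a b → side b = false := by
        intro b hab
        have h := hs a b hab
        cases hb : side b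
        · rfl
        · cases ha' : side a
          · exact absurd ha' ha
          · rw [ha', hb] at h
            exact absurd rfl h
      exact k2 (b, a) ((hmem _).2 ⟨hab.symm, hb b hab⟩) (b', a)
        ((hmem _).2 ⟨hab'.symm, hb b' hab'⟩)
        (fun h => hbb (congrArg Prod.fst h)) (Or.inr rfl)

/-- the strings `x`, `y` differ for the first time at the place `j` (are equal, if `j = ℓ`) -/
def At {ℓ : ℕ} (x y : Fin ℓ → Bool) (j : ℕ) : Prop :=
  (∀ i : Fin ℓ, i.val < j → x i = y i) ∧ ∀ h : j < ℓ, x ⟨j, h⟩ ≠ y ⟨j, h⟩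

theorem At.symm {ℓ : ℕ} {x y : Fin ℓ → Bool} {j : ℕ} (h : At x y j) : At y x j :=
  ⟨fun i hi => (h.1 i hi).symm, fun hj => (h.2 hj).symm⟩

theorem At_exists {ℓ : ℕ} (x y : Fin ℓ → Bool) : ∃ j ≤ ℓ, At x y j := by
  classical
  by_cases h : ∃ j : ℕ, ∃ hj : j < ℓ, x ⟨j, hj⟩ ≠ y ⟨j, hj⟩
  · have h1 := Nat.find_spec h
    obtain ⟨hj, hne⟩ := h1
    refine ⟨Nat.find h, hj.le, ?_, fun _ => hne⟩
    intro i hi
    have h2 := Nat.find_min h hi
    push Not at h2
    exact h2 i.2
  · push Not at h
    exact ⟨ℓ, le_refl _, fun i _ => h i.1 i.2, fun hj => absurd hj (lt_irrefl _)⟩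

theorem At_unique {ℓ : ℕ} {x y : Fin ℓ → Bool} {i j : ℕ} (hi : At x y i) (hj : At x y j)
    (hil : i ≤ ℓ) (hjl : j ≤ ℓ) : i = j := by
  rcases lt_trichotomy i j with h | h | h
  · exact absurd (hj.1 ⟨i, h.trans_le hjl⟩ h) (hi.2 (h.trans_le hjl))
  · exact h
  · exact absurd (hi.1 ⟨j, h.trans_le hil⟩ h) (hj.2 (h.trans_le hil))

/-- the edges of level `j` -/
def LvG (G : SimpleGraph V) {ℓ : ℕ} (σ : V → Fin ℓ → Bool) (j : ℕ) : SimpleGraph V where
  Adj a b := G.Adj a b ∧ At (σ a) (σ b) j
  symm := ⟨fun _ _ h => ⟨h.1.symm, h.2.symm⟩⟩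
  loopless := ⟨fun x h => G.loopless.irrefl x h.1⟩

open Classical in
theorem dg_LvG (G : SimpleGraph V) {ℓ : ℕ} (σ : V → Fin ℓ → Bool) (j : ℕ) (v : V) :
    dg (LvG G σ j) v = ((nb G v).filter (fun w => At (σ v) (σ w) j)).card := by
  unfold dg
  congr 1
  ext w
  rw [mem_nb, mem_filter, mem_nb]
  rfl

open Classical in
/-- colouring level by level -/
theorem levels (G : SimpleGraph V) {ℓ : ℕ} (σ : V → Fin ℓ → Bool) (τ : ℕ → ℕ)
    (L : V → V → Finset ℕ) (hsym : ∀ a b, L a b = L b a) (m : ℕ → ℕ)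
    (hdeg : ∀ j ≤ ℓ, ∀ v, ((nb G v).filter (fun w => At (σ v) (σ w) j)).card ≤ m j)
    (hL : ∀ j < ℓ, ∀ v w, G.Adj v w → m j ≤ ((L v w).filter (fun c => τ c = j)).card)
    (hL' : ∀ v w, G.Adj v w → 2 * m ℓ ≤ ((L v w).filter (fun c => τ c = ℓ)).card) :
    LC G L := by
  have key : ∀ j ≤ ℓ, LC (LvG G σ j) (fun v w => (L v w).filter (fun c => τ c = j)) := by
    intro j hj
    rcases lt_or_eq_of_le hj with h | h
    · apply galvin (LvG G σ j) (fun v => σ v ⟨j, h⟩) (fun a b hab => hab.2.2 h) (m j)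
      · intro v
        rw [dg_LvG]
        exact hdeg j hj v
      · intro a b
        simp only [hsym a b]
      · intro a b hab
        exact hL j h a b hab.1
    · subst h
      apply GR V (LvG G σ j) (m j)
      · intro v
        rw [dg_LvG]
        exact hdeg j hj v
      · intro a b
        simp only [hsym a b]
      · intro a b hab
        exact hL' a b hab.1
  choose! f hf1 hf2 hf3 using key
  have hex : ∀ a b : V, ∃ j ≤ ℓ, At (σ a) (σ b) j := fun a b => At_exists _ _
  choose lv hlv1 hlv2 using hex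
  have hlvs : ∀ a b, lv a b = lv b a := fun a b =>
    At_unique (hlv2 a b) (hlv2 b a).symm (hlv1 a b) (hlv1 b a)
  refine ⟨fun a b => f (lv a b) a b, ?_, ?_, ?_⟩
  · intro a b hab
    simp only
    rw [hlvs b a]
    exact hf1 _ (hlv1 a b) a b ⟨hab, hlv2 a b⟩
  · intro a b hab
    have := hf2 _ (hlv1 a b) a b ⟨hab, hlv2 a b⟩
    exact (mem_filter.1 this).1
  · intro a b c hab hac hbc
    simp only
    by_cases h : lv a b = lv a c
    · have h2 := hlv2 a c
      rw [← h] at h2
      rw [← h]
      exact hf3 _ (hlv1 a b) a b c ⟨hab, hlv2 a b⟩ ⟨hac, h2⟩ hbc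
    · intro heq
      apply h
      have h1 := (mem_filter.1 (hf2 _ (hlv1 a b) a b ⟨hab, hlv2 a b⟩)).2
      have h2 := (mem_filter.1 (hf2 _ (hlv1 a c) a c ⟨hac, hlv2 a c⟩)).2
      rw [← h1, ← h2, heq]

end

end Pool.Agent.K4H76.LR
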