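import Pool.Agent.K4H76.LR.Indep
import Pool.Agent.K4H76.LR.Levels

/-!
# Random strings for the vertices and random levels for the colours
-/

set_option autoImplicit false
set_option linter.unusedSectionVars false

namespace Pool.Agent.K4H76.LR

open Finset Pool.Agent.H162R2.Sparse Pool.Agent.H162R2.AG

section
variable {ι β : Type} [Fintype ι] [DecidableEq ι] [Fintype β]

theorem few_bad {V : Type} [Fintype V] {w : ι → β → ℝ} (hw : Wt w)
    (bad : V → (ι → β) → Prop) (r : ℝ) (h : ∀ v, Pr w (bad v) ≤ r) :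
    ∃ ω, ∃ T : Finset V, (T.card : ℝ) ≤ Fintype.card V * r ∧ ∀ v, v ∉ T → ¬ bad v ω := by
  classical
  obtain ⟨ω, hω⟩ := exists_le hw (fun ω => ((univ.filter (fun v => bad v ω)).card : ℝ))
    (Fintype.card V * r) (by
    have h1 : (fun ω => ((univ.filter (fun v => bad v ω)).card : ℝ)) =
        fun ω => ∑ v : V, if bad v ω then (1 : ℝ) else 0 := by
      funext ω
      rw [Finset.sum_boole]
    rw [h1, Ex_sum univ w (fun v ω => if bad v ω then (1 : ℝ) else 0)]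
    calc ∑ v : V, Ex w (fun ω => if bad v ω then (1 : ℝ) else 0) ≤ ∑ _v : V, r := by
          apply Finset.sum_le_sum
          intro v _
          refine le_trans (le_of_eq ?_) (h v)
          unfold Pr
          congr!
      _ = Fintype.card V * r := by rw [Finset.sum_const, card_univ, nsmul_eq_mul])
  refine ⟨ω, univ.filter (fun v => bad v ω), hω, ?_⟩
  intro v hv hb
  exact hv (mem_filter.2 ⟨mem_univ _, hb⟩)

end

/-! ### strings -/

/-- uniform weights on strings -/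
noncomputable def wS (V : Type) (ℓ : ℕ) : V → (Fin ℓ → Bool) → ℝ := fun _ _ => 1 / 2 ^ ℓ

theorem wS_wt (V : Type) (ℓ : ℕ) : Wt (wS V ℓ) := by
  refine ⟨fun _ _ => by unfold wS; positivity, fun _ => ?_⟩
  unfold wS
  rw [Finset.sum_const, card_univ, nsmul_eq_mul]
  simp

theorem prod_half (ℓ k : ℕ) (hk : k ≤ ℓ) :
    ∏ i : Fin ℓ, (if i.val < k then (1 : ℝ) else 2) = 2 ^ ℓ / 2 ^ k := by
  rw [Fin.prod_univ_eq_prod_range (fun i => if i < k then (1 : ℝ) else 2) ℓ, Finset.prod_ite,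
    Finset.prod_const_one, one_mul, Finset.prod_const]
  have h : (filter (fun x => ¬ x < k) (range ℓ)).card = ℓ - k := by
    have h1 : filter (fun x => ¬ x < k) (range ℓ) = Finset.Ico k ℓ := by
      ext x
      simp only [mem_filter, mem_range, not_lt, Finset.mem_Ico]
      tauto
    rw [h1, Nat.card_Ico]
  rw [h, eq_div_iff (by positivity), ← pow_add]
  congr 1
  omega

theorem P1_At (V : Type) (ℓ : ℕ) (v : V) (x : Fin ℓ → Bool) (j k : ℕ) (hk : k ≤ ℓ)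
    (hkj : k ≤ j + 1) : P1 (wS V ℓ) v (fun y => At x y j) ≤ 1 / 2 ^ k := by
  classical
  unfold P1 wS
  set g : Fin ℓ → Bool → ℝ := fun i b =>
    if i.val < k then (if i.val = j then (if b = !x i then 1 else 0) else (if b = x i then 1 else 0))
    else 1 with hg
  have hg0 : ∀ i b, 0 ≤ g i b := by
    intro i b
    simp only [hg]
    split_ifs <;> norm_num
  have h1 : ∀ y : Fin ℓ → Bool, (if At x y j then (1 : ℝ) / 2 ^ ℓ else 0) ≤
      (1 / 2 ^ ℓ) * ∏ i, g i (y i) := by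
    intro y
    by_cases h : At x y j
    · rw [if_pos h, Finset.prod_eq_one, mul_one]
      intro i _
      simp only [hg]
      by_cases hi : i.val < k
      · rw [if_pos hi]
        by_cases hij : i.val = j
        · rw [if_pos hij, if_pos]
          have h2 : j < ℓ := by rw [← hij]; exact i.2
          have h3 := h.2 h2
          have h4 : (⟨j, h2⟩ : Fin ℓ) = i := Fin.ext hij.symm
          rw [h4] at h3
          cases hx : x i <;> cases hy : y i <;> simp_all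
        · rw [if_neg hij, if_pos]
          exact (h.1 i (by omega)).symm
      · rw [if_neg hi]
    · rw [if_neg h]
      exact mul_nonneg (by positivity) (Finset.prod_nonneg (fun i _ => hg0 i _))
  calc ∑ y : Fin ℓ → Bool, (if At x y j then (1 : ℝ) / 2 ^ ℓ else 0) ≤
        ∑ y : Fin ℓ → Bool, (1 / 2 ^ ℓ) * ∏ i, g i (y i) := Finset.sum_le_sum (fun y _ => h1 y)
    _ = (1 / 2 ^ ℓ) * ∏ i : Fin ℓ, ∑ b, g i b := by
        rw [← Finset.mul_sum, Finset.prod_univ_sum, Fintype.piFinset_univ]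
    _ = (1 / 2 ^ ℓ) * ∏ i : Fin ℓ, (if i.val < k then (1 : ℝ) else 2) := by
        congr 1
        apply Finset.prod_congr rfl
        intro i _
        simp only [hg]
        rw [Fintype.sum_bool]
        by_cases hi : i.val < k
        · by_cases hij : i.val = j
          · have hjk : j < k := hij ▸ hi
            cases hx : x i <;> simp [hij, hjk]
          · cases hx : x i <;> simp [hi, hij]
        · simp only [hi, if_false]
          norm_num
    _ = 1 / 2 ^ k := by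
        rw [prod_half ℓ k hk]
        field_simp

section
variable {V : Type} [Fintype V] [DecidableEq V]

/-- the degree at level `j` -/
noncomputable def dgL (G : SimpleGraph V) {ℓ : ℕ} (σ : V → Fin ℓ → Bool) (j : ℕ) (v : V) : ℕ := by
  classical exact ((nb G v).filter (fun w => At (σ v) (σ w) j)).card

theorem dgL_le (G : SimpleGraph V) {ℓ : ℕ} (j : ℕ) (v : V) (M a ρ : ℝ)
    (hM : 0 < M) (ha : 0 ≤ a) (haM : a ≤ 2 * M) (k : ℕ) (hk : k ≤ ℓ) (hkj : k ≤ j + 1)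
    (hMd : (dg G v : ℝ) / 2 ^ k ≤ M) (hρ : Real.exp (-(a ^ 2) / (4 * M)) ≤ ρ) :
    Pr (wS V ℓ) (fun σ => M + a ≤ (dgL G σ j v : ℝ)) ≤ ρ := by
  classical
  have h3 : Pr (wS V ℓ) (fun σ => M + a ≤ (dgL G σ j v : ℝ)) ≤
      Pr (wS V ℓ) (fun σ => ∃ x ∈ (univ : Finset (Fin ℓ → Bool)), σ v = x ∧
        M + a ≤ (Nm (nb G v) (fun _ y => At x y j) σ : ℝ)) := by
    apply Pr_mono (wS_wt V ℓ)
    intro σ h
    refine ⟨σ v, mem_univ _, rfl, ?_⟩
    refine le_trans h (le_of_eq ?_)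
    unfold dgL Nm
    congr!
  refine h3.trans ((Pr_exists _ (wS_wt V ℓ) (fun x σ => σ v = x ∧
    M + a ≤ (Nm (nb G v) (fun _ y => At x y j) σ : ℝ))).trans ?_)
  have hvn : v ∉ nb G v := by
    rw [mem_nb]
    exact G.loopless.irrefl v
  have h4 : ∀ x ∈ (univ : Finset (Fin ℓ → Bool)), Pr (wS V ℓ) (fun σ => σ v = x ∧
      M + a ≤ (Nm (nb G v) (fun _ y => At x y j) σ : ℝ)) ≤ (1 / 2 ^ ℓ) * ρ := by
    intro x _
    rw [Pr_indep (wS_wt V ℓ) (fun i => i = v) (fun σ => σ v = x)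
      (fun σ => M + a ≤ (Nm (nb G v) (fun _ y => At x y j) σ : ℝ))]
    · apply mul_le_mul
      · have h5 := Pr_coord (wS_wt V ℓ) v (fun y => y = x)
        rw [h5]
        unfold P1 wS
        simp
      · refine le_trans ?_ hρ
        apply upper (wS_wt V ℓ) _ _ _ _ hM ha haM
        refine le_trans (Finset.sum_le_sum (fun i _ => P1_At V ℓ i x j k hk hkj)) ?_
        rw [Finset.sum_const, nsmul_eq_mul]
        refine le_trans ?_ hMd
        rw [mul_one_div]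
        exact le_rfl
      · exact Pr_nonneg (wS_wt V ℓ) _
      · positivity
    · intro σ σ' h
      rw [h v rfl]
    · intro σ σ' h
      have h6 : Nm (nb G v) (fun _ y => At x y j) σ = Nm (nb G v) (fun _ y => At x y j) σ' := by
        unfold Nm
        congr 1
        apply Finset.filter_congr
        intro w hw
        rw [h w (fun h' => hvn (h' ▸ hw))]
      rw [h6]
  refine (Finset.sum_le_sum h4).trans ?_
  rw [Finset.sum_const, card_univ, nsmul_eq_mul]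
  simp

theorem exists_sigma (G : SimpleGraph V) (ℓ d : ℕ) (M a : ℕ → ℝ) (ρ : ℝ)
    (hM : ∀ j ≤ ℓ, 0 < M j) (ha : ∀ j ≤ ℓ, 0 ≤ a j) (haM : ∀ j ≤ ℓ, a j ≤ 2 * M j)
    (hMd : ∀ j < ℓ, (d : ℝ) / 2 ^ (j + 1) ≤ M j) (hMd' : (d : ℝ) / 2 ^ ℓ ≤ M ℓ)
    (hρ : ∀ j ≤ ℓ, Real.exp (-(a j ^ 2) / (4 * M j)) ≤ ρ) :
    ∃ σ : V → Fin ℓ → Bool, ∃ T : Finset V, (T.card : ℝ) ≤ Fintype.card V * ((ℓ + 1) * ρ) ∧
      ∀ v, v ∉ T → dg G v ≤ d → ∀ j ≤ ℓ, (dgL G σ j v : ℝ) ≤ M j + a j := by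
  classical
  have hρ0 : 0 ≤ ρ := (Real.exp_pos _).le.trans (hρ 0 (Nat.zero_le _))
  obtain ⟨σ, T, hT, hT2⟩ := few_bad (V := V) (wS_wt V ℓ)
    (fun v σ => ∃ j ∈ range (ℓ + 1), dg G v ≤ d ∧ M j + a j ≤ (dgL G σ j v : ℝ))
    ((ℓ + 1) * ρ) (by
    intro v
    refine (Pr_exists _ (wS_wt V ℓ) (fun j σ =>
      dg G v ≤ d ∧ M j + a j ≤ (dgL G σ j v : ℝ))).trans ?_
    have h2 : ∀ j ∈ range (ℓ + 1), Pr (wS V ℓ) (fun σ =>
        dg G v ≤ d ∧ M j + a j ≤ (dgL G σ j v : ℝ)) ≤ ρ := by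
      intro j hj
      have hj' : j ≤ ℓ := by rw [mem_range] at hj; omega
      by_cases hd : dg G v ≤ d
      · have hd' : (dg G v : ℝ) ≤ d := by exact_mod_cast hd
        refine le_trans (Pr_mono (wS_wt V ℓ) (fun σ h => h.2)) ?_
        rcases lt_or_eq_of_le hj' with h | h
        · exact dgL_le G (ℓ := ℓ) j v (M j) (a j) ρ (hM j hj') (ha j hj') (haM j hj')
            (j + 1) h le_rfl (le_trans (div_le_div_of_nonneg_right hd' (by positivity))
            (hMd j h)) (hρ j hj')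
        · subst h
          exact dgL_le G (ℓ := j) j v (M j) (a j) ρ (hM j hj') (ha j hj') (haM j hj')
            j le_rfl (Nat.le_succ _) (le_trans (div_le_div_of_nonneg_right hd' (by positivity))
            hMd') (hρ j hj')
      · have h5 : Pr (wS V ℓ) (fun σ => dg G v ≤ d ∧ M j + a j ≤ (dgL G σ j v : ℝ)) ≤ 0 := by
          unfold Pr
          apply le_of_eq
          have h6 : (fun σ : V → Fin ℓ → Bool => if dg G v ≤ d ∧ M j + a j ≤
              (dgL G σ j v : ℝ) then (1 : ℝ) else 0) = fun _ => 0 := by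
            funext σ
            rw [if_neg (fun h => hd h.1)]
          have h7 := Ex_const (wS_wt V ℓ) 0
          refine Eq.trans ?_ h7
          rw [← h6]
          congr!
        exact h5.trans hρ0
    refine (Finset.sum_le_sum h2).trans ?_
    rw [Finset.sum_const, card_range, nsmul_eq_mul]
    push_cast
    exact le_rfl)
  refine ⟨σ, T, hT, ?_⟩
  intro v hv hd j hj
  have h := hT2 v hv
  push Not at h
  exact (h j (mem_range.2 (by omega)) hd).le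

/-- the number of the elements of a list which have level `j` -/
def cl (S : Finset ℕ) (τ : ℕ → ℕ) (j : ℕ) : ℕ := (S.filter (fun c => τ c = j)).card

/-- levels from an outcome -/
def tauOf (C : Finset ℕ) (ℓ : ℕ) (ω : {c // c ∈ C} → Fin (ℓ + 1)) (c : ℕ) : ℕ :=
  if h : c ∈ C then (ω ⟨c, h⟩).val else 0

theorem cl_tauOf (C : Finset ℕ) (ℓ : ℕ) (ω : {c // c ∈ C} → Fin (ℓ + 1)) (S : Finset ℕ)
    (hS : S ⊆ C) (j : ℕ) : cl S (tauOf C ℓ ω) j =
      Nm (univ.filter (fun c : {c // c ∈ C} => c.1 ∈ S)) (fun _ b => b.val = j) ω := by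
  classical
  unfold Nm cl
  symm
  refine card_bij (fun c _ => c.1) ?_ ?_ ?_
  · intro c hc
    simp only [mem_filter] at hc ⊢
    refine ⟨hc.1.2, ?_⟩
    unfold tauOf
    rw [dif_pos c.2]
    exact hc.2
  · intro c _ c' _ h
    exact Subtype.ext h
  · intro c hc
    simp only [mem_filter] at hc
    refine ⟨⟨c, hS hc.1⟩, ?_, rfl⟩
    simp only [mem_filter]
    refine ⟨⟨mem_univ _, hc.1⟩, ?_⟩
    have h2 := hc.2
    unfold tauOf at h2
    rw [dif_pos (hS hc.1)] at h2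
    exact h2

/-- weights for the levels -/
def wQ (C : Finset ℕ) (ℓ : ℕ) (q : ℕ → ℝ) : {c // c ∈ C} → Fin (ℓ + 1) → ℝ := fun _ j => q j.val

theorem wQ_wt (C : Finset ℕ) (ℓ : ℕ) (q : ℕ → ℝ) (hq0 : ∀ j ≤ ℓ, 0 ≤ q j)
    (hq : ∑ j ∈ range (ℓ + 1), q j = 1) : Wt (wQ C ℓ q) := by
  refine ⟨fun _ j => hq0 j.val (by omega), fun _ => ?_⟩
  unfold wQ
  rw [Fin.sum_univ_eq_sum_range (fun j => q j) (ℓ + 1)]
  exact hq

theorem P1_wQ (C : Finset ℕ) (ℓ : ℕ) (q : ℕ → ℝ) (j : ℕ) (hj : j ≤ ℓ) (i : {c // c ∈ C}) :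
    P1 (wQ C ℓ q) i (fun b => b.val = j) = q j := by
  classical
  unfold P1 wQ
  rw [Finset.sum_eq_single (⟨j, Nat.lt_succ_of_le hj⟩ : Fin (ℓ + 1))]
  · simp
  · intro b _ hb
    rw [if_neg]
    intro h
    exact hb (Fin.ext h)
  · intro h
    exact absurd (mem_univ _) h

theorem cl_low (C : Finset ℕ) (ℓ : ℕ) (q : ℕ → ℝ) (hq0 : ∀ j ≤ ℓ, 0 ≤ q j)
    (hq : ∑ j ∈ range (ℓ + 1), q j = 1) (S : Finset ℕ) (hS : S ⊆ C) (j : ℕ) (hj : j ≤ ℓ)
    (M a m ρ : ℝ) (hM : 0 < M) (ha : 0 ≤ a) (haM : a ≤ 2 * M) (hMq : q j * S.card ≤ M)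
    (hm : m + a ≤ q j * S.card) (hρ : Real.exp (-(a ^ 2) / (4 * M)) ≤ ρ) :
    Pr (wQ C ℓ q) (fun ω => (cl S (tauOf C ℓ ω) j : ℝ) ≤ m) ≤ ρ := by
  classical
  have hsum : ∑ i ∈ univ.filter (fun c : {c // c ∈ C} => c.1 ∈ S),
      P1 (wQ C ℓ q) i (fun b => b.val = j) = q j * S.card := by
    rw [Finset.sum_congr rfl (fun i _ => P1_wQ C ℓ q j hj i), Finset.sum_const, nsmul_eq_mul,
      mul_comm]
    congr 2
    refine card_bij (fun c _ => c.1) ?_ ?_ ?_
    · intro c hc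
      exact (mem_filter.1 hc).2
    · intro c _ c' _ h
      exact Subtype.ext h
    · intro c hc
      exact ⟨⟨c, hS hc⟩, mem_filter.2 ⟨mem_univ _, hc⟩, rfl⟩
  have h1 := lower (wQ_wt C ℓ q hq0 hq) (univ.filter (fun c : {c // c ∈ C} => c.1 ∈ S))
    (fun _ b => b.val = j) M a m hM ha haM (by rw [hsum]; exact hMq) (by rw [hsum]; exact hm)
  refine le_trans ?_ (h1.trans hρ)
  apply Pr_mono (wQ_wt C ℓ q hq0 hq)
  intro ω h
  rw [cl_tauOf C ℓ ω S hS j] at h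
  exact h

theorem exists_tau (G : SimpleGraph V) (ℓ D Δ : ℕ) (hΔ : ∀ v, dg G v ≤ Δ)
    (L : V → V → Finset ℕ) (hL : ∀ v w, G.Adj v w → (L v w).card = D)
    (q M a m : ℕ → ℝ) (ρ : ℝ) (hq0 : ∀ j ≤ ℓ, 0 ≤ q j) (hq : ∑ j ∈ range (ℓ + 1), q j = 1)
    (hM : ∀ j ≤ ℓ, 0 < M j) (ha : ∀ j ≤ ℓ, 0 ≤ a j) (haM : ∀ j ≤ ℓ, a j ≤ 2 * M j)
    (hMq : ∀ j ≤ ℓ, q j * D ≤ M j) (hm : ∀ j ≤ ℓ, m j + a j ≤ q j * D)
    (hρ : ∀ j ≤ ℓ, Real.exp (-(a j ^ 2) / (4 * M j)) ≤ ρ) :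
    ∃ τ : ℕ → ℕ, ∃ T : Finset V, (T.card : ℝ) ≤ Fintype.card V * (Δ * ((ℓ + 1) * ρ)) ∧
      ∀ v, v ∉ T → ∀ w, G.Adj v w → ∀ j ≤ ℓ, m j ≤ (cl (L v w) τ j : ℝ) := by
  classical
  have hρ0 : 0 ≤ ρ := (Real.exp_pos _).le.trans (hρ 0 (Nat.zero_le _))
  obtain ⟨C, hLC⟩ : ∃ C : Finset ℕ, ∀ v w, L v w ⊆ C := by
    refine ⟨univ.biUnion (fun v : V => univ.biUnion (fun w : V => L v w)), ?_⟩
    intro v w c hc
    rw [mem_biUnion]
    exact ⟨v, mem_univ _, mem_biUnion.2 ⟨w, mem_univ _, hc⟩⟩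
  have hw := wQ_wt C ℓ q hq0 hq
  obtain ⟨ω, T, hT, hT2⟩ := few_bad (V := V) hw
    (fun v ω => ∃ p ∈ (nb G v) ×ˢ (range (ℓ + 1)), (cl (L v p.1) (tauOf C ℓ ω) p.2 : ℝ) ≤ m p.2)
    (Δ * ((ℓ + 1) * ρ)) (by
    intro v
    refine (Pr_exists ((nb G v) ×ˢ (range (ℓ + 1))) hw (fun (p : V × ℕ) ω =>
      (cl (L v p.1) (tauOf C ℓ ω) p.2 : ℝ) ≤ m p.2)).trans ?_
    have h2 : ∀ p ∈ (nb G v) ×ˢ (range (ℓ + 1)), Pr (wQ C ℓ q) (fun ω =>
        (cl (L v p.1) (tauOf C ℓ ω) p.2 : ℝ) ≤ m p.2) ≤ ρ := by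
      rintro ⟨w, j⟩ hp
      rw [mem_product, mem_nb, mem_range] at hp
      obtain ⟨hvw, hj⟩ := hp
      have hj' : j ≤ ℓ := Nat.lt_succ_iff.1 hj
      have hc := hL v w hvw
      exact cl_low C ℓ q hq0 hq (L v w) (hLC v w) j hj' (M j) (a j) (m j) ρ (hM j hj')
        (ha j hj') (haM j hj') (by rw [hc]; exact hMq j hj') (by rw [hc]; exact hm j hj')
        (hρ j hj')
    refine (Finset.sum_le_sum h2).trans ?_
    rw [Finset.sum_const, card_product, card_range, nsmul_eq_mul]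
    push_cast
    rw [mul_assoc]
    apply mul_le_mul_of_nonneg_right
    · exact_mod_cast hΔ v
    · positivity)
  refine ⟨tauOf C ℓ ω, T, hT, ?_⟩
  intro v hv w hvw j hj
  have h := hT2 v hv
  push Not at h
  exact (h (w, j) (mem_product.2 ⟨(mem_nb G v w).2 hvw, mem_range.2 (Nat.lt_succ_of_le hj)⟩)).le

end

end Pool.Agent.K4H76.LR
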