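import Pool.Agent.K4H76.LR.Indep
import Pool.Agent.H162R2.Sparse.Struct
import Pool.Agent.K4H76.LR.Core

/-!
# The random graph
-/

set_option autoImplicit false
set_option linter.unusedSectionVars false

namespace Pool.Agent.K4H76.LR

open Finset Pool.Agent.H162R2.Sparse

section
variable {ι β : Type} [Fintype ι] [DecidableEq ι] [Fintype β]

/-- the probability of a box -/
theorem Pr_all {w : ι → β → ℝ} (hw : Wt w) (F : Finset ι) (A : ι → β → Prop) :
    Pr w (fun ω => ∀ i ∈ F, A i (ω i)) = ∏ i ∈ F, P1 w i (A i) := by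
  classical
  unfold Pr
  have h1 : (fun ω : ι → β => if ∀ i ∈ F, A i (ω i) then (1 : ℝ) else 0) =
      fun ω => ∏ k, (if k ∈ F then (if A k (ω k) then (1 : ℝ) else 0) else 1) := by
    funext ω
    rw [Finset.prod_ite_mem]
    rw [Finset.univ_inter]
    by_cases h : ∀ i ∈ F, A i (ω i)
    · rw [if_pos h, Finset.prod_eq_one]
      intro i hi
      rw [if_pos (h i hi)]
    · rw [if_neg h]
      push Not at h
      obtain ⟨i, hi, hA⟩ := h
      symm
      apply Finset.prod_eq_zero hi
      rw [if_neg hA]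
  have h2 := Ex_prod w (fun k b => if k ∈ F then (if A k b then (1 : ℝ) else 0) else 1)
  have h3 : Ex w (fun ω : ι → β => if ∀ i ∈ F, A i (ω i) then (1 : ℝ) else 0) =
      ∏ k, ∑ b, w k b * (if k ∈ F then (if A k b then (1 : ℝ) else 0) else 1) := by
    rw [h1]
    exact h2
  have h4 : ∏ k, ∑ b, w k b * (if k ∈ F then (if A k b then (1 : ℝ) else 0) else 1) =
      ∏ i ∈ F, P1 w i (A i) := by
    have h5 : ∀ k ∈ (univ : Finset ι),
        ∑ b, w k b * (if k ∈ F then (if A k b then (1 : ℝ) else 0) else 1) =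
        if k ∈ F then P1 w k (A k) else 1 := by
      intro k _
      by_cases hk : k ∈ F
      · simp only [hk, if_true]
        unfold P1
        apply Finset.sum_congr rfl
        intro b _
        by_cases h : A k b <;> simp [h]
      · simp only [hk, if_false, mul_one]
        exact hw.one k
    rw [Finset.prod_congr rfl h5, Finset.prod_ite_mem, Finset.univ_inter]
  refine Eq.trans ?_ (h3.trans h4)
  congr!

/-- independent events for disjoint sets of coordinates -/
theorem Pr_forall_indep {J : Type} [DecidableEq J] {w : ι → β → ℝ} (hw : Wt w)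
    (F : J → Finset ι) (Q : J → (ι → β) → Prop)
    (hQ : ∀ j ω ω', (∀ i ∈ F j, ω i = ω' i) → (Q j ω ↔ Q j ω')) (s : Finset J)
    (hF : ∀ i ∈ s, ∀ j ∈ s, i ≠ j → Disjoint (F i) (F j)) :
    Pr w (fun ω => ∀ j ∈ s, Q j ω) = ∏ j ∈ s, Pr w (Q j) := by
  classical
  induction s using Finset.induction_on with
  | empty =>
      simp only [Finset.prod_empty]
      have h := Ex_one hw
      refine Eq.trans ?_ h
      unfold Pr
      congr 1
      funext ω
      rw [if_pos]
      intro j hj
      exact absurd hj (notMem_empty _)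
  | insert j s hj ih =>
      rw [Finset.prod_insert hj, ← ih (fun a ha b hb => hF a (mem_insert_of_mem ha) b
        (mem_insert_of_mem hb))]
      rw [← Pr_indep hw (fun i => i ∈ F j) (Q j) (fun ω => ∀ i ∈ s, Q i ω)]
      · congr 1
        funext ω
        simp only [mem_insert, forall_eq_or_imp]
      · intro ω ω' h
        exact hQ j ω ω' h
      · intro ω ω' h
        apply forall_congr'
        intro i
        apply forall_congr'
        intro hi
        apply hQ i ω ω'
        intro e he
        apply h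
        intro he'
        have hij : i ≠ j := by
          rintro rfl
          exact hj hi
        have := hF i (mem_insert_of_mem hi) j (mem_insert_self _ _) hij
        exact (disjoint_left.1 this) he he'

end

/-! ### Bernoulli weights -/

section
variable {ι : Type} [Fintype ι] [DecidableEq ι]

/-- weights of independent coins -/
noncomputable def wB (ι : Type) (p : ℝ) : ι → Bool → ℝ := fun _ b => if b then p else 1 - p

theorem wB_wt (p : ℝ) (h0 : 0 ≤ p) (h1 : p ≤ 1) : Wt (wB ι p) := by
  refine ⟨?_, ?_⟩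
  · intro i b
    unfold wB
    cases b <;> simp <;> linarith
  · intro i
    unfold wB
    simp

theorem P1_wB (p : ℝ) (i : ι) : P1 (wB ι p) i (fun b => b = true) = p := by
  unfold P1 wB
  simp

theorem P1_wB' (p : ℝ) (i : ι) : P1 (wB ι p) i (fun b => b = false) = 1 - p := by
  unfold P1 wB
  simp

/-- number of the present edges in `F` -/
def cn (F : Finset ι) (ω : ι → Bool) : ℕ := (F.filter (fun i => ω i = true)).card

theorem cn_eq (F : Finset ι) (ω : ι → Bool) : cn F ω = Nm F (fun _ b => b = true) ω := by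
  unfold cn Nm
  congr!

theorem cn_le_choose (p : ℝ) (h0 : 0 ≤ p) (h1 : p ≤ 1) (F : Finset ι) (k : ℕ) :
    Pr (wB ι p) (fun ω => k ≤ cn F ω) ≤ (F.card.choose k : ℝ) * p ^ k := by
  classical
  have hw := wB_wt (ι := ι) p h0 h1
  have h2 : Pr (wB ι p) (fun ω => k ≤ cn F ω) ≤
      Pr (wB ι p) (fun ω => ∃ K ∈ F.powersetCard k, ∀ i ∈ K, ω i = true) := by
    apply Pr_mono hw
    intro ω h
    unfold cn at h
    obtain ⟨K, hK1, hK2⟩ := exists_subset_card_eq h
    refine ⟨K, mem_powersetCard.2 ⟨hK1.trans (filter_subset _ _), hK2⟩, ?_⟩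
    intro i hi
    exact (mem_filter.1 (hK1 hi)).2
  refine h2.trans ((Pr_exists _ hw (fun K ω => ∀ i ∈ K, ω i = true)).trans ?_)
  have h3 : ∀ K ∈ F.powersetCard k, Pr (wB ι p) (fun ω => ∀ i ∈ K, ω i = true) ≤ p ^ k := by
    intro K hK
    rw [Pr_all hw K (fun _ b => b = true)]
    rw [Finset.prod_congr rfl (fun i _ => P1_wB p i), Finset.prod_const,
      (mem_powersetCard.1 hK).2]
  refine (Finset.sum_le_sum h3).trans ?_
  rw [Finset.sum_const, card_powersetCard, nsmul_eq_mul]

theorem choose_le_cn (p : ℝ) (h0 : 0 ≤ p) (h1 : p ≤ 1) (F : Finset ι) (k : ℕ) :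
    (F.card.choose k : ℝ) * (p ^ k * (1 - p) ^ F.card) ≤
      Pr (wB ι p) (fun ω => k ≤ cn F ω) := by
  classical
  have hw := wB_wt (ι := ι) p h0 h1
  have h2 : ∀ K ∈ F.powersetCard k, p ^ k * (1 - p) ^ F.card ≤
      Pr (wB ι p) (fun ω => F.filter (fun i => ω i = true) = K) := by
    intro K hK
    obtain ⟨hK1, hK2⟩ := mem_powersetCard.1 hK
    have h3 : (fun ω : ι → Bool => F.filter (fun i => ω i = true) = K) =
        fun ω => ∀ i ∈ F, (fun (i : ι) (b : Bool) => (b = true ↔ i ∈ K)) i (ω i) := by
      funext ω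
      apply propext
      constructor
      · intro h i hi
        rw [← h, mem_filter]
        tauto
      · intro h
        ext i
        rw [mem_filter]
        constructor
        · rintro ⟨hi, hω⟩
          exact (h i hi).1 hω
        · intro hi
          exact ⟨hK1 hi, (h i (hK1 hi)).2 hi⟩
    rw [h3, Pr_all hw F (fun (i : ι) (b : Bool) => (b = true ↔ i ∈ K))]
    have h4 : ∀ i ∈ F, P1 (wB ι p) i (fun b => (b = true ↔ i ∈ K)) =
        if i ∈ K then p else 1 - p := by
      intro i _
      by_cases hi : i ∈ K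
      · simp only [hi, if_true, iff_true]
        exact P1_wB p i
      · simp only [hi, if_false, iff_false, Bool.not_eq_true]
        exact P1_wB' p i
    rw [Finset.prod_congr rfl h4, Finset.prod_ite, Finset.prod_const, Finset.prod_const]
    have h5 : (F.filter (fun i => i ∈ K)).card = k := by
      rw [← hK2]
      congr 1
      ext i
      rw [mem_filter]
      exact ⟨fun h => h.2, fun h => ⟨hK1 h, h⟩⟩
    rw [h5]
    apply mul_le_mul_of_nonneg_left _ (by positivity)
    apply pow_le_pow_of_le_one (by linarith) (by linarith)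
    exact card_le_card (filter_subset _ _)
  have h6 : ∑ K ∈ F.powersetCard k, Pr (wB ι p) (fun ω => F.filter (fun i => ω i = true) = K) ≤
      Pr (wB ι p) (fun ω => k ≤ cn F ω) := by
    unfold Pr
    rw [← Ex_sum]
    apply Ex_mono hw
    intro ω
    have h8 : (∑ K ∈ F.powersetCard k, if F.filter (fun i => ω i = true) = K then (1 : ℝ) else 0) =
        if F.filter (fun i => ω i = true) ∈ F.powersetCard k then 1 else 0 :=
      Finset.sum_ite_eq _ _ _
    have h9 : (if F.filter (fun i => ω i = true) ∈ F.powersetCard k then (1 : ℝ) else 0) ≤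
        if k ≤ cn F ω then 1 else 0 := by
      by_cases h : F.filter (fun i => ω i = true) ∈ F.powersetCard k
      · have h7 : k ≤ cn F ω := by
          unfold cn
          have := (mem_powersetCard.1 h).2
          exact this.ge
        rw [if_pos h7, if_pos h]
      · rw [if_neg h]
        split_ifs <;> norm_num
    refine le_trans (le_of_eq ?_) (h8.le.trans (h9.trans (le_of_eq ?_)))
    · congr!
    · congr!
  refine le_trans ?_ h6
  refine le_trans ?_ (Finset.sum_le_sum h2)
  rw [Finset.sum_const, card_powersetCard, nsmul_eq_mul]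

end

/-! ### the random graph -/

/-- the pairs -/
abbrev Ed (n : ℕ) : Type := {e : Sym2 (Fin n) // ¬ e.IsDiag}

/-- the graph of an outcome -/
def Gr {n : ℕ} (ω : Ed n → Bool) : SimpleGraph (Fin n) where
  Adj a b := ∃ h : ¬ (s(a, b) : Sym2 (Fin n)).IsDiag, ω ⟨s(a, b), h⟩ = true
  symm := ⟨by
    rintro a b ⟨h, h'⟩
    have e : (s(a, b) : Sym2 (Fin n)) = s(b, a) := Sym2.eq_swap
    refine ⟨e ▸ h, ?_⟩
    have : (⟨s(b, a), e ▸ h⟩ : Ed n) = ⟨s(a, b), h⟩ := Subtype.ext e.symm
    rw [this]
    exact h'⟩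
  loopless := ⟨by
    rintro a ⟨h, _⟩
    exact h (by simp)⟩

/-- the pairs `vw`, `w ∈ S` -/
noncomputable def st {n : ℕ} (v : Fin n) (S : Finset (Fin n)) : Finset (Ed n) := by
  classical exact univ.filter (fun e => ∃ w ∈ S, e.1 = s(v, w))

theorem card_st_le {n : ℕ} (v : Fin n) (S : Finset (Fin n)) : (st v S).card ≤ S.card := by
  classical
  have h : (st v S).image (fun e => e.1) ⊆ S.image (fun w => s(v, w)) := by
    intro e he
    rw [mem_image] at he ⊢
    obtain ⟨e', he', rfl⟩ := he
    unfold st at he'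
    rw [mem_filter] at he'
    obtain ⟨_, w, hw, h⟩ := he'
    exact ⟨w, hw, h.symm⟩
  have h1 := card_le_card h
  rw [card_image_of_injective _ Subtype.val_injective] at h1
  exact h1.trans card_image_le

theorem card_st {n : ℕ} (v : Fin n) (S : Finset (Fin n)) (hv : v ∉ S) :
    (st v S).card = S.card := by
  classical
  symm
  have hnd : ∀ w ∈ S, ¬ (s(v, w) : Sym2 (Fin n)).IsDiag := by
    intro w hw h
    rw [Sym2.mk_isDiag_iff] at h
    exact hv (h ▸ hw)
  refine card_bij (fun w hw => ⟨s(v, w), hnd w hw⟩) ?_ ?_ ?_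
  · intro w hw
    unfold st
    rw [mem_filter]
    exact ⟨mem_univ _, w, hw, rfl⟩
  · intro w hw w' hw' h
    have h1 := congrArg Subtype.val h
    simp only at h1
    rw [Sym2.eq_iff] at h1
    rcases h1 with h1 | h1
    · exact h1.2
    · rw [h1.2, ← h1.1]
  · intro e he
    unfold st at he
    rw [mem_filter] at he
    obtain ⟨_, w, hw, h⟩ := he
    exact ⟨w, hw, Subtype.ext h.symm⟩

theorem cn_st_le {n : ℕ} (v : Fin n) (S : Finset (Fin n)) (ω : Ed n → Bool) :
    cn (st v S) ω ≤ dg (Gr ω) v := by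
  classical
  unfold cn dg
  have h : (univ.filter (fun e : Ed n => (∃ w ∈ S, e.1 = s(v, w)) ∧ ω e = true)).image
      (fun e => e.1) ⊆ (nb (Gr ω) v).image (fun w => s(v, w)) := by
    intro e he
    rw [mem_image] at he ⊢
    obtain ⟨e', he', rfl⟩ := he
    rw [mem_filter] at he'
    obtain ⟨_, ⟨w, hw, h⟩, hω⟩ := he'
    refine ⟨w, ?_, h.symm⟩
    rw [mem_nb]
    refine ⟨h ▸ e'.2, ?_⟩
    rw [← hω]
    congr 1
    exact Subtype.ext h.symm
  have h1 := card_le_card h
  rw [card_image_of_injective _ Subtype.val_injective] at h1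
  refine le_trans (card_le_card ?_) (h1.trans card_image_le)
  intro e he
  unfold st at he
  rw [mem_filter, mem_filter] at he
  rw [mem_filter]
  exact ⟨mem_univ _, he.1.2, he.2⟩

theorem dg_le_cn {n : ℕ} (v : Fin n) (ω : Ed n → Bool) :
    dg (Gr ω) v ≤ cn (st v (univ.erase v)) ω := by
  classical
  unfold cn dg
  have h : (nb (Gr ω) v).image (fun w => s(v, w)) ⊆
      ((st v (univ.erase v)).filter (fun e => ω e = true)).image (fun e => e.1) := by
    intro e he
    rw [mem_image] at he ⊢
    obtain ⟨w, hw, rfl⟩ := he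
    rw [mem_nb] at hw
    obtain ⟨h1, h2⟩ := hw
    refine ⟨⟨s(v, w), h1⟩, ?_, rfl⟩
    rw [mem_filter]
    refine ⟨?_, h2⟩
    unfold st
    rw [mem_filter]
    refine ⟨mem_univ _, w, ?_, rfl⟩
    rw [mem_erase]
    refine ⟨?_, mem_univ _⟩
    rintro rfl
    exact h1 (by simp)
  have h1 := card_le_card h
  rw [card_image_of_injective _ Subtype.val_injective] at h1
  rw [card_image_of_injOn] at h1
  · exact h1
  · intro w _ w' _ h2
    simp only at h2
    rw [Sym2.eq_iff] at h2
    rcases h2 with h2 | h2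
    · exact h2.2
    · rw [h2.2, ← h2.1]

/-- the pairs inside `S` -/
noncomputable def ins {n : ℕ} (S : Finset (Fin n)) : Finset (Ed n) := by
  classical exact univ.filter (fun e => ∀ v ∈ e.1, v ∈ S)

theorem card_ins {n : ℕ} (S : Finset (Fin n)) : (ins S).card ≤ S.card.choose 2 := by
  classical
  rw [← Sym2.card_image_offDiag]
  have h : (ins S).image (fun e => e.1) ⊆ S.offDiag.image Sym2.mk.uncurry := by
    intro e he
    rw [mem_image] at he
    obtain ⟨e', he', rfl⟩ := he
    unfold ins at he'
    rw [mem_filter] at he'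
    obtain ⟨_, he'⟩ := he'
    obtain ⟨e, hd⟩ := e'
    induction e using Sym2.inductionOn with
    | _ a b =>
    rw [mem_image]
    refine ⟨(a, b), ?_, rfl⟩
    rw [mem_offDiag]
    refine ⟨he' a (by simp), he' b (by simp), ?_⟩
    intro h
    simp only at h
    subst h
    exact hd (by simp)
  have h1 := card_le_card h
  rw [card_image_of_injective _ Subtype.val_injective] at h1
  exact h1

theorem ep_le {n : ℕ} (S : Finset (Fin n)) (ω : Ed n → Bool) :
    ep (Gr ω) S ≤ 2 * cn (ins S) ω := by
  classical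
  unfold ep cn
  have h1 : (((pr (Gr ω)).filter (fun e => e.1 ∈ S ∧ e.2 ∈ S)).image (fun e => s(e.1, e.2))) ⊆
      ((ins S).filter (fun e => ω e = true)).image (fun e => e.1) := by
    intro e he
    rw [mem_image] at he ⊢
    obtain ⟨⟨a, b⟩, hab, rfl⟩ := he
    rw [mem_filter, mem_pr] at hab
    obtain ⟨⟨h1, h2⟩, h3, h4⟩ := hab
    refine ⟨⟨s(a, b), h1⟩, ?_, rfl⟩
    rw [mem_filter]
    refine ⟨?_, h2⟩
    unfold ins
    rw [mem_filter]
    refine ⟨mem_univ _, ?_⟩
    intro v hv
    simp only [Sym2.mem_iff] at hv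
    rcases hv with rfl | rfl
    · exact h3
    · exact h4
  have h2 := card_le_card h1
  rw [card_image_of_injective _ Subtype.val_injective] at h2
  refine le_trans (card_le_mul_card_image (f := fun e : Fin n × Fin n => s(e.1, e.2)) _ 2 ?_)
    (Nat.mul_le_mul_left 2 h2)
  intro e _
  induction e using Sym2.inductionOn with
  | _ a b =>
  refine le_trans (card_le_card (t := {(a, b), (b, a)}) ?_) (card_le_two)
  rintro ⟨x, y⟩ hxy
  rw [mem_filter] at hxy
  have h3 := hxy.2
  simp only [Sym2.eq_iff] at h3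
  rw [mem_insert, mem_singleton, Prod.mk.injEq, Prod.mk.injEq]
  exact h3

end Pool.Agent.K4H76.LR
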