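import Pool.Agent.K4H76.LR.Prob

/-!
# Independence in finite product spaces
-/

set_option autoImplicit false
set_option linter.unusedSectionVars false

namespace Pool.Agent.K4H76.LR

open Finset

section
variable {ι β : Type} [Fintype ι] [DecidableEq ι] [Fintype β]

/-- functions of disjoint sets of coordinates are independent -/
theorem indep {w : ι → β → ℝ} (hw : Wt w) (p : ι → Prop) [DecidablePred p]
    (f g : (ι → β) → ℝ)
    (hf : ∀ ω ω', (∀ i, p i → ω i = ω' i) → f ω = f ω')
    (hg : ∀ ω ω', (∀ i, ¬ p i → ω i = ω' i) → g ω = g ω') :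
    Ex w (fun ω => f ω * g ω) = Ex w f * Ex w g := by
  classical
  by_cases hne : Nonempty (ι → β)
  swap
  · have : IsEmpty (ι → β) := not_nonempty_iff.1 hne
    unfold Ex
    simp
  obtain ⟨ω₀⟩ := hne
  set e := Equiv.piEquivPiSubtypeProd p (fun _ : ι => β) with he
  set WA : ((i : {x // p x}) → β) → ℝ := fun a => ∏ i, w i.1 (a i) with hWA
  set WB : ((i : {x // ¬ p x}) → β) → ℝ := fun b => ∏ i, w i.1 (b i) with hWB
  set b₀ : (i : {x // ¬ p x}) → β := fun i => ω₀ i.1 with hb₀
  set a₀ : (i : {x // p x}) → β := fun i => ω₀ i.1 with ha₀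
  have hval1 : ∀ a b (i : ι) (h : p i), e.symm (a, b) i = a ⟨i, h⟩ := by
    intro a b i h
    simp [he, Equiv.piEquivPiSubtypeProd, h]
  have hval2 : ∀ a b (i : ι) (h : ¬ p i), e.symm (a, b) i = b ⟨i, h⟩ := by
    intro a b i h
    simp [he, Equiv.piEquivPiSubtypeProd, h]
  have hW : ∀ a b, ∏ i, w i (e.symm (a, b) i) = WA a * WB b := by
    intro a b
    rw [← Fintype.prod_subtype_mul_prod_subtype p (fun i => w i (e.symm (a, b) i))]
    congr 1
    · apply Finset.prod_congr rfl
      intro i _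
      rw [hval1 a b i.1 i.2]
    · apply Finset.prod_congr rfl
      intro i _
      rw [hval2 a b i.1 i.2]
  have hEx : ∀ h : (ι → β) → ℝ, Ex w h = ∑ a, ∑ b, WA a * WB b * h (e.symm (a, b)) := by
    intro h
    unfold Ex
    rw [← Equiv.sum_comp e.symm, Fintype.sum_prod_type]
    apply Finset.sum_congr rfl
    intro a _
    apply Finset.sum_congr rfl
    intro b _
    rw [hW]
  have hf' : ∀ a b, f (e.symm (a, b)) = f (e.symm (a, b₀)) := by
    intro a b
    apply hf
    intro i hi
    rw [hval1 a b i hi, hval1 a b₀ i hi]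
  have hg' : ∀ a b, g (e.symm (a, b)) = g (e.symm (a₀, b)) := by
    intro a b
    apply hg
    intro i hi
    rw [hval2 a b i hi, hval2 a₀ b i hi]
  have h1 : (∑ a, WA a) * ∑ b, WB b = 1 := by
    have := hEx (fun _ => 1)
    rw [Ex_one hw] at this
    rw [Finset.sum_mul_sum, this]
    apply Finset.sum_congr rfl
    intro a _
    apply Finset.sum_congr rfl
    intro b _
    ring
  have h2 : Ex w f = (∑ a, WA a * f (e.symm (a, b₀))) * ∑ b, WB b := by
    rw [hEx, Finset.sum_mul_sum]
    apply Finset.sum_congr rfl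
    intro a _
    apply Finset.sum_congr rfl
    intro b _
    rw [hf' a b]
    ring
  have h3 : Ex w g = (∑ a, WA a) * ∑ b, WB b * g (e.symm (a₀, b)) := by
    rw [hEx, Finset.sum_mul_sum]
    apply Finset.sum_congr rfl
    intro a _
    apply Finset.sum_congr rfl
    intro b _
    rw [hg' a b]
    ring
  have h4 : Ex w (fun ω => f ω * g ω) =
      (∑ a, WA a * f (e.symm (a, b₀))) * ∑ b, WB b * g (e.symm (a₀, b)) := by
    rw [hEx, Finset.sum_mul_sum]
    apply Finset.sum_congr rfl
    intro a _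
    apply Finset.sum_congr rfl
    intro b _
    rw [hf' a b, hg' a b]
    ring
  rw [h2, h3, h4]
  calc (∑ a, WA a * f (e.symm (a, b₀))) * ∑ b, WB b * g (e.symm (a₀, b)) =
        (∑ a, WA a * f (e.symm (a, b₀))) * (∑ b, WB b * g (e.symm (a₀, b))) *
          ((∑ a, WA a) * ∑ b, WB b) := by rw [h1, mul_one]
    _ = _ := by ring

open Classical in
theorem Pr_indep {w : ι → β → ℝ} (hw : Wt w) (p : ι → Prop)
    (P Q : (ι → β) → Prop)
    (hP : ∀ ω ω', (∀ i, p i → ω i = ω' i) → (P ω ↔ P ω'))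
    (hQ : ∀ ω ω', (∀ i, ¬ p i → ω i = ω' i) → (Q ω ↔ Q ω')) :
    Pr w (fun ω => P ω ∧ Q ω) = Pr w P * Pr w Q := by
  unfold Pr
  rw [← indep hw p (fun ω => if P ω then (1 : ℝ) else 0) (fun ω => if Q ω then (1 : ℝ) else 0)]
  · congr 1
    funext ω
    by_cases h1 : P ω <;> by_cases h2 : Q ω <;> simp [h1, h2]
  · intro ω ω' h
    by_cases h1 : P ω
    · rw [if_pos h1, if_pos ((hP ω ω' h).1 h1)]
    · rw [if_neg h1, if_neg (fun h2 => h1 ((hP ω ω' h).2 h2))]
  · intro ω ω' h
    by_cases h1 : Q ω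
    · rw [if_pos h1, if_pos ((hQ ω ω' h).1 h1)]
    · rw [if_neg h1, if_neg (fun h2 => h1 ((hQ ω ω' h).2 h2))]

/-- the probability of a value of one coordinate -/
theorem Pr_coord {w : ι → β → ℝ} (hw : Wt w) (i : ι) (A : β → Prop) :
    Pr w (fun ω => A (ω i)) = P1 w i A := by
  classical
  unfold Pr
  have h1 : (fun ω : ι → β => if A (ω i) then (1 : ℝ) else 0) =
      fun ω => ∏ k, (if k = i then (if A (ω k) then (1 : ℝ) else 0) else 1) := by
    funext ω
    rw [Finset.prod_ite_eq' univ i (fun k => if A (ω k) then (1 : ℝ) else 0)]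
    simp
  have h2 := Ex_prod w (fun k b => if k = i then (if A b then (1 : ℝ) else 0) else 1)
  have h3 : Ex w (fun ω : ι → β => if A (ω i) then (1 : ℝ) else 0) =
      ∏ k, ∑ b, w k b * (if k = i then (if A b then (1 : ℝ) else 0) else 1) := by
    rw [h1]
    exact h2
  rw [h3, Finset.prod_eq_single i]
  · unfold P1
    apply Finset.sum_congr rfl
    intro b _
    by_cases h : A b <;> simp [h]
  · intro k _ hk
    refine Eq.trans ?_ (hw.one k)
    apply Finset.sum_congr rfl
    intro b _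
    rw [if_neg hk, mul_one]
  · intro h
    exact absurd (mem_univ i) h

end

end Pool.Agent.K4H76.LR
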