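import Pool.Agent.K4H76.LR.Num

/-!
# The maximum degree: numerical lemmas
-/

set_option autoImplicit false
set_option linter.unusedSectionVars false

namespace Pool.Agent.K4H76.LR

open Finset Pool.Agent.H162R2.Sparse

theorem fact_up (k : ℕ) (hk : 0 < k) :
    (k.factorial : ℝ) ≤ Real.exp 1 * k * (k / Real.exp 1) ^ k := by
  induction k with
  | zero => omega
  | succ k ih =>
      rcases Nat.eq_zero_or_pos k with h | h
      · subst h
        norm_num
      · have hk0 : (0 : ℝ) < k := by exact_mod_cast h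
        have ih' := ih h
        have h1 : Real.exp (1 / (k + 1)) ≤ (k + 1) / k := by
          have h2 := Real.add_one_le_exp (-(1 / ((k : ℝ) + 1)))
          rw [Real.exp_neg] at h2
          have h3 : -(1 / ((k : ℝ) + 1)) + 1 = k / (k + 1) := by
            field_simp
            ring
          rw [h3, ← one_div, div_le_div_iff₀ (by positivity) (Real.exp_pos _)] at h2
          rw [le_div_iff₀ hk0]
          linarith
        have h4 : Real.exp 1 ≤ ((k + 1) / k) ^ (k + 1) := by
          refine le_trans (le_of_eq ?_) (pow_le_pow_left₀ (Real.exp_pos _).le h1 (k + 1))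
          rw [← Real.exp_nat_mul]
          congr 1
          push_cast
          field_simp
        have h5 : Real.exp 1 * (k : ℝ) ^ (k + 1) ≤ (k + 1) ^ (k + 1) := by
          have h6 := mul_le_mul_of_nonneg_right h4 (show (0 : ℝ) ≤ (k : ℝ) ^ (k + 1) by positivity)
          refine h6.trans (le_of_eq ?_)
          rw [← mul_pow, div_mul_cancel₀ _ hk0.ne']
        rw [Nat.factorial_succ]
        push_cast
        calc ((k : ℝ) + 1) * k.factorial ≤
              (k + 1) * (Real.exp 1 * k * (k / Real.exp 1) ^ k) := by gcongr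
          _ = (k + 1) * (Real.exp 1 * (k : ℝ) ^ (k + 1)) / Real.exp 1 ^ k := by
              rw [div_pow, pow_succ]
              ring
          _ ≤ (k + 1) * ((k + 1) ^ (k + 1)) / Real.exp 1 ^ k := by gcongr
          _ = Real.exp 1 * (k + 1) * ((k + 1) / Real.exp 1) ^ (k + 1) := by
              rw [div_pow, pow_succ (Real.exp 1)]
              field_simp

theorem one_sub_pow' (p : ℝ) (h0 : 0 ≤ p) (h : p ≤ 1) (n : ℕ) (hn : n * p ^ 2 ≤ 1 / 2) :
    Real.exp (-(n * p)) / 2 ≤ (1 - p) ^ n := by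
  have h1 : Real.exp (-p) * (1 - p ^ 2) ≤ 1 - p := by
    have h2 : 1 + p ≤ Real.exp p := by
      have := Real.add_one_le_exp p
      linarith
    have h3 : Real.exp (-p) * (1 + p) ≤ 1 := by
      rw [Real.exp_neg, ← div_eq_inv_mul]
      exact (div_le_one (Real.exp_pos _)).2 h2
    have h4 : 0 ≤ 1 - p := by linarith
    calc Real.exp (-p) * (1 - p ^ 2) = (Real.exp (-p) * (1 + p)) * (1 - p) := by ring
      _ ≤ 1 * (1 - p) := mul_le_mul_of_nonneg_right h3 h4
      _ = 1 - p := one_mul _
  have hp2 : p ^ 2 ≤ 1 := by nlinarith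
  have h5 : (1 : ℝ) / 2 ≤ (1 - p ^ 2) ^ n := by
    have := one_add_mul_le_pow (a := -p ^ 2) (by nlinarith) n
    have e : 1 + -p ^ 2 = 1 - p ^ 2 := by ring
    rw [e] at this
    linarith
  calc Real.exp (-(n * p)) / 2 = Real.exp (-(n * p)) * (1 / 2) := by ring
    _ ≤ Real.exp (-(n * p)) * (1 - p ^ 2) ^ n := by gcongr
    _ = (Real.exp (-p) * (1 - p ^ 2)) ^ n := by
        rw [mul_pow, ← Real.exp_nat_mul]
        congr 2
        ring
    _ ≤ (1 - p) ^ n := by
        apply pow_le_pow_left₀ _ h1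
        apply mul_nonneg (Real.exp_pos _).le
        linarith

/-- the lower bound for the binomial probability -/
theorem bin_low (l : ℝ) (hl : 0 < l) (k : ℕ) (hk : 0 < k) :
    Real.exp (-((k - l) ^ 2 / l)) / (Real.exp 1 * k) ≤ l ^ k / k.factorial * Real.exp (-l) := by
  have hk0 : (0 : ℝ) < k := by exact_mod_cast hk
  have h1 := fact_up k hk
  have hf : (0 : ℝ) < (k.factorial : ℝ) := by exact_mod_cast k.factorial_pos
  have h2 : Real.exp (1 - (k - l) / l) ≤ Real.exp 1 * l / k := by
    rw [Real.exp_sub, div_le_div_iff₀ (Real.exp_pos _) hk0]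
    have h3 := Real.add_one_le_exp ((k - l) / l)
    have h4 : (k - l) / l + 1 = k / l := by
      field_simp
      ring
    rw [h4, div_le_iff₀ hl] at h3
    calc Real.exp 1 * k ≤ Real.exp 1 * (Real.exp ((k - l) / l) * l) := by gcongr
      _ = _ := by ring
  have h3 : Real.exp (k - k * (k - l) / l) ≤ (Real.exp 1 * l / k) ^ k := by
    refine le_trans (le_of_eq ?_) (pow_le_pow_left₀ (Real.exp_pos _).le h2 k)
    rw [← Real.exp_nat_mul]
    congr 1
    ring
  have h4 : (Real.exp 1 * l / k) ^ k / (Real.exp 1 * k) ≤ l ^ k / k.factorial := by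
    rw [div_le_div_iff₀ (by positivity) hf]
    calc (Real.exp 1 * l / k) ^ k * k.factorial ≤
          (Real.exp 1 * l / k) ^ k * (Real.exp 1 * k * (k / Real.exp 1) ^ k) := by gcongr
      _ = (Real.exp 1 * l / k * (k / Real.exp 1)) ^ k * (Real.exp 1 * k) := by
          rw [mul_pow]
          ring
      _ = l ^ k * (Real.exp 1 * k) := by
          congr 2
          field_simp
  have h5 : Real.exp (-((k - l) ^ 2 / l)) = Real.exp (k - k * (k - l) / l) * Real.exp (-l) := by
    rw [← Real.exp_add]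
    congr 1
    field_simp
    ring
  rw [h5]
  calc Real.exp (k - k * (k - l) / l) * Real.exp (-l) / (Real.exp 1 * k) =
        Real.exp (k - k * (k - l) / l) / (Real.exp 1 * k) * Real.exp (-l) := by ring
    _ ≤ (Real.exp 1 * l / k) ^ k / (Real.exp 1 * k) * Real.exp (-l) := by gcongr
    _ ≤ l ^ k / k.factorial * Real.exp (-l) := by gcongr

theorem sqrt_cond (l x s D : ℝ) (hl : 0 < l) (hx : 0 < x) (hs : 0 < s) (hs2 : s ^ 2 = l * x)
    (hlx : x / 100000 ≤ l) (hD : l + s / 2 ≤ D) :
    l + s / 4 + 1 / 60 * Real.sqrt (D * x) ≤ D := by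
  have h1 : x ≤ 317 * s := by
    rw [← pow_le_pow_iff_left₀ hx.le (by positivity) (by norm_num : 2 ≠ 0)]
    rw [mul_pow, hs2]
    nlinarith
  obtain ⟨t, ht⟩ : ∃ t : ℝ, t = D - l - s / 2 := ⟨_, rfl⟩
  have ht0 : 0 ≤ t := by rw [ht]; linarith
  have hDt : D = l + s / 2 + t := by rw [ht]; ring
  have h2 : D * x ≤ (60 * (D - l - s / 4)) ^ 2 := by
    rw [hDt]
    have e1 : (60 * (l + s / 2 + t - l - s / 4)) ^ 2 = 225 * s ^ 2 + 1800 * (s * t) + 3600 * t ^ 2 := by
      ring
    rw [e1]
    have e2 : s * x ≤ 317 * s ^ 2 := by nlinarith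
    have e3 : t * x ≤ 317 * (s * t) := by nlinarith
    have e4 : 0 ≤ s * t := by positivity
    have e5 : 0 < s ^ 2 := by positivity
    nlinarith [sq_nonneg t]
  have h3 : Real.sqrt (D * x) ≤ 60 * (D - l - s / 4) := by
    rw [← Real.sqrt_sq (show (0 : ℝ) ≤ 60 * (D - l - s / 4) by linarith)]
    exact Real.sqrt_le_sqrt h2
  linarith

end Pool.Agent.K4H76.LR
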