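import Mathlib

/-!
# Finite product spaces: expectations, Chernoff bounds
-/

set_option autoImplicit false
set_option linter.unusedSectionVars false

namespace Pool.Agent.K4H76.LR

open Finset

section
variable {ι β : Type} [Fintype ι] [DecidableEq ι] [Fintype β]

/-- expectation on a finite product space with weights `w` -/
noncomputable def Ex (w : ι → β → ℝ) (f : (ι → β) → ℝ) : ℝ :=
  ∑ ω : ι → β, (∏ i, w i (ω i)) * f ω

/-- probability weights -/
structure Wt (w : ι → β → ℝ) : Prop where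
  nn : ∀ i b, 0 ≤ w i b
  one : ∀ i, ∑ b, w i b = 1

open Classical in
/-- probability -/
noncomputable def Pr (w : ι → β → ℝ) (P : (ι → β) → Prop) : ℝ :=
  Ex w (fun ω => if P ω then 1 else 0)

open Classical in
/-- probability of an event for one coordinate -/
noncomputable def P1 (w : ι → β → ℝ) (i : ι) (A : β → Prop) : ℝ :=
  ∑ b, if A b then w i b else 0

theorem Ex_prod (w : ι → β → ℝ) (g : ι → β → ℝ) :
    Ex w (fun ω => ∏ i, g i (ω i)) = ∏ i, ∑ b, w i b * g i b := by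
  classical
  unfold Ex
  rw [Finset.prod_univ_sum, Fintype.piFinset_univ]
  apply Finset.sum_congr rfl
  intro ω _
  rw [← Finset.prod_mul_distrib]

theorem Ex_one {w : ι → β → ℝ} (hw : Wt w) : Ex w (fun _ => 1) = 1 := by
  have h := Ex_prod w (fun _ _ => 1)
  simp only [Finset.prod_const_one, mul_one] at h
  rw [h]
  apply Finset.prod_eq_one
  intro i _
  exact hw.one i

theorem Ex_mul (w : ι → β → ℝ) (c : ℝ) (f : (ι → β) → ℝ) :
    Ex w (fun ω => c * f ω) = c * Ex w f := by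
  unfold Ex
  rw [Finset.mul_sum]
  apply Finset.sum_congr rfl
  intro ω _
  ring

theorem Ex_const {w : ι → β → ℝ} (hw : Wt w) (c : ℝ) : Ex w (fun _ => c) = c := by
  have h := Ex_mul w c (fun _ => 1)
  rw [Ex_one hw] at h
  simpa using h

theorem Ex_add (w : ι → β → ℝ) (f g : (ι → β) → ℝ) :
    Ex w (fun ω => f ω + g ω) = Ex w f + Ex w g := by
  unfold Ex
  rw [← Finset.sum_add_distrib]
  apply Finset.sum_congr rfl
  intro ω _
  ring

theorem Ex_sum {J : Type} (s : Finset J) (w : ι → β → ℝ) (f : J → (ι → β) → ℝ) :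
    Ex w (fun ω => ∑ j ∈ s, f j ω) = ∑ j ∈ s, Ex w (f j) := by
  unfold Ex
  rw [Finset.sum_comm]
  apply Finset.sum_congr rfl
  intro ω _
  rw [Finset.mul_sum]

theorem Ex_mono {w : ι → β → ℝ} (hw : Wt w) {f g : (ι → β) → ℝ} (h : ∀ ω, f ω ≤ g ω) :
    Ex w f ≤ Ex w g := by
  unfold Ex
  apply Finset.sum_le_sum
  intro ω _
  exact mul_le_mul_of_nonneg_left (h ω) (Finset.prod_nonneg (fun i _ => hw.nn i _))

theorem Ex_nonneg {w : ι → β → ℝ} (hw : Wt w) {f : (ι → β) → ℝ} (h : ∀ ω, 0 ≤ f ω) :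
    0 ≤ Ex w f := by
  have := Ex_mono hw h
  rwa [Ex_const hw] at this

theorem Pr_nonneg {w : ι → β → ℝ} (hw : Wt w) (P : (ι → β) → Prop) : 0 ≤ Pr w P := by
  classical
  apply Ex_nonneg hw
  intro ω
  split_ifs <;> norm_num

theorem Pr_mono {w : ι → β → ℝ} (hw : Wt w) {P Q : (ι → β) → Prop} (h : ∀ ω, P ω → Q ω) :
    Pr w P ≤ Pr w Q := by
  classical
  apply Ex_mono hw
  intro ω
  by_cases h1 : P ω
  · rw [if_pos h1, if_pos (h ω h1)]
  · rw [if_neg h1]
    split_ifs <;> norm_num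

theorem Pr_le_one {w : ι → β → ℝ} (hw : Wt w) (P : (ι → β) → Prop) : Pr w P ≤ 1 := by
  classical
  have h := Ex_mono hw (f := fun ω => if P ω then (1 : ℝ) else 0) (g := fun _ => 1) (by
    intro ω
    split_ifs <;> norm_num)
  rw [Ex_one hw] at h
  exact h

theorem Pr_not {w : ι → β → ℝ} (hw : Wt w) (P : (ι → β) → Prop) :
    Pr w (fun ω => ¬ P ω) = 1 - Pr w P := by
  classical
  have h : Pr w P + Pr w (fun ω => ¬ P ω) = 1 := by
    unfold Pr
    rw [← Ex_add]
    have h0 : (fun ω => (if P ω then (1 : ℝ) else 0) + if ¬ P ω then (1 : ℝ) else 0) =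
        fun _ => 1 := by
      funext ω
      by_cases h1 : P ω <;> simp [h1]
    refine Eq.trans ?_ (Ex_one hw)
    rw [← h0]
    congr! 4
  linarith

theorem Pr_or {w : ι → β → ℝ} (hw : Wt w) (P Q : (ι → β) → Prop) :
    Pr w (fun ω => P ω ∨ Q ω) ≤ Pr w P + Pr w Q := by
  classical
  unfold Pr
  rw [← Ex_add]
  apply Ex_mono hw
  intro ω
  by_cases h1 : P ω <;> by_cases h2 : Q ω <;> simp [h1, h2]

theorem Pr_exists {J : Type} (s : Finset J) {w : ι → β → ℝ} (hw : Wt w)
    (P : J → (ι → β) → Prop) :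
    Pr w (fun ω => ∃ j ∈ s, P j ω) ≤ ∑ j ∈ s, Pr w (P j) := by
  classical
  unfold Pr
  rw [← Ex_sum]
  apply Ex_mono hw
  intro ω
  by_cases h1 : ∃ j ∈ s, P j ω
  · rw [if_pos h1]
    obtain ⟨j, hj, hj2⟩ := h1
    have h2 : (if P j ω then (1 : ℝ) else 0) ≤ ∑ j ∈ s, if P j ω then (1 : ℝ) else 0 :=
      Finset.single_le_sum (f := fun j => if P j ω then (1 : ℝ) else 0)
        (fun j _ => by split_ifs <;> norm_num) hj
    rw [if_pos hj2] at h2
    exact h2
  · rw [if_neg h1]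
    exact Finset.sum_nonneg (fun j _ => by split_ifs <;> norm_num)

/-- Markov's inequality -/
theorem markov {w : ι → β → ℝ} (hw : Wt w) (P : (ι → β) → Prop) (f : (ι → β) → ℝ) (c : ℝ)
    (hc : 0 < c) (hf : ∀ ω, 0 ≤ f ω) (h : ∀ ω, P ω → c ≤ f ω) : Pr w P ≤ Ex w f / c := by
  classical
  rw [le_div_iff₀ hc, mul_comm]
  unfold Pr
  rw [← Ex_mul]
  apply Ex_mono hw
  intro ω
  by_cases h1 : P ω
  · rw [if_pos h1, mul_one]
    exact h ω h1
  · rw [if_neg h1, mul_zero]
    exact hf ω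

/-- an outcome which is not worse than the mean -/
theorem exists_le {w : ι → β → ℝ} (hw : Wt w) (f : (ι → β) → ℝ) (t : ℝ) (h : Ex w f ≤ t) :
    ∃ ω, f ω ≤ t := by
  by_contra hcon
  push Not at hcon
  have h1 : Ex w (fun _ => t) < Ex w f := by
    unfold Ex
    have h2 : ∀ ω ∈ (univ : Finset (ι → β)), (∏ i, w i (ω i)) * t ≤ (∏ i, w i (ω i)) * f ω :=
      fun ω _ => mul_le_mul_of_nonneg_left (hcon ω).le (Finset.prod_nonneg (fun i _ => hw.nn i _))
    apply Finset.sum_lt_sum h2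
    by_contra h3
    push Not at h3
    have h4 : ∀ ω : ι → β, (∏ i, w i (ω i)) = 0 := by
      intro ω
      by_contra h5
      have h6 : 0 < ∏ i, w i (ω i) :=
        lt_of_le_of_ne (Finset.prod_nonneg (fun i _ => hw.nn i _)) (Ne.symm h5)
      have h7 := h3 ω (mem_univ _)
      have h8 := mul_lt_mul_of_pos_left (hcon ω) h6
      linarith
    have h5 := Ex_one hw
    unfold Ex at h5
    rw [Finset.sum_eq_zero] at h5
    · norm_num at h5
    · intro ω _
      rw [h4 ω, zero_mul]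
  rw [Ex_const hw] at h1
  linarith

open Classical in
/-- the number of successes -/
noncomputable def Nm (S : Finset ι) (A : ι → β → Prop) (ω : ι → β) : ℕ :=
  (S.filter (fun i => A i (ω i))).card

theorem mgf {w : ι → β → ℝ} (hw : Wt w) (S : Finset ι) (A : ι → β → Prop) (t : ℝ) :
    Ex w (fun ω => Real.exp (t * Nm S A ω)) ≤
      Real.exp ((∑ i ∈ S, P1 w i (A i)) * (Real.exp t - 1)) := by
  classical
  have h1 : ∀ ω : ι → β, Real.exp (t * Nm S A ω) =
      ∏ i, (if i ∈ S ∧ A i (ω i) then Real.exp t else 1) := by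
    intro ω
    unfold Nm
    rw [Finset.prod_ite, Finset.prod_const_one, mul_one, Finset.prod_const, mul_comm, Real.exp_nat_mul]
    congr 1
    congr 1
    ext i
    simp
  simp only [h1]
  rw [Ex_prod w (fun i b => if i ∈ S ∧ A i b then Real.exp t else 1), Finset.sum_mul,
    Real.exp_sum]
  rw [← Finset.prod_subset (Finset.subset_univ S)]
  · apply Finset.prod_le_prod
    · intro i _
      apply Finset.sum_nonneg
      intro b _
      apply mul_nonneg (hw.nn i b)
      split_ifs <;> positivity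
    · intro i hi
      have h2 : ∑ b, w i b * (if i ∈ S ∧ A i b then Real.exp t else 1) =
          P1 w i (A i) * (Real.exp t - 1) + 1 := by
        have h0 : P1 w i (A i) * (Real.exp t - 1) + 1 =
            P1 w i (A i) * (Real.exp t - 1) + ∑ b, w i b := by rw [hw.one i]
        rw [h0]
        unfold P1
        rw [Finset.sum_mul, ← Finset.sum_add_distrib]
        apply Finset.sum_congr rfl
        intro b _
        by_cases h3 : A i b
        · rw [if_pos ⟨hi, h3⟩, if_pos h3]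
          ring
        · rw [if_neg (fun h => h3 h.2), if_neg h3]
          ring
      rw [h2]
      exact Real.add_one_le_exp _
  · intro i _ hi
    refine Eq.trans ?_ (hw.one i)
    apply Finset.sum_congr rfl
    intro b _
    rw [if_neg (fun h => hi h.1), mul_one]

theorem P1_nonneg {w : ι → β → ℝ} (hw : Wt w) (i : ι) (A : β → Prop) : 0 ≤ P1 w i A := by
  classical
  unfold P1
  apply Finset.sum_nonneg
  intro b _
  split_ifs
  · exact hw.nn i b
  · exact le_refl _

theorem exp_quad {t : ℝ} (h : |t| ≤ 1) : Real.exp t - 1 ≤ t + t ^ 2 := by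
  have h1 := Real.abs_exp_sub_one_sub_id_le h
  rw [abs_le] at h1
  linarith [h1.2]

/-- upper tail -/
theorem upper {w : ι → β → ℝ} (hw : Wt w) (S : Finset ι) (A : ι → β → Prop) (M a : ℝ)
    (hM : 0 < M) (ha : 0 ≤ a) (haM : a ≤ 2 * M) (hμ : ∑ i ∈ S, P1 w i (A i) ≤ M) :
    Pr w (fun ω => M + a ≤ Nm S A ω) ≤ Real.exp (-(a ^ 2) / (4 * M)) := by
  set t : ℝ := a / (2 * M) with ht
  have ht0 : 0 ≤ t := by positivity
  have ht1 : t ≤ 1 := by rw [ht, div_le_one (by positivity)]; exact haM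
  have h1 := markov hw (fun ω => M + a ≤ Nm S A ω) (fun ω => Real.exp (t * Nm S A ω))
    (Real.exp (t * (M + a))) (Real.exp_pos _) (fun ω => (Real.exp_pos _).le) (fun ω hω =>
      Real.exp_le_exp.2 (mul_le_mul_of_nonneg_left hω ht0))
  refine h1.trans ?_
  rw [div_le_iff₀ (Real.exp_pos _), ← Real.exp_add]
  refine (mgf hw S A t).trans (Real.exp_le_exp.2 ?_)
  have h2 := exp_quad (t := t) (by rw [abs_of_nonneg ht0]; exact ht1)
  have h3 : 0 ≤ Real.exp t - 1 := by
    have := Real.add_one_le_exp t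
    linarith
  calc (∑ i ∈ S, P1 w i (A i)) * (Real.exp t - 1) ≤ M * (Real.exp t - 1) :=
        mul_le_mul_of_nonneg_right hμ h3
    _ ≤ M * (t + t ^ 2) := mul_le_mul_of_nonneg_left h2 hM.le
    _ = -(a ^ 2) / (4 * M) + t * (M + a) := by
        rw [ht]
        field_simp
        ring

/-- lower tail -/
theorem lower {w : ι → β → ℝ} (hw : Wt w) (S : Finset ι) (A : ι → β → Prop) (M a m : ℝ)
    (hM : 0 < M) (ha : 0 ≤ a) (haM : a ≤ 2 * M) (hμ : ∑ i ∈ S, P1 w i (A i) ≤ M)
    (hm : m + a ≤ ∑ i ∈ S, P1 w i (A i)) :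
    Pr w (fun ω => (Nm S A ω : ℝ) ≤ m) ≤ Real.exp (-(a ^ 2) / (4 * M)) := by
  set t : ℝ := a / (2 * M) with ht
  set μ : ℝ := ∑ i ∈ S, P1 w i (A i) with hμd
  have ht0 : 0 ≤ t := by positivity
  have ht1 : t ≤ 1 := by rw [ht, div_le_one (by positivity)]; exact haM
  have hμ0 : 0 ≤ μ := Finset.sum_nonneg (fun i _ => P1_nonneg hw i (A i))
  have h1 := markov hw (fun ω => (Nm S A ω : ℝ) ≤ m) (fun ω => Real.exp (-t * Nm S A ω))
    (Real.exp (-t * m)) (Real.exp_pos _) (fun ω => (Real.exp_pos _).le) (fun ω hω =>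
      Real.exp_le_exp.2 (by
        have := mul_le_mul_of_nonneg_left hω ht0
        linarith))
  refine h1.trans ?_
  rw [div_le_iff₀ (Real.exp_pos _), ← Real.exp_add]
  refine (mgf hw S A (-t)).trans (Real.exp_le_exp.2 ?_)
  have h2 := exp_quad (t := -t) (by rw [abs_neg, abs_of_nonneg ht0]; exact ht1)
  have h3 : μ * (Real.exp (-t) - 1) ≤ μ * (-t + t ^ 2) := by
    refine mul_le_mul_of_nonneg_left ?_ hμ0
    linarith [h2, neg_sq t]
  have h4 : t * (m + a) ≤ t * μ := mul_le_mul_of_nonneg_left hm ht0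
  have h5 : μ * t ^ 2 ≤ M * t ^ 2 := mul_le_mul_of_nonneg_right hμ (sq_nonneg t)
  have h6 : M * t ^ 2 - t * a = -(a ^ 2) / (4 * M) := by
    rw [ht]
    field_simp
    ring
  rw [← hμd]
  nlinarith [h3, h4, h5, h6]

end

end Pool.Agent.K4H76.LR
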