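import Pool.Agent.K4H76.LR.Num1
import Pool.Agent.K4H76.LR.Params
import Pool.Agent.K4H76.LR.Reg2

/-!
# Random graphs whose average degree is at least `c log n`
-/

set_option autoImplicit false
set_option linter.unusedSectionVars false

namespace Pool.Agent.K4H76.LR

open Finset Pool.Agent.H162R2.Sparse

/-- the maximum degree is large -/
theorem max1 (g : ℝ) (hg0 : 0 < g) (hg1 : g ≤ 1) (η : ℝ) (hη : 0 < η) : ∃ x₀ : ℝ, ∀ n : ℕ,
    x₀ ≤ Real.log n → ∀ p : ℝ, 0 ≤ p → p ≤ 1 → Real.log n / 100000 ≤ n * p →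
    n * p ≤ Real.exp (g / 16 * Real.log n) → ∀ s : ℝ, 0 ≤ s → s ^ 2 = n * p * Real.log n →
    Pr (wB (Ed n) p) (fun ω => ∀ v : Fin n, dg (Gr ω) v < ⌈n * p + s / 2⌉₊) ≤ η := by
  obtain ⟨x1, hx1⟩ := ev_exp (1 / 32) (by norm_num) 161 0
  obtain ⟨x2, hx2⟩ := ev_exp (5 / 32) (by norm_num) (12 * Real.exp 318) 0
  obtain ⟨x3, hx3⟩ := ev_exp (1 / 4) (by norm_num) (2 / η) 0
  refine ⟨max 100000 (max x1 (max x2 x3)), ?_⟩
  intro n hn p h0 h1 hl1 hl2 s hs0 hs2
  obtain ⟨x, hx⟩ : ∃ x : ℝ, x = Real.log n := ⟨_, rfl⟩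
  rw [← hx] at hn hl1 hl2 hs2
  simp only [max_le_iff] at hn
  obtain ⟨k0, k1, k2, k3⟩ := hn
  have g1 := hx1 x k1
  have g2 := hx2 x k2
  have g3 := hx3 x k3
  rw [pow_zero, mul_one] at g1 g2 g3
  have hx0 : 0 < x := by linarith
  have hn0 : 0 < n := by
    rcases Nat.eq_zero_or_pos n with h | h
    · rw [h] at hx
      simp at hx
      linarith
    · exact h
  have hn0' : (0 : ℝ) < n := by exact_mod_cast hn0
  have hnx : (n : ℝ) = Real.exp x := by rw [hx, Real.exp_log hn0']
  obtain ⟨l, hl⟩ : ∃ l : ℝ, l = n * p := ⟨_, rfl⟩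
  rw [← hl] at hl1 hl2 hs2 ⊢
  have hl1' : 1 ≤ l := by linarith
  have hl0 : 0 < l := by linarith
  have hexp : ∀ a b : ℝ, a ≤ b → Real.exp a ≤ Real.exp b := fun a b h => Real.exp_le_exp.2 h
  have hsl : s ≤ 317 * l := by
    rw [← pow_le_pow_iff_left₀ hs0 (by positivity) (by norm_num : 2 ≠ 0), mul_pow, hs2]
    nlinarith
  obtain ⟨k, hk⟩ : ∃ k : ℕ, k = ⌈l + s / 2⌉₊ := ⟨_, rfl⟩
  rw [← hk]
  have hk1 : l + s / 2 ≤ k := by rw [hk]; exact Nat.le_ceil _
  have hk2 : (k : ℝ) < l + s / 2 + 1 := by rw [hk]; exact Nat.ceil_lt_add_one (by linarith)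
  have hkpos : 0 < k := by
    have : (0 : ℝ) < k := by linarith
    exact_mod_cast this
  have hk3 : (k : ℝ) ≤ Real.exp (3 / 32 * x) := by
    have e1 : (k : ℝ) ≤ 161 * l := by linarith
    refine e1.trans ?_
    calc 161 * l ≤ Real.exp (1 / 32 * x) * Real.exp (1 / 16 * x) := by
          have e2 : Real.exp (g / 16 * x) ≤ Real.exp (1 / 16 * x) := by
            apply hexp
            nlinarith
          have e3 : l ≤ Real.exp (1 / 16 * x) := hl2.trans e2
          gcongr
      _ = Real.exp (3 / 32 * x) := by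
          rw [← Real.exp_add]
          congr 1
          ring
  obtain ⟨m, hm⟩ : ∃ m : ℕ, m = ⌊Real.exp (3 / 4 * x)⌋₊ := ⟨_, rfl⟩
  have hm1 : (m : ℝ) ≤ Real.exp (3 / 4 * x) := by
    rw [hm]
    exact Nat.floor_le (Real.exp_pos _).le
  have hm2 : Real.exp (3 / 4 * x) / 2 ≤ m := by
    have h2 := Nat.lt_floor_add_one (Real.exp (3 / 4 * x))
    rw [← hm] at h2
    have h3 : 161 ≤ Real.exp (3 / 4 * x) := g1.trans (hexp _ _ (by linarith))
    linarith
  have hmk : (m : ℝ) + k ≤ 2 * Real.exp (3 / 4 * x) := by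
    have : Real.exp (3 / 32 * x) ≤ Real.exp (3 / 4 * x) := hexp _ _ (by linarith)
    linarith
  have hkθ : (k : ℝ) * ((m + k) / n) ≤ 1 / 2 := by
    rw [mul_div_assoc', div_le_iff₀ hn0', hnx]
    calc (k : ℝ) * (m + k) ≤ Real.exp (3 / 32 * x) * (2 * Real.exp (3 / 4 * x)) := by gcongr
      _ = 2 * Real.exp (27 / 32 * x) := by
          rw [show Real.exp (3 / 32 * x) * (2 * Real.exp (3 / 4 * x)) =
            2 * (Real.exp (3 / 32 * x) * Real.exp (3 / 4 * x)) by ring, ← Real.exp_add]
          congr 2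
          ring
      _ ≤ 1 / 2 * (Real.exp (1 / 32 * x) * Real.exp (27 / 32 * x)) := by
          have e2 : 0 < Real.exp (27 / 32 * x) := Real.exp_pos _
          nlinarith
      _ ≤ 1 / 2 * Real.exp x := by
          rw [← Real.exp_add]
          have : Real.exp (1 / 32 * x + 27 / 32 * x) ≤ Real.exp x := hexp _ _ (by linarith)
          linarith
  have hθ1 : ((m : ℝ) + k) / n ≤ 1 := by
    have hk1' : (1 : ℝ) ≤ k := by exact_mod_cast hkpos
    have : ((m : ℝ) + k) / n ≤ (k : ℝ) * ((m + k) / n) := by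
      have h2 : 0 ≤ ((m : ℝ) + k) / n := by positivity
      nlinarith
    linarith
  have hmkn : (m : ℝ) + k ≤ n := by
    rw [div_le_one hn0'] at hθ1
    exact hθ1
  have hmn : m ≤ n := by
    have : (m : ℝ) ≤ n := by
      have : (0 : ℝ) ≤ k := Nat.cast_nonneg _
      linarith
    exact_mod_cast this
  have hX := choose_low n m k p (n - m - k) h0 h1 hmn (by linarith) (by linarith)
  have hXlow : Real.exp (-(x / 2)) ≤ ((n - m - k) * p) ^ k / k.factorial * (1 - p) ^ n := by
    have e1 : ((n : ℝ) - m - k) * p = l * (1 - (m + k) / n) := by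
      rw [hl]
      field_simp
      ring
    have e2 : (1 : ℝ) / 2 ≤ (1 - (m + k) / n) ^ k := by
      have := one_add_mul_le_pow (a := -(((m : ℝ) + k) / n)) (by linarith) k
      have e : 1 + -(((m : ℝ) + k) / n) = 1 - (m + k) / n := by ring
      rw [e] at this
      linarith
    have e3 : Real.exp (-l) / 2 ≤ (1 - p) ^ n := by
      rw [hl]
      apply one_sub_pow' p h0 h1 n
      have e4 : (n : ℝ) * p ^ 2 = l ^ 2 / n := by
        rw [hl]
        field_simp
      rw [e4, div_le_iff₀ hn0', hnx]
      calc l ^ 2 ≤ (Real.exp (g / 16 * x)) ^ 2 := by gcongr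
        _ = Real.exp (g / 8 * x) := by
            rw [← Real.exp_nat_mul]
            congr 1
            push_cast
            ring
        _ ≤ 1 / 2 * (Real.exp (1 / 32 * x) * Real.exp (g / 8 * x)) := by
            have e5 : 0 < Real.exp (g / 8 * x) := Real.exp_pos _
            nlinarith
        _ ≤ 1 / 2 * Real.exp x := by
            rw [← Real.exp_add]
            have : Real.exp (1 / 32 * x + g / 8 * x) ≤ Real.exp x := by
              apply hexp
              nlinarith
            linarith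
    have e6 := bin_low l hl0 k hkpos
    have e7 : Real.exp (-(x / 4 + 318)) ≤ Real.exp (-((k - l) ^ 2 / l)) := by
      apply hexp
      apply neg_le_neg
      rw [div_le_iff₀ hl0]
      have e8 : (k : ℝ) - l ≤ s / 2 + 1 := by linarith
      have e9 : 0 ≤ (k : ℝ) - l := by linarith
      calc ((k : ℝ) - l) ^ 2 ≤ (s / 2 + 1) ^ 2 := pow_le_pow_left₀ e9 e8 2
        _ = s ^ 2 / 4 + s + 1 := by ring
        _ ≤ (x / 4 + 318) * l := by
            rw [hs2]
            nlinarith
    have e10 : Real.exp 1 * k ≤ 3 * Real.exp (3 / 32 * x) := by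
      have := Real.exp_one_lt_three
      gcongr
    have e11 : Real.exp (-(x / 4 + 318)) / (3 * Real.exp (3 / 32 * x)) ≤
        l ^ k / k.factorial * Real.exp (-l) := by
      refine le_trans ?_ e6
      gcongr
    have hf : (0 : ℝ) < (k.factorial : ℝ) := by exact_mod_cast k.factorial_pos
    rw [e1, mul_pow]
    calc Real.exp (-(x / 2)) ≤ Real.exp (-(x / 4 + 318)) / (3 * Real.exp (3 / 32 * x)) / 4 := by
          rw [le_div_iff₀ (by norm_num), le_div_iff₀ (by positivity)]
          calc Real.exp (-(x / 2)) * 4 * (3 * Real.exp (3 / 32 * x)) =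
                12 * Real.exp 318 * (Real.exp (-(x / 2)) * Real.exp (3 / 32 * x) *
                  Real.exp (-318)) := by
                have : Real.exp 318 * Real.exp (-318) = 1 := by
                  rw [← Real.exp_add, add_neg_cancel, Real.exp_zero]
                calc Real.exp (-(x / 2)) * 4 * (3 * Real.exp (3 / 32 * x)) =
                    12 * (Real.exp (-(x / 2)) * Real.exp (3 / 32 * x)) *
                      (Real.exp 318 * Real.exp (-318)) := by rw [this]; ring
                  _ = _ := by ring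
            _ ≤ Real.exp (5 / 32 * x) * (Real.exp (-(x / 2)) * Real.exp (3 / 32 * x) *
                  Real.exp (-318)) := by gcongr
            _ = Real.exp (5 / 32 * x + (-(x / 2) + 3 / 32 * x + -318)) := by
                rw [Real.exp_add, Real.exp_add, Real.exp_add]
            _ ≤ Real.exp (-(x / 4 + 318)) := by
                apply hexp
                linarith
      _ ≤ (l ^ k / k.factorial * Real.exp (-l)) / 4 := by gcongr
      _ = (l ^ k * (1 / 2)) / k.factorial * (Real.exp (-l) / 2) := by ring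
      _ ≤ l ^ k * (1 - (m + k) / n) ^ k / k.factorial * (1 - p) ^ n := by gcongr
  have A1 := max_deg n m k p (Real.exp (-(x / 2))) h0 h1 hmn (hXlow.trans hX)
  refine A1.trans ?_
  have h2 : Real.exp (1 / 4 * x) / 2 ≤ m * Real.exp (-(x / 2)) := by
    calc Real.exp (1 / 4 * x) / 2 = (Real.exp (3 / 4 * x) / 2) * Real.exp (-(x / 2)) := by
          have e : Real.exp (1 / 4 * x) = Real.exp (3 / 4 * x) * Real.exp (-(x / 2)) := by
            rw [← Real.exp_add]
            congr 1
            ring
          rw [e]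
          ring
      _ ≤ m * Real.exp (-(x / 2)) := by gcongr
  have h3 : 0 < Real.exp (1 / 4 * x) / 2 := by positivity
  refine (exp_neg_le_inv _ (lt_of_lt_of_le h3 h2)).trans ?_
  rw [div_le_iff₀ (lt_of_lt_of_le h3 h2)]
  calc (1 : ℝ) = η * (2 / η / 2) := by
        field_simp
    _ ≤ η * (Real.exp (1 / 4 * x) / 2) := by gcongr
    _ ≤ η * (m * Real.exp (-(x / 2))) := by gcongr

theorem regime1 (η : ℝ) (hη : 0 < η) : ∃ x₀ : ℝ, ∀ n : ℕ,
    x₀ ≤ Real.log n → ∀ p : ℝ, 0 ≤ p → p ≤ 1 →
    Real.log n / 100000 ≤ n * p → n * p ≤ Real.exp (1 / 29491200 / 16 * Real.log n) →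
    1 - η ≤ Pr (wB (Ed n) p) (fun ω => Good (Gr ω)) := by
  obtain ⟨g, hg⟩ : ∃ g : ℝ, g = 1 / 29491200 := ⟨_, rfl⟩
  rw [← hg]
  have hg0 : 0 < g := by rw [hg]; norm_num
  obtain ⟨x0, hx0⟩ := max1 g hg0 (by rw [hg]; norm_num) (η / 4) (by positivity)
  obtain ⟨x1, hx1⟩ := ev_exp (g / 16) (by positivity)
    (max 460804 (max (Real.exp 3) (16 / η))) 0
  obtain ⟨x2, hx2⟩ := ev_exp (g / 8) (by positivity) 16 1
  refine ⟨max 250000000 (max x0 (max x1 x2)), ?_⟩
  intro n hn p h0 h1 hl1 hl2
  have hw := wB_wt (ι := Ed n) p h0 h1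
  obtain ⟨x, hx⟩ : ∃ x : ℝ, x = Real.log n := ⟨_, rfl⟩
  simp only [max_le_iff] at hn
  obtain ⟨k0, k00, k1, k2⟩ := hn
  have A1 := hx0 n k00 p h0 h1 hl1 hl2
  rw [← hx] at A1 k0 k00 k1 k2 hl1 hl2
  have g1 := hx1 x k1
  have g2 := hx2 x k2
  rw [pow_zero, mul_one] at g1
  rw [pow_one] at g2
  simp only [max_le_iff] at g1
  obtain ⟨g1a, g1b, g1c⟩ := g1
  have hx00 : 0 < x := by linarith
  have hn0 : 0 < n := by
    rcases Nat.eq_zero_or_pos n with h | h
    · rw [h] at hx
      simp at hx
      linarith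
    · exact h
  have hn0' : (0 : ℝ) < n := by exact_mod_cast hn0
  have hnx : (n : ℝ) = Real.exp x := by rw [hx, Real.exp_log hn0']
  obtain ⟨l, hl⟩ : ∃ l : ℝ, l = n * p := ⟨_, rfl⟩
  rw [← hl] at hl1 hl2 A1
  have hl1' : 2500 ≤ l := by linarith
  have hl0 : 0 < l := by linarith
  have hexp : ∀ a b : ℝ, a ≤ b → Real.exp a ≤ Real.exp b := fun a b h => Real.exp_le_exp.2 h
  obtain ⟨s, hs⟩ : ∃ s : ℝ, s = Real.sqrt (l * x) := ⟨_, rfl⟩
  have hs0 : 0 < s := by rw [hs]; exact Real.sqrt_pos.2 (by positivity)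
  have hs2 : s ^ 2 = l * x := by rw [hs]; exact Real.sq_sqrt (by positivity)
  have A1' := A1 s hs0.le hs2
  have hsl : s ≤ 317 * l := by
    rw [← pow_le_pow_iff_left₀ hs0.le (by positivity) (by norm_num : 2 ≠ 0), mul_pow, hs2]
    nlinarith
  -- vertices of large degree
  have A2 := few_large n p h0 h1 (l + s / 4) (Real.exp (-(x / 10400))) (Real.exp (x - g * x))
    (Real.exp_pos _) (by
      intro v
      have h2 := deg_upper n p (l + s / 8) (s / 8) h0 h1 (by positivity) (by positivity)
        (by linarith) (by rw [← hl]; linarith) v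
      have h3 : l + s / 8 + s / 8 = l + s / 4 := by ring
      rw [h3] at h2
      refine h2.trans ?_
      apply hexp
      rw [div_le_iff₀ (by positivity)]
      have h4 : (s / 8) ^ 2 = l * x / 64 := by rw [div_pow, hs2]; norm_num
      rw [h4]
      nlinarith)
  have A2' : (n : ℝ) * Real.exp (-(x / 10400)) / Real.exp (x - g * x) ≤ η / 4 := by
    rw [hnx, ← Real.exp_add, ← Real.exp_sub]
    have h2 : Real.exp (x + -(x / 10400) - (x - g * x)) ≤ Real.exp (-(g / 16 * x)) := by
      apply hexp
      rw [hg]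
      linarith
    refine h2.trans ?_
    rw [Real.exp_neg, ← one_div, div_le_iff₀ (Real.exp_pos _)]
    calc (1 : ℝ) ≤ η / 4 * (16 / η) := by
          field_simp
          norm_num
      _ ≤ η / 4 * Real.exp (g / 16 * x) := by gcongr
  -- the maximum degree is small
  have A4 := few_large n p h0 h1 (Real.exp (g / 8 * x)) (Real.exp (-(Real.exp (g / 8 * x) / 8))) 1
    one_pos (by
      intro v
      have h2 := deg_upper n p (Real.exp (g / 8 * x) / 2) (Real.exp (g / 8 * x) / 2) h0 h1
        (by positivity) (by positivity) (by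
          have := Real.exp_pos (g / 8 * x)
          linarith) (by
          rw [← hl]
          refine hl2.trans ?_
          have h3 : Real.exp (g / 8 * x) = Real.exp (g / 16 * x) * Real.exp (g / 16 * x) := by
            rw [← Real.exp_add]
            congr 1
            ring
          rw [h3]
          have := Real.exp_pos (g / 16 * x)
          nlinarith) v
      have h3 : Real.exp (g / 8 * x) / 2 + Real.exp (g / 8 * x) / 2 = Real.exp (g / 8 * x) := by
        ring
      rw [h3] at h2
      refine h2.trans (le_of_eq ?_)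
      congr 1
      have := Real.exp_pos (g / 8 * x)
      field_simp
      ring)
  have A4' : (n : ℝ) * Real.exp (-(Real.exp (g / 8 * x) / 8)) / 1 ≤ η / 4 := by
    rw [hnx, div_one, ← Real.exp_add]
    have h2 : Real.exp (x + -(Real.exp (g / 8 * x) / 8)) ≤ Real.exp (-(g / 16 * x)) := by
      apply hexp
      have : g / 16 * x ≤ x := by
        rw [hg]
        linarith
      linarith
    refine h2.trans ?_
    rw [Real.exp_neg, ← one_div, div_le_iff₀ (Real.exp_pos _)]
    calc (1 : ℝ) ≤ η / 4 * (16 / η) := by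
          field_simp
          norm_num
      _ ≤ η / 4 * Real.exp (g / 16 * x) := by gcongr
  -- local sparsity
  obtain ⟨N, hN⟩ : ∃ N : ℕ, N = ⌊Real.exp (x - g / 2 * x)⌋₊ := ⟨_, rfl⟩
  have hN1 : (N : ℝ) ≤ Real.exp (x - g / 2 * x) := by
    rw [hN]
    exact Nat.floor_le (Real.exp_pos _).le
  have hN2 : Real.exp (x - g / 2 * x) / 2 ≤ N := by
    have h2 := Nat.lt_floor_add_one (Real.exp (x - g / 2 * x))
    rw [← hN] at h2
    have h3 : 460804 ≤ Real.exp (x - g / 2 * x) := g1a.trans (hexp _ _ (by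
      rw [hg]
      linarith))
    linarith
  have A3 := local_sparse n 2 N (by norm_num) p (Real.exp (-(g / 4 * x))) h0 h1
    (Real.exp_pos _).le (by
      rw [Real.exp_neg, ← one_div]
      apply one_div_le_one_div_of_le (by norm_num)
      have : Real.exp (g / 16 * x) ≤ Real.exp (g / 4 * x) := by
        apply hexp
        nlinarith
      linarith) (by
      intro s hs1 hs2
      have hs0 : (0 : ℝ) < s := by exact_mod_cast hs1
      have hs3 : (s : ℝ) ≤ Real.exp (x - g / 2 * x) := le_trans (by exact_mod_cast hs2) hN1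
      have he : Real.exp 3 = Real.exp 1 * Real.exp 1 * Real.exp 1 := by
        rw [← Real.exp_add, ← Real.exp_add]; norm_num
      have h2 : Real.exp 1 * n / s * (Real.exp 1 * s * p / (2 * (2 : ℕ))) ^ 2 =
          Real.exp 3 * l ^ 2 / 16 * s / n := by
        rw [he, hl]
        push_cast
        field_simp
        ring
      rw [h2]
      rw [div_le_iff₀ hn0']
      have h3 : l ^ 2 ≤ Real.exp (g / 8 * x) := by
        refine (pow_le_pow_left₀ hl0.le hl2 2).trans (le_of_eq ?_)
        rw [← Real.exp_nat_mul]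
        congr 1
        push_cast
        ring
      calc Real.exp 3 * l ^ 2 / 16 * s ≤
            Real.exp (g / 16 * x) * Real.exp (g / 8 * x) * Real.exp (x - g / 2 * x) := by
            have : Real.exp 3 * l ^ 2 / 16 ≤ Real.exp (g / 16 * x) * Real.exp (g / 8 * x) := by
              have h4 : 0 ≤ Real.exp 3 * l ^ 2 := by positivity
              have h5 : Real.exp 3 * l ^ 2 ≤ Real.exp (g / 16 * x) * Real.exp (g / 8 * x) := by
                gcongr
              linarith
            gcongr
        _ ≤ Real.exp (-(g / 4 * x)) * n := by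
            rw [hnx, ← Real.exp_add, ← Real.exp_add, ← Real.exp_add]
            apply hexp
            nlinarith)
  have A3' : 2 * Real.exp (-(g / 4 * x)) ≤ η / 4 := by
    rw [Real.exp_neg, ← div_eq_mul_inv, div_le_iff₀ (Real.exp_pos _)]
    calc (2 : ℝ) ≤ η / 4 * (16 / η) := by
          field_simp
          norm_num
      _ ≤ η / 4 * Real.exp (g / 16 * x) := by gcongr
      _ ≤ η / 4 * Real.exp (g / 4 * x) := by
          have : Real.exp (g / 16 * x) ≤ Real.exp (g / 4 * x) := by
            apply hexp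
            nlinarith
          gcongr
  -- the conclusion
  have hfin : Pr (wB (Ed n) p) (fun ω => ¬ Good (Gr ω)) ≤ η := by
    have h2 : Pr (wB (Ed n) p) (fun ω => ¬ Good (Gr ω)) ≤ Pr (wB (Ed n) p) (fun ω =>
        (∀ v : Fin n, dg (Gr ω) v < ⌈l + s / 2⌉₊) ∨ ((Real.exp (x - g * x) ≤
          ((univ.filter (fun v : Fin n => l + s / 4 ≤ dg (Gr ω) v)).card : ℝ)) ∨
        ((1 ≤ ((univ.filter (fun v : Fin n => Real.exp (g / 8 * x) ≤ dg (Gr ω) v)).card : ℝ)) ∨
        ∃ S : Finset (Fin n), 1 ≤ S.card ∧ S.card ≤ N ∧ 2 * S.card ≤ cn (ins S) ω))) := by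
      apply Pr_mono hw
      intro ω hω
      by_contra hcon
      push Not at hcon
      obtain ⟨⟨v, hv⟩, c2, c4, c3⟩ := hcon
      apply hω
      intro D hD hD' L hsym hL
      have hkD : ⌈l + s / 2⌉₊ ≤ D := hv.trans (hD v)
      have hkD' : l + s / 2 ≤ D := (Nat.le_ceil _).trans (by exact_mod_cast hkD)
      have hDup : (D : ℝ) < Real.exp (g / 8 * x) := by
        obtain ⟨u, hu⟩ := hD'
        by_contra hcon
        push Not at hcon
        have h3 : 0 < (univ.filter (fun v : Fin n => Real.exp (g / 8 * x) ≤ dg (Gr ω) v)).card := by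
          apply card_pos.2
          exact ⟨u, mem_filter.2 ⟨mem_univ _, by rw [hu]; exact hcon⟩⟩
        have h4 : (1 : ℝ) ≤ (univ.filter (fun v : Fin n =>
          Real.exp (g / 8 * x) ≤ dg (Gr ω) v)).card := by exact_mod_cast h3
        linarith
      have hD2500 : 2500 ≤ D := by
        have : (2500 : ℝ) ≤ D := by linarith
        exact_mod_cast this
      refine theoremM (Gr ω) (1 / 60) (by norm_num) (by norm_num) D ⌊l + s / 4⌋₊ 4 N
        (univ.filter (fun v : Fin n => l + s / 4 ≤ dg (Gr ω) v)) x (by linarith)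
        (by push_cast; linarith) (main_cond D hD2500) hD ?_ ?_ (by omega) ?_ ?_ L hsym hL
      · intro v hv
        rw [mem_filter] at hv
        apply Nat.le_floor
        by_contra h
        push Not at h
        exact hv ⟨mem_univ _, h.le⟩
      · have h3 := Nat.floor_le (a := l + s / 4) (by positivity)
        have h4 := sqrt_cond l x s D hl0 hx00 hs0 hs2 hl1 hkD'
        linarith
      · intro X hX
        rcases Nat.eq_zero_or_pos X.card with h | h
        · have h4 : ep (Gr ω) X = 0 := by
            rw [card_eq_zero] at h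
            rw [h]
            unfold ep
            rw [card_eq_zero, filter_eq_empty_iff]
            intro e _ he
            exact absurd he.1 (notMem_empty _)
          omega
        · have h4 := c3 X h hX
          have h5 := ep_le X ω
          omega
      · rw [Fintype.card_fin]
        have h3 : (D : ℝ) ^ 2 ≤ Real.exp (g / 4 * x) := by
          refine (pow_le_pow_left₀ (Nat.cast_nonneg _) hDup.le 2).trans (le_of_eq ?_)
          rw [← Real.exp_nat_mul]
          congr 1
          push_cast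
          ring
        have h4 : (1 / 60 : ℝ) ^ 2 / 8192 * x = g * x := by
          rw [hg]
          norm_num
        rw [h4]
        have h5 : (32 : ℝ) / (1 / 60) ^ 2 * n * D ^ 2 * Real.exp (-(g * x)) ≤
            115200 * Real.exp (x - 3 / 4 * g * x) := by
          calc (32 : ℝ) / (1 / 60) ^ 2 * n * D ^ 2 * Real.exp (-(g * x)) ≤
                32 / (1 / 60) ^ 2 * n * Real.exp (g / 4 * x) * Real.exp (-(g * x)) := by gcongr
            _ = 115200 * (Real.exp x * Real.exp (g / 4 * x) * Real.exp (-(g * x))) := by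
                rw [hnx]
                ring
            _ = 115200 * Real.exp (x - 3 / 4 * g * x) := by
                rw [← Real.exp_add, ← Real.exp_add]
                congr 2
                ring
        have h6 : Real.exp (x - g * x) ≤ Real.exp (x - 3 / 4 * g * x) := by
          apply hexp
          nlinarith
        have h7 : 460804 * Real.exp (x - 3 / 4 * g * x) ≤ Real.exp (x - g / 2 * x) := by
          calc 460804 * Real.exp (x - 3 / 4 * g * x) ≤
                Real.exp (g / 16 * x) * Real.exp (x - 3 / 4 * g * x) := by gcongr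
            _ ≤ Real.exp (x - g / 2 * x) := by
                rw [← Real.exp_add]
                apply hexp
                nlinarith
        linarith
    refine h2.trans ((Pr_or hw _ _).trans ?_)
    have h3 := Pr_or hw (fun ω => (Real.exp (x - g * x) ≤
          ((univ.filter (fun v : Fin n => l + s / 4 ≤ dg (Gr ω) v)).card : ℝ)))
        (fun ω => (1 ≤ ((univ.filter (fun v : Fin n =>
          Real.exp (g / 8 * x) ≤ dg (Gr ω) v)).card : ℝ)) ∨
        ∃ S : Finset (Fin n), 1 ≤ S.card ∧ S.card ≤ N ∧ 2 * S.card ≤ cn (ins S) ω)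
    have h4 := Pr_or hw (fun ω => (1 ≤ ((univ.filter (fun v : Fin n =>
          Real.exp (g / 8 * x) ≤ dg (Gr ω) v)).card : ℝ)))
        (fun ω => ∃ S : Finset (Fin n), 1 ≤ S.card ∧ S.card ≤ N ∧ 2 * S.card ≤ cn (ins S) ω)
    linarith
  rw [Pr_not hw] at hfin
  linarith

end Pool.Agent.K4H76.LR
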